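import Mathlib
import Pool.Agent.H52.LB1

/-!
The part of a function modulo `q` with large denominators.
-/

set_option autoImplicit false

open Finset

namespace Pool.Agent.H52.LO

open Pool.Agent.H52

noncomputable section

/-- the finite Fourier transform modulo `q` -/
def hat (q : ℕ) (f : ℕ → ℂ) (h : ℕ) : ℂ := ∑ b ∈ range q, f b * ee (-((h : ℝ) * b / q))

/-- the frequencies with small denominators -/
def lowT (q R0 : ℕ) : Finset ℕ := (range q).filter (fun h => q / Nat.gcd q h ≤ R0)

/-- the frequencies with large denominators -/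
def highT (q R0 : ℕ) : Finset ℕ := (range q).filter (fun h => ¬ (q / Nat.gcd q h ≤ R0))

/-- the kernel of the projection to the small denominators -/
def lowk (q R0 b b' : ℕ) : ℂ :=
  (1 / (q : ℂ)) * ∑ h ∈ lowT q R0, ee ((h : ℝ) * b / q) * ee (-((h : ℝ) * b' / q))

/-- the low part -/
def low (q R0 : ℕ) (f : ℕ → ℂ) (b : ℕ) : ℂ := ∑ b' ∈ range q, lowk q R0 b b' * f b'

/-- the high part -/
def high (q R0 : ℕ) (f : ℕ → ℂ) (b : ℕ) : ℂ := f b - low q R0 f b

lemma ee_neg_mul (x : ℝ) : ee (-x) * ee x = 1 := by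
  rw [← ls_ee_add]
  simp [ls_ee_zero]

lemma low_hat (q R0 : ℕ) (f : ℕ → ℂ) (b : ℕ) :
    low q R0 f b = (1 / (q : ℂ)) * ∑ h ∈ lowT q R0, hat q f h * ee ((h : ℝ) * b / q) := by
  unfold low lowk hat
  simp_rw [mul_assoc, sum_mul]
  rw [← mul_sum, sum_comm]
  congr 1
  apply sum_congr rfl
  intro h _
  apply sum_congr rfl
  intro b' _
  ring

/-- Fourier inversion -/
lemma inversion (q : ℕ) (hq : 0 < q) (f : ℕ → ℂ) (b : ℕ) (hb : b < q) :
    f b = (1 / (q : ℂ)) * ∑ h ∈ range q, hat q f h * ee ((h : ℝ) * b / q) := by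
  have hqC : (q : ℂ) ≠ 0 := by exact_mod_cast hq.ne'
  have h1 : ∑ h ∈ range q, hat q f h * ee ((h : ℝ) * b / q) =
      ∑ b' ∈ range q, f b' * (if b' = b then (q : ℂ) else 0) := by
    unfold hat
    simp_rw [sum_mul]
    rw [sum_comm]
    apply sum_congr rfl
    intro b' hb'
    rw [mem_range] at hb'
    have h2 : ∀ h ∈ range q, f b' * ee (-((h : ℝ) * b' / q)) * ee ((h : ℝ) * b / q) =
        f b' * ee ((((b : ℤ) - b' : ℤ) : ℝ) * h / q) := by
      intro h _
      rw [mul_assoc, ← ls_ee_add]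
      congr 2
      push_cast
      ring
    rw [sum_congr rfl h2, ← mul_sum, orth q hq]
    congr 1
    have h3 : ((q : ℤ) ∣ (b : ℤ) - b') ↔ b' = b := by
      constructor
      · intro h
        have h4 : (b' : ℤ) ≡ b [ZMOD q] := (Int.modEq_iff_dvd).2 h
        have h5 : b' ≡ b [MOD q] := Int.natCast_modEq_iff.1 h4
        have h6 := Nat.ModEq.eq_of_lt_of_lt h5 hb' hb
        exact h6
      · rintro rfl
        simp
    simp only [h3]
  rw [h1]
  simp only [mul_ite, mul_zero, sum_ite_eq', mem_range, hb, if_true]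
  field_simp

lemma high_hat (q R0 : ℕ) (hq : 0 < q) (f : ℕ → ℂ) (b : ℕ) (hb : b < q) :
    high q R0 f b = (1 / (q : ℂ)) * ∑ h ∈ highT q R0, hat q f h * ee ((h : ℝ) * b / q) := by
  unfold high
  rw [low_hat, inversion q hq f b hb, ← mul_sub]
  congr 1
  unfold lowT highT
  rw [← sum_filter_add_sum_filter_not (range q) (fun h => q / Nat.gcd q h ≤ R0)]
  ring

/-- Parseval for the high part -/
lemma pars_high (q R0 : ℕ) (hq : 0 < q) (f : ℕ → ℂ) :
    ∑ b ∈ range q, ‖high q R0 f b‖ ^ 2 = (1 / (q : ℝ)) * ∑ h ∈ highT q R0, ‖hat q f h‖ ^ 2 := by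
  have hqR : (q : ℝ) ≠ 0 := by positivity
  have h1 : ∀ b ∈ range q, ‖high q R0 f b‖ ^ 2 =
      (1 / (q : ℝ)) ^ 2 * ‖∑ h ∈ highT q R0, hat q f h * ee ((h : ℝ) * b / q)‖ ^ 2 := by
    intro b hb
    rw [mem_range] at hb
    rw [high_hat q R0 hq f b hb, norm_mul, mul_pow]
    congr 1
    rw [norm_div, norm_one, Complex.norm_natCast]
  rw [sum_congr rfl h1, ← mul_sum, pars q hq (highT q R0) (hat q f)]
  have h2 : ∀ a ∈ range q, ‖∑ m ∈ (highT q R0).filter (fun m => m % q = a), hat q f m‖ ^ 2 =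
      if a ∈ highT q R0 then ‖hat q f a‖ ^ 2 else 0 := by
    intro a ha
    have ha' : a < q := mem_range.1 ha
    have h3 : (highT q R0).filter (fun m => m % q = a) = if a ∈ highT q R0 then {a} else ∅ := by
      split_ifs with h
      · ext m
        rw [mem_filter, mem_singleton]
        constructor
        · rintro ⟨h4, h5⟩
          unfold highT at h4
          rw [mem_filter, mem_range] at h4
          rwa [Nat.mod_eq_of_lt h4.1] at h5
        · rintro rfl
          exact ⟨h, Nat.mod_eq_of_lt ha'⟩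
      · apply filter_eq_empty_iff.2
        intro m h4 h5
        apply h
        have h6 := h4
        unfold highT at h6
        rw [mem_filter, mem_range] at h6
        rw [Nat.mod_eq_of_lt h6.1] at h5
        subst h5
        exact h4
    rw [h3]
    split_ifs with h
    · rw [sum_singleton]
    · simp
  rw [sum_congr rfl h2]
  have h4 : ∑ a ∈ range q, (if a ∈ highT q R0 then ‖hat q f a‖ ^ 2 else 0) =
      ∑ a ∈ highT q R0, ‖hat q f a‖ ^ 2 := by
    rw [← sum_filter]
    apply sum_congr _ (fun _ _ => rfl)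
    ext m
    unfold highT
    simp only [mem_filter]
    tauto
  rw [h4]
  field_simp

/-- grouping the frequencies by their denominators -/
lemma group {M : Type*} [AddCommMonoid M] (q : ℕ) (hq : 0 < q) (G : ℕ → M) :
    ∑ h ∈ range q, G h =
      ∑ φ ∈ q.divisors, ∑ c ∈ (range φ).filter (fun c => c.Coprime φ), G (c * (q / φ)) := by
  rw [sum_sigma']
  symm
  apply sum_bij' (fun (x : Σ _ : ℕ, ℕ) _ => x.2 * (q / x.1))
    (fun (h : ℕ) _ => (⟨q / Nat.gcd q h, h / Nat.gcd q h⟩ : Σ _ : ℕ, ℕ))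
  · rintro ⟨φ, c⟩ hx
    simp only [mem_sigma, Nat.mem_divisors, mem_filter, mem_range] at hx
    obtain ⟨⟨h1, _⟩, h2, _⟩ := hx
    obtain ⟨e, he⟩ := h1
    have hφ : 0 < φ := by omega
    have he0 : 0 < e := by
      rcases Nat.eq_zero_or_pos e with h | h
      · subst h; omega
      · exact h
    show c * (q / φ) ∈ range q
    rw [mem_range, he, Nat.mul_div_cancel_left e hφ]
    exact Nat.mul_lt_mul_of_pos_right h2 he0
  · intro h hh
    rw [mem_range] at hh
    simp only [mem_sigma, Nat.mem_divisors, mem_filter, mem_range]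
    have hg : 0 < Nat.gcd q h := Nat.gcd_pos_of_pos_left _ hq
    refine ⟨⟨Nat.div_dvd_of_dvd (Nat.gcd_dvd_left q h), hq.ne'⟩, ?_, ?_⟩
    · exact Nat.div_lt_div_of_lt_of_dvd (Nat.gcd_dvd_left q h) hh
    · exact (Nat.coprime_div_gcd_div_gcd hg).symm
  · rintro ⟨φ, c⟩ hx
    simp only [mem_sigma, Nat.mem_divisors, mem_filter, mem_range] at hx
    obtain ⟨⟨h1, _⟩, h2, h3⟩ := hx
    obtain ⟨e, he⟩ := h1
    have hφ : 0 < φ := by omega
    have he0 : 0 < e := by
      rcases Nat.eq_zero_or_pos e with h | h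
      · subst h; omega
      · exact h
    have h4 : Nat.gcd q (c * (q / φ)) = e := by
      rw [he, Nat.mul_div_cancel_left e hφ, Nat.gcd_mul_right, Nat.Coprime.gcd_eq_one h3.symm, one_mul]
    simp only [h4]
    have h5 : q / e = φ := by rw [he]; exact Nat.mul_div_cancel φ he0
    have h6 : c * (q / φ) / e = c := by
      rw [he, Nat.mul_div_cancel_left e hφ]
      exact Nat.mul_div_cancel c he0
    rw [h5, h6]
  · intro h hh
    have hg : 0 < Nat.gcd q h := Nat.gcd_pos_of_pos_left _ hq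
    show h / Nat.gcd q h * (q / (q / Nat.gcd q h)) = h
    rw [Nat.div_div_self (Nat.gcd_dvd_left q h) hq.ne']
    exact Nat.div_mul_cancel (Nat.gcd_dvd_right q h)
  · intro x _
    rfl

lemma den_group (q φ c : ℕ) (hφ : φ ∈ q.divisors) (hc : c.Coprime φ) (hφ0 : 0 < φ) :
    q / Nat.gcd q (c * (q / φ)) = φ := by
  rw [Nat.mem_divisors] at hφ
  obtain ⟨⟨e, he⟩, hq⟩ := hφ
  have he0 : 0 < e := by
    rcases Nat.eq_zero_or_pos e with h | h
    · subst h; simp at he; omega
    · exact h
  have h4 : Nat.gcd q (c * (q / φ)) = e := by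
    rw [he, Nat.mul_div_cancel_left e hφ0, Nat.gcd_mul_right, Nat.Coprime.gcd_eq_one hc.symm, one_mul]
  rw [h4, he]
  exact Nat.mul_div_cancel φ he0

/-- the kernel by denominators -/
lemma lowk_eq (q R0 b b' : ℕ) (hq : 0 < q) (hb' : b' < q) :
    lowk q R0 b b' = (1 / (q : ℂ)) *
      ∑ φ ∈ q.divisors.filter (fun φ => φ ≤ R0), ((cr φ (b + (q - b')) : ℝ) : ℂ) := by
  unfold lowk lowT
  congr 1
  rw [sum_filter, group q hq, sum_filter]
  apply sum_congr rfl
  intro φ hφ
  have hφ' := hφ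
  rw [Nat.mem_divisors] at hφ'
  have hφ0 : 0 < φ := Nat.pos_of_dvd_of_pos hφ'.1 hq
  split_ifs with h
  · rw [← cr_eq φ _ hφ0]
    apply sum_congr rfl
    intro c hc
    rw [mem_filter] at hc
    rw [den_group q φ c hφ hc.2 hφ0, if_pos h, ← ls_ee_add]
    obtain ⟨e, he⟩ := hφ'.1
    have hφR : (φ : ℝ) ≠ 0 := by positivity
    have he0 : (e : ℝ) ≠ 0 := by
      intro h0
      have : e = 0 := by exact_mod_cast h0
      subst this
      simp at he
      omega
    have h1 : q / φ = e := by rw [he]; exact Nat.mul_div_cancel_left e hφ0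
    rw [h1]
    have h2 : ((b + (q - b') : ℕ) : ℝ) = b + ((q : ℝ) - b') := by
      rw [Nat.cast_add, Nat.cast_sub hb'.le]
    rw [h2]
    have h3 : ((b : ℝ) + ((q : ℝ) - b')) * c / φ =
        (((c * e : ℕ) : ℝ) * b / q + -(((c * e : ℕ) : ℝ) * b' / q)) + (((c * e : ℕ) : ℤ) : ℝ) := by
      rw [he]
      push_cast
      field_simp
      ring
    rw [h3, ls_ee_add _ ((((c * e : ℕ) : ℤ) : ℝ)), ls_ee_int, mul_one]
  · apply sum_eq_zero
    intro c hc
    rw [mem_filter] at hc
    rw [den_group q φ c hφ hc.2 hφ0, if_neg h]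

lemma abs_cr_le (r m : ℕ) : |cr r m| ≤ ∑ d ∈ r.divisors, if d ∣ m then (d : ℝ) else 0 := by
  unfold cr
  refine (abs_sum_le_sum_abs _ _).trans ?_
  rw [sum_filter]
  apply sum_le_sum
  intro d _
  split_ifs
  · rw [abs_mul, Nat.abs_cast]
    calc (d : ℝ) * |mu (r / d)| ≤ d * 1 := by
          apply mul_le_mul_of_nonneg_left (abs_mu_le _) (by positivity)
      _ = d := mul_one _
  · exact le_refl _

/-- the number of multiples of a divisor of the length of an interval -/
lemma count_div (q d t : ℕ) (hd : d ∣ q) (hq : 0 < q) :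
    (((range q).filter (fun b => d ∣ b + t)).card : ℝ) = q / d := by
  have hd0 : 0 < d := Nat.pos_of_dvd_of_pos hd hq
  obtain ⟨e, rfl⟩ := hd
  have h1 : ((range (d * e)).filter (fun b => d ∣ b + t)).card = e := by
    have h2 := Nat.filter_Ico_card_eq_of_periodic t (d * e) (fun x => d ∣ x) (by
      intro x
      simp only [eq_iff_iff]
      constructor
      · intro h
        exact (Nat.dvd_add_left (Dvd.intro _ rfl)).1 h
      · intro h
        exact dvd_add h (Dvd.intro _ rfl))
    have h3 : ((range (d * e)).filter (fun b => d ∣ b + t)).card = ((Ico t (t + d * e)).filter (fun x => d ∣ x)).card := by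
      apply card_bij (fun b _ => b + t)
      · intro b hb
        rw [mem_filter, mem_range] at hb
        rw [mem_filter, mem_Ico]
        exact ⟨by omega, hb.2⟩
      · intro a _ b _ h
        omega
      · intro x hx
        rw [mem_filter, mem_Ico] at hx
        refine ⟨x - t, ?_, by omega⟩
        rw [mem_filter, mem_range]
        have : x - t + t = x := by omega
        rw [this]
        exact ⟨by omega, hx.2⟩
    rw [h3, h2, Nat.count_eq_card_filter_range]
    have h5 : ((range (d * e)).filter (fun x => d ∣ x)).card = e := by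
      rw [show (range (d * e)).filter (fun x => d ∣ x) = (range e).image (fun u => d * u) by
        ext x
        rw [mem_filter, mem_range, mem_image]
        constructor
        · rintro ⟨h6, u, rfl⟩
          refine ⟨u, ?_, rfl⟩
          rw [mem_range]
          exact Nat.lt_of_mul_lt_mul_left h6
        · rintro ⟨u, hu, rfl⟩
          rw [mem_range] at hu
          exact ⟨Nat.mul_lt_mul_of_pos_left hu hd0, Dvd.intro _ rfl⟩]
      rw [card_image_of_injective _ (fun a b h => Nat.eq_of_mul_eq_mul_left hd0 h), card_range]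
    exact h5
  rw [h1]
  have : (d : ℝ) ≠ 0 := by positivity
  push_cast
  field_simp

/-- the kernel is bounded in the mean -/
lemma lowk_sum (q R0 b' : ℕ) (hq : 0 < q) (hb' : b' < q) :
    ∑ b ∈ range q, ‖lowk q R0 b b'‖ ≤ (q.divisors.card : ℝ) ^ 2 := by
  have hq0 : (0 : ℝ) < q := by exact_mod_cast hq
  have h1 : ∀ b ∈ range q, ‖lowk q R0 b b'‖ ≤ (1 / (q : ℝ)) *
      ∑ φ ∈ q.divisors, ∑ d ∈ φ.divisors, if d ∣ b + (q - b') then (d : ℝ) else 0 := by
    intro b _
    rw [lowk_eq q R0 b b' hq hb', norm_mul, norm_div, norm_one, Complex.norm_natCast]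
    apply mul_le_mul_of_nonneg_left _ (by positivity)
    refine (norm_sum_le _ _).trans ?_
    refine le_trans (sum_le_sum (fun φ _ => ?_)) (sum_le_sum_of_subset_of_nonneg (filter_subset _ _) ?_)
    · rw [Complex.norm_real, Real.norm_eq_abs]
      exact abs_cr_le φ _
    · intro φ _ _
      apply sum_nonneg
      intro d _
      split_ifs <;> positivity
  refine (sum_le_sum h1).trans ?_
  rw [← mul_sum, sum_comm]
  have h2 : ∀ φ ∈ q.divisors, ∑ b ∈ range q, ∑ d ∈ φ.divisors, (if d ∣ b + (q - b') then (d : ℝ) else 0) ≤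
      q * q.divisors.card := by
    intro φ hφ
    rw [Nat.mem_divisors] at hφ
    rw [sum_comm]
    calc ∑ d ∈ φ.divisors, ∑ b ∈ range q, (if d ∣ b + (q - b') then (d : ℝ) else 0) =
          ∑ d ∈ φ.divisors, (q : ℝ) := by
          apply sum_congr rfl
          intro d hd
          rw [Nat.mem_divisors] at hd
          have hd0 : 0 < d := Nat.pos_of_dvd_of_pos hd.1 (Nat.pos_of_dvd_of_pos hφ.1 hq)
          rw [← sum_filter, sum_const, nsmul_eq_mul, count_div q d _ (hd.1.trans hφ.1) hq]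
          have : (d : ℝ) ≠ 0 := by positivity
          field_simp
      _ = φ.divisors.card * q := by rw [sum_const, nsmul_eq_mul]
      _ ≤ q * q.divisors.card := by
          rw [mul_comm]
          apply mul_le_mul_of_nonneg_left _ (by positivity)
          exact_mod_cast card_le_card (Nat.divisors_subset_of_dvd hq.ne' hφ.1)
  calc (1 / (q : ℝ)) * ∑ φ ∈ q.divisors, ∑ b ∈ range q, ∑ d ∈ φ.divisors,
        (if d ∣ b + (q - b') then (d : ℝ) else 0) ≤
        (1 / (q : ℝ)) * ∑ φ ∈ q.divisors, (q : ℝ) * q.divisors.card := by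
        apply mul_le_mul_of_nonneg_left (sum_le_sum h2) (by positivity)
    _ = (q.divisors.card : ℝ) ^ 2 := by
        rw [sum_const, nsmul_eq_mul]
        field_simp

/-- the mean of the high part -/
lemma high_L1 (q R0 : ℕ) (hq : 0 < q) (f : ℕ → ℂ) :
    ∑ b ∈ range q, ‖high q R0 f b‖ ≤ (1 + (q.divisors.card : ℝ) ^ 2) * ∑ b ∈ range q, ‖f b‖ := by
  have h1 : ∑ b ∈ range q, ‖low q R0 f b‖ ≤ (q.divisors.card : ℝ) ^ 2 * ∑ b ∈ range q, ‖f b‖ := by
    calc ∑ b ∈ range q, ‖low q R0 f b‖ ≤ ∑ b ∈ range q, ∑ b' ∈ range q, ‖lowk q R0 b b'‖ * ‖f b'‖ := by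
          apply sum_le_sum
          intro b _
          unfold low
          refine (norm_sum_le _ _).trans (le_of_eq ?_)
          apply sum_congr rfl
          intro b' _
          rw [norm_mul]
      _ = ∑ b' ∈ range q, (∑ b ∈ range q, ‖lowk q R0 b b'‖) * ‖f b'‖ := by
          rw [sum_comm]
          apply sum_congr rfl
          intro b' _
          rw [sum_mul]
      _ ≤ ∑ b' ∈ range q, (q.divisors.card : ℝ) ^ 2 * ‖f b'‖ := by
          apply sum_le_sum
          intro b' hb'
          rw [mem_range] at hb'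
          exact mul_le_mul_of_nonneg_right (lowk_sum q R0 b' hq hb') (norm_nonneg _)
      _ = _ := by rw [mul_sum]
  calc ∑ b ∈ range q, ‖high q R0 f b‖ ≤ ∑ b ∈ range q, (‖f b‖ + ‖low q R0 f b‖) := by
        apply sum_le_sum
        intro b _
        exact norm_sub_le _ _
    _ = ∑ b ∈ range q, ‖f b‖ + ∑ b ∈ range q, ‖low q R0 f b‖ := sum_add_distrib
    _ ≤ _ := by linarith

/-- functions with large denominators do not see the low part -/
lemma low_orth (q R0 : ℕ) (hq : 0 < q) (f : ℕ → ℂ) (u : ℕ) (hu : R0 < q / Nat.gcd q u) :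
    ∑ b ∈ range q, low q R0 f b * ee ((u : ℝ) * b / q) = 0 := by
  unfold low
  simp_rw [sum_mul]
  rw [sum_comm]
  apply sum_eq_zero
  intro b' _
  unfold lowk
  have h1 : ∀ b ∈ range q, 1 / (q : ℂ) * (∑ h ∈ lowT q R0, ee ((h : ℝ) * b / q) * ee (-((h : ℝ) * b' / q))) *
      f b' * ee ((u : ℝ) * b / q) =
      ∑ h ∈ lowT q R0, (1 / (q : ℂ) * f b' * ee (-((h : ℝ) * b' / q))) * ee ((((h + u : ℕ) : ℤ) : ℝ) * b / q) := by
    intro b _
    rw [mul_sum, sum_mul, sum_mul]
    apply sum_congr rfl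
    intro h _
    have h2 : ee ((((h + u : ℕ) : ℤ) : ℝ) * b / q) = ee ((h : ℝ) * b / q) * ee ((u : ℝ) * b / q) := by
      rw [← ls_ee_add]
      congr 1
      push_cast
      ring
    rw [h2]
    ring
  rw [sum_congr rfl h1, sum_comm]
  apply sum_eq_zero
  intro h hh
  rw [← mul_sum, orth q hq, if_neg, mul_zero]
  intro hdvd
  have h3 : q ∣ h + u := by exact_mod_cast hdvd
  unfold lowT at hh
  rw [mem_filter] at hh
  have h4 : Nat.gcd q h = Nat.gcd q u := by
    apply Nat.dvd_antisymm
    · apply Nat.dvd_gcd (Nat.gcd_dvd_left _ _)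
      have h5 : Nat.gcd q h ∣ h + u := (Nat.gcd_dvd_left _ _).trans h3
      exact (Nat.dvd_add_right (Nat.gcd_dvd_right q h)).1 h5
    · apply Nat.dvd_gcd (Nat.gcd_dvd_left _ _)
      have h5 : Nat.gcd q u ∣ h + u := (Nat.gcd_dvd_left _ _).trans h3
      exact (Nat.dvd_add_left (Nat.gcd_dvd_right q u)).1 h5
  rw [h4] at hh
  omega

end

end Pool.Agent.H52.LO
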