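import Mathlib
import Pool.Agent.H52.LO.A1

/-!
The inequality of Hölder and the fourth moment.
-/

set_option autoImplicit false

open Finset

namespace Pool.Agent.H52.LO

open Pool.Agent.H52

noncomputable section

/-- second moment of an exponential polynomial modulo `q` -/
lemma second {ι : Type*} [DecidableEq ι] (q : ℕ) (hq : 0 < q) (J : Finset ι) (u : ι → ℕ) :
    ∑ b ∈ range q, ‖∑ j ∈ J, ee ((u j : ℝ) * b / q)‖ ^ 2 =
      q * (((J ×ˢ J).filter (fun x => u x.1 ≡ u x.2 [MOD q])).card : ℝ) := by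
  have key : ((∑ b ∈ range q, ‖∑ j ∈ J, ee ((u j : ℝ) * b / q)‖ ^ 2 : ℝ) : ℂ) =
      ((q * (((J ×ˢ J).filter (fun x => u x.1 ≡ u x.2 [MOD q])).card : ℝ) : ℝ) : ℂ) := by
    rw [Complex.ofReal_sum]
    simp_rw [norm_sq_eq, map_sum, sum_mul_sum]
    have h1 : ∀ b ∈ range q, ∑ i ∈ J, ∑ j ∈ J, ee ((u i : ℝ) * b / q) * (starRingEnd ℂ) (ee ((u j : ℝ) * b / q)) =
        ∑ x ∈ J ×ˢ J, ee ((((u x.1 : ℤ) - u x.2 : ℤ) : ℝ) * b / q) := by
      intro b _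
      rw [sum_product]
      apply sum_congr rfl
      intro i _
      apply sum_congr rfl
      intro j _
      rw [ls_conj_ee, ← ls_ee_add]
      congr 1
      push_cast
      ring
    rw [sum_congr rfl h1, sum_comm]
    have h2 : ∀ x ∈ J ×ˢ J, ∑ b ∈ range q, ee ((((u x.1 : ℤ) - u x.2 : ℤ) : ℝ) * b / q) =
        if u x.1 ≡ u x.2 [MOD q] then (q : ℂ) else 0 := by
      intro x _
      rw [orth q hq]
      have h3 : ((q : ℤ) ∣ (u x.1 : ℤ) - u x.2) ↔ u x.1 ≡ u x.2 [MOD q] := by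
        rw [← Int.natCast_modEq_iff, Int.modEq_comm, Int.modEq_iff_dvd]
      simp only [h3]
    rw [sum_congr rfl h2, ← sum_filter, sum_const, nsmul_eq_mul]
    push_cast
    ring
  exact_mod_cast key

/-- fourth moment -/
lemma fourth {ι : Type*} [DecidableEq ι] (q : ℕ) (hq : 0 < q) (J : Finset ι) (u : ι → ℕ) :
    ∑ b ∈ range q, ‖∑ j ∈ J, ee ((u j : ℝ) * b / q)‖ ^ 4 =
      q * ((((J ×ˢ J) ×ˢ (J ×ˢ J)).filter
        (fun x => u x.1.1 + u x.1.2 ≡ u x.2.1 + u x.2.2 [MOD q])).card : ℝ) := by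
  rw [← second q hq (J ×ˢ J) (fun x => u x.1 + u x.2)]
  apply sum_congr rfl
  intro b _
  rw [show (4 : ℕ) = 2 * 2 by norm_num, pow_mul, ← norm_pow, sq (∑ j ∈ J, ee ((u j : ℝ) * b / q)), sum_mul_sum,
    sum_product]
  congr 2
  apply sum_congr rfl
  intro i _
  apply sum_congr rfl
  intro j _
  rw [← ls_ee_add]
  congr 1
  push_cast
  ring

/-- Hölder -/
theorem holder {ι : Type*} [DecidableEq ι] (q R0 : ℕ) (hq : 0 < q) (f : ℕ → ℂ) (J : Finset ι) (u : ι → ℕ)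
    (hu : ∀ j ∈ J, R0 < q / Nat.gcd q (u j)) :
    ‖∑ b ∈ range q, f b * ∑ j ∈ J, ee ((u j : ℝ) * b / q)‖ ^ 2 ≤
      ((1 + (q.divisors.card : ℝ) ^ 2) * ∑ b ∈ range q, ‖f b‖) *
        (Real.sqrt (∑ b ∈ range q, ‖high q R0 f b‖ ^ 2) *
          Real.sqrt (∑ b ∈ range q, ‖∑ j ∈ J, ee ((u j : ℝ) * b / q)‖ ^ 4)) := by
  set W : ℕ → ℂ := fun b => ∑ j ∈ J, ee ((u j : ℝ) * b / q) with hW
  have h1 : ∑ b ∈ range q, f b * W b = ∑ b ∈ range q, high q R0 f b * W b := by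
    have h2 : ∑ b ∈ range q, low q R0 f b * W b = 0 := by
      simp only [hW, mul_sum]
      rw [sum_comm]
      apply sum_eq_zero
      intro j hj
      exact low_orth q R0 hq f (u j) (hu j hj)
    have h3 : ∀ b ∈ range q, f b * W b = high q R0 f b * W b + low q R0 f b * W b := by
      intro b _
      unfold high
      ring
    rw [sum_congr rfl h3, sum_add_distrib, h2, add_zero]
  rw [h1]
  set g : ℕ → ℂ := high q R0 f with hg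
  have h4 : ‖∑ b ∈ range q, g b * W b‖ ≤ ∑ b ∈ range q, ‖g b‖ * ‖W b‖ := by
    refine (norm_sum_le _ _).trans (le_of_eq ?_)
    apply sum_congr rfl
    intro b _
    rw [norm_mul]
  have h5 : (∑ b ∈ range q, ‖g b‖ * ‖W b‖) ^ 2 ≤
      (∑ b ∈ range q, ‖g b‖) * ∑ b ∈ range q, ‖g b‖ * ‖W b‖ ^ 2 := by
    have h6 := sum_mul_sq_le_sq_mul_sq (range q) (fun b => Real.sqrt ‖g b‖) (fun b => Real.sqrt ‖g b‖ * ‖W b‖)
    have e1 : ∀ b, Real.sqrt ‖g b‖ * (Real.sqrt ‖g b‖ * ‖W b‖) = ‖g b‖ * ‖W b‖ := by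
      intro b
      rw [← mul_assoc, Real.mul_self_sqrt (norm_nonneg _)]
    have e2 : ∀ b, Real.sqrt ‖g b‖ ^ 2 = ‖g b‖ := fun b => Real.sq_sqrt (norm_nonneg _)
    have e3 : ∀ b, (Real.sqrt ‖g b‖ * ‖W b‖) ^ 2 = ‖g b‖ * ‖W b‖ ^ 2 := by
      intro b
      rw [mul_pow, e2]
    simp only [e1, e2, e3] at h6
    exact h6
  have h7 : ∑ b ∈ range q, ‖g b‖ * ‖W b‖ ^ 2 ≤
      Real.sqrt (∑ b ∈ range q, ‖g b‖ ^ 2) * Real.sqrt (∑ b ∈ range q, ‖W b‖ ^ 4) := by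
    have h8 := Real.sum_mul_le_sqrt_mul_sqrt (range q) (fun b => ‖g b‖) (fun b => ‖W b‖ ^ 2)
    have e4 : ∀ b, (‖W b‖ ^ 2) ^ 2 = ‖W b‖ ^ 4 := by
      intro b
      rw [← pow_mul]
    simp only [e4] at h8
    exact h8
  have h9 : ∑ b ∈ range q, ‖g b‖ ≤ (1 + (q.divisors.card : ℝ) ^ 2) * ∑ b ∈ range q, ‖f b‖ := high_L1 q R0 hq f
  have h10 : 0 ≤ ∑ b ∈ range q, ‖g b‖ := sum_nonneg fun b _ => norm_nonneg _
  calc ‖∑ b ∈ range q, g b * W b‖ ^ 2 ≤ (∑ b ∈ range q, ‖g b‖ * ‖W b‖) ^ 2 :=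
        pow_le_pow_left₀ (norm_nonneg _) h4 2
    _ ≤ (∑ b ∈ range q, ‖g b‖) * ∑ b ∈ range q, ‖g b‖ * ‖W b‖ ^ 2 := h5
    _ ≤ (∑ b ∈ range q, ‖g b‖) * (Real.sqrt (∑ b ∈ range q, ‖g b‖ ^ 2) * Real.sqrt (∑ b ∈ range q, ‖W b‖ ^ 4)) :=
        mul_le_mul_of_nonneg_left h7 h10
    _ ≤ _ := by
        apply mul_le_mul_of_nonneg_right h9 (by positivity)

end

end Pool.Agent.H52.LO
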