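import Mathlib
import Pool.Agent.H52.LO.A2

/-!
The additive energy of the fractions `h / r` modulo `q`, for almost all `q`.
-/

set_option autoImplicit false

open Finset

namespace Pool.Agent.H52.LO

open Pool.Agent.H52

noncomputable section

/-- the primes between `R` and `8 R` -/
def RP (R : ℕ) : Finset ℕ := (Ioc R (8 * R)).filter Nat.Prime

/-- pairs `(h, r)` -/
def SS (H R : ℕ) : Finset (ℕ × ℕ) := Icc 1 H ×ˢ RP R

/-- pairs `(h, r)` with `r` coprime to `q` -/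
def Sq (q H R : ℕ) : Finset (ℕ × ℕ) := Icc 1 H ×ˢ (RP R).filter (fun r => r.Coprime q)

lemma Sq_sub (q H R : ℕ) : Sq q H R ⊆ SS H R := by
  intro x hx
  unfold Sq SS at *
  rw [mem_product] at *
  exact ⟨hx.1, (mem_filter.1 hx.2).1⟩

/-- the inverse of `r` modulo `q` -/
def iv (q r : ℕ) : ℕ := ((r : ZMod q)⁻¹).val

lemma iv_spec (q r : ℕ) (hq : 1 < q) (hr : r.Coprime q) : ((r : ZMod q)) * ((iv q r : ℕ) : ZMod q) = 1 := by
  have : NeZero q := ⟨by omega⟩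
  unfold iv
  rw [ZMod.natCast_zmod_val]
  exact ZMod.coe_mul_inv_eq_one r hr

/-- the frequency of a pair -/
def fr (q : ℕ) (s : ℕ × ℕ) : ℕ := s.1 * iv q s.2

/-- the determinant of four fractions -/
def ZI (a b c d : ℕ × ℕ) : ℤ :=
  a.1 * b.2 * c.2 * d.2 + b.1 * a.2 * c.2 * d.2 - c.1 * a.2 * b.2 * d.2 - d.1 * a.2 * b.2 * c.2

lemma cong_dvd (q : ℕ) (hq : 1 < q) (a b c d : ℕ × ℕ) (ha : a.2.Coprime q) (hb : b.2.Coprime q)
    (hc : c.2.Coprime q) (hd : d.2.Coprime q) (h : fr q a + fr q b ≡ fr q c + fr q d [MOD q]) :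
    (q : ℤ) ∣ ZI a b c d := by
  have h1 : ((fr q a + fr q b : ℕ) : ZMod q) = ((fr q c + fr q d : ℕ) : ZMod q) :=
    (ZMod.natCast_eq_natCast_iff _ _ _).2 h
  rw [← ZMod.intCast_zmod_eq_zero_iff_dvd]
  unfold ZI
  have ea := iv_spec q a.2 hq ha
  have eb := iv_spec q b.2 hq hb
  have ec := iv_spec q c.2 hq hc
  have ed := iv_spec q d.2 hq hd
  unfold fr at h1
  push_cast at h1 ⊢
  linear_combination ((a.2 : ZMod q) * b.2 * c.2 * d.2) * h1 - (a.1 : ZMod q) * b.2 * c.2 * d.2 * ea -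
    (b.1 : ZMod q) * a.2 * c.2 * d.2 * eb + (c.1 : ZMod q) * a.2 * b.2 * d.2 * ec +
    (d.1 : ZMod q) * a.2 * b.2 * c.2 * ed

lemma SS_facts (H R : ℕ) (s : ℕ × ℕ) (hs : s ∈ SS H R) :
    1 ≤ s.1 ∧ s.1 ≤ H ∧ R < s.2 ∧ s.2 ≤ 8 * R ∧ Nat.Prime s.2 := by
  unfold SS RP at hs
  rw [mem_product, mem_Icc, mem_filter, mem_Ioc] at hs
  exact ⟨hs.1.1, hs.1.2, hs.2.1.1, hs.2.1.2, hs.2.2⟩

lemma int_dvd_small (r : ℕ) (x : ℤ) (h : (r : ℤ) ∣ x) (hx : |x| < r) : x = 0 :=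
  Int.eq_zero_of_abs_lt_dvd h hx

/-- one of the other primes is equal to the first one -/
lemma first_prime (H R : ℕ) (hHR : 2 * H ≤ R) (a b c d : ℕ × ℕ) (ha : a ∈ SS H R) (hb : b ∈ SS H R)
    (hc : c ∈ SS H R) (hd : d ∈ SS H R) (e1 e2 e3 : ℤ)
    (h : (a.1 : ℤ) * b.2 * c.2 * d.2 = a.2 * (e1 + e2 + e3)) : a.2 = b.2 ∨ a.2 = c.2 ∨ a.2 = d.2 := by
  obtain ⟨a1, a2, a3, a4, a5⟩ := SS_facts H R a ha
  obtain ⟨b1, b2, b3, b4, b5⟩ := SS_facts H R b hb
  obtain ⟨c1, c2, c3, c4, c5⟩ := SS_facts H R c hc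
  obtain ⟨d1, d2, d3, d4, d5⟩ := SS_facts H R d hd
  have h1 : (a.2 : ℤ) ∣ (a.1 : ℤ) * b.2 * c.2 * d.2 := ⟨_, h⟩
  have h2 : a.2 ∣ a.1 * b.2 * c.2 * d.2 := by exact_mod_cast h1
  rcases (Nat.Prime.dvd_mul a5).1 h2 with h3 | h3
  · rcases (Nat.Prime.dvd_mul a5).1 h3 with h4 | h4
    · rcases (Nat.Prime.dvd_mul a5).1 h4 with h5 | h5
      · have := Nat.le_of_dvd (by omega) h5
        omega
      · left
        exact (Nat.prime_dvd_prime_iff_eq a5 b5).1 h5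
    · right; left
      exact (Nat.prime_dvd_prime_iff_eq a5 c5).1 h4
  · right; right
    exact (Nat.prime_dvd_prime_iff_eq a5 d5).1 h3

/-- the solutions with different primes on one side are trivial -/
lemma cross (H R : ℕ) (hHR : 2 * H ≤ R) (a b c d : ℕ × ℕ) (ha : a ∈ SS H R) (hb : b ∈ SS H R)
    (hc : c ∈ SS H R) (hd : d ∈ SS H R) (hab : a.2 ≠ b.2) (hac : a.2 = c.2) (hbd : b.2 = d.2)
    (h : ZI a b c d = 0) : a = c ∧ b = d := by
  obtain ⟨a1, a2, a3, a4, a5⟩ := SS_facts H R a ha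
  obtain ⟨b1, b2, b3, b4, b5⟩ := SS_facts H R b hb
  obtain ⟨c1, c2, c3, c4, c5⟩ := SS_facts H R c hc
  obtain ⟨d1, d2, d3, d4, d5⟩ := SS_facts H R d hd
  unfold ZI at h
  rw [← hac, ← hbd] at h
  have h1 : ((a.2 : ℤ) * b.2) * (((a.1 : ℤ) - c.1) * b.2 + ((b.1 : ℤ) - d.1) * a.2) = 0 := by
    linear_combination h
  have h2 : ((a.2 : ℤ) * b.2) ≠ 0 := by
    have : (0 : ℤ) < a.2 := by exact_mod_cast a5.pos
    have : (0 : ℤ) < b.2 := by exact_mod_cast b5.pos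
    positivity
  have h3 : ((a.1 : ℤ) - c.1) * b.2 + ((b.1 : ℤ) - d.1) * a.2 = 0 := by
    rcases mul_eq_zero.1 h1 with h4 | h4
    · exact absurd h4 h2
    · exact h4
  have h4 : (a.2 : ℤ) ∣ ((a.1 : ℤ) - c.1) * b.2 := ⟨-((b.1 : ℤ) - d.1), by linear_combination h3⟩
  have h5 : IsCoprime (a.2 : ℤ) (b.2 : ℤ) := by
    rw [Nat.isCoprime_iff_coprime]
    exact (Nat.coprime_primes a5 b5).2 hab
  have h6 : (a.2 : ℤ) ∣ (a.1 : ℤ) - c.1 := h5.dvd_of_dvd_mul_right h4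
  have h7 : (a.1 : ℤ) - c.1 = 0 := by
    apply int_dvd_small a.2 _ h6
    rw [abs_lt]
    omega
  rw [h7, zero_mul, zero_add] at h3
  have h8 : (b.1 : ℤ) - d.1 = 0 := by
    rcases mul_eq_zero.1 h3 with h9 | h9
    · exact h9
    · exfalso
      have : (0 : ℤ) < a.2 := by exact_mod_cast a5.pos
      omega
  constructor
  · exact Prod.ext (by omega) hac
  · exact Prod.ext (by omega) hbd

lemma zero_cases (H R : ℕ) (hHR : 2 * H ≤ R) (a b c d : ℕ × ℕ) (ha : a ∈ SS H R) (hb : b ∈ SS H R)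
    (hc : c ∈ SS H R) (hd : d ∈ SS H R) (h : ZI a b c d = 0) :
    (a = c ∧ b = d) ∨ (a = d ∧ b = c) ∨ (b.2 = a.2 ∧ c.2 = a.2 ∧ d.2 = a.2 ∧ a.1 + b.1 = c.1 + d.1) := by
  obtain ⟨a1, a2, a3, a4, a5⟩ := SS_facts H R a ha
  obtain ⟨b1, b2, b3, b4, b5⟩ := SS_facts H R b hb
  obtain ⟨c1, c2, c3, c4, c5⟩ := SS_facts H R c hc
  obtain ⟨d1, d2, d3, d4, d5⟩ := SS_facts H R d hd
  have hZ := h
  unfold ZI at h
  have fa := first_prime H R hHR a b c d ha hb hc hd (-((b.1 : ℤ) * c.2 * d.2)) (c.1 * b.2 * d.2) (d.1 * b.2 * c.2)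
    (by linear_combination h)
  have fb := first_prime H R hHR b a c d hb ha hc hd (-((a.1 : ℤ) * c.2 * d.2)) (c.1 * a.2 * d.2) (d.1 * a.2 * c.2)
    (by linear_combination h)
  have fc := first_prime H R hHR c a b d hc ha hb hd ((a.1 : ℤ) * b.2 * d.2) (b.1 * a.2 * d.2) (-(d.1 * a.2 * b.2))
    (by linear_combination -h)
  have fd := first_prime H R hHR d a b c hd ha hb hc ((a.1 : ℤ) * b.2 * c.2) (b.1 * a.2 * c.2) (-(c.1 * a.2 * b.2))
    (by linear_combination -h)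
  by_cases hab : a.2 = b.2
  · -- `c.2 = d.2`
    have hcd : c.2 = d.2 := by
      rcases fc with h1 | h1 | h1
      · rcases fd with h2 | h2 | h2
        · omega
        · omega
        · omega
      · rcases fd with h2 | h2 | h2
        · omega
        · omega
        · omega
      · exact h1
    by_cases hac : a.2 = c.2
    · right; right
      refine ⟨hab.symm, hac.symm, by omega, ?_⟩
      rw [← hcd, ← hac, ← hab] at h
      have h1 : ((a.2 : ℤ) ^ 3) * ((a.1 : ℤ) + b.1 - (c.1 + d.1)) = 0 := by linear_combination h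
      have h2 : ((a.2 : ℤ) ^ 3) ≠ 0 := by
        have : (0 : ℤ) < a.2 := by exact_mod_cast a5.pos
        positivity
      rcases mul_eq_zero.1 h1 with h4 | h4
      · exact absurd h4 h2
      · omega
    · exfalso
      rw [← hcd, ← hab] at h
      have h1 : ((a.2 : ℤ) * c.2) * (((a.1 : ℤ) + b.1) * c.2 - ((c.1 : ℤ) + d.1) * a.2) = 0 := by
        linear_combination h
      have h2 : ((a.2 : ℤ) * c.2) ≠ 0 := by
        have : (0 : ℤ) < a.2 := by exact_mod_cast a5.pos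
        have : (0 : ℤ) < c.2 := by exact_mod_cast c5.pos
        positivity
      have h3 : ((a.1 : ℤ) + b.1) * c.2 - ((c.1 : ℤ) + d.1) * a.2 = 0 := by
        rcases mul_eq_zero.1 h1 with h4 | h4
        · exact absurd h4 h2
        · exact h4
      have h4 : (a.2 : ℤ) ∣ ((a.1 : ℤ) + b.1) * c.2 := ⟨((c.1 : ℤ) + d.1), by linear_combination h3⟩
      have h5 : IsCoprime (a.2 : ℤ) (c.2 : ℤ) := by
        rw [Nat.isCoprime_iff_coprime]
        exact (Nat.coprime_primes a5 c5).2 hac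
      have h6 : (a.2 : ℤ) ∣ (a.1 : ℤ) + b.1 := h5.dvd_of_dvd_mul_right h4
      have h7 := int_dvd_small a.2 _ h6 (by rw [abs_lt]; omega)
      omega
  · -- the primes of `a`, `b` are different
    have h1 : (a.2 = c.2 ∧ b.2 = d.2) ∨ (a.2 = d.2 ∧ b.2 = c.2) := by
      rcases fa with h1 | h1 | h1
      · exact absurd h1 hab
      · rcases fb with h2 | h2 | h2
        · exact absurd h2.symm hab
        · exfalso; omega
        · left; exact ⟨h1, h2⟩
      · rcases fb with h2 | h2 | h2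
        · exact absurd h2.symm hab
        · right; exact ⟨h1, h2⟩
        · exfalso; omega
    rcases h1 with ⟨h2, h3⟩ | ⟨h2, h3⟩
    · left
      exact cross H R hHR a b c d ha hb hc hd hab h2 h3 hZ
    · right; left
      apply cross H R hHR a b d c ha hb hd hc hab h2 h3
      rw [← hZ]
      unfold ZI
      ring

/-- the number of solutions of the equation -/
lemma zero_count (H R : ℕ) (hHR : 2 * H ≤ R) :
    ((((SS H R ×ˢ SS H R) ×ˢ (SS H R ×ˢ SS H R)).filter (fun x => ZI x.1.1 x.1.2 x.2.1 x.2.2 = 0)).card : ℝ) ≤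
      2 * ((SS H R).card : ℝ) ^ 2 + (SS H R).card * (H : ℝ) ^ 2 := by
  set S := SS H R with hS
  have hsub : ((S ×ˢ S) ×ˢ (S ×ˢ S)).filter (fun x => ZI x.1.1 x.1.2 x.2.1 x.2.2 = 0) ⊆
      ((S ×ˢ S).image (fun x => (x, x)) ∪ (S ×ˢ S).image (fun x => (x, (x.2, x.1)))) ∪
        (S ×ˢ (Icc 1 H ×ˢ Icc 1 H)).image (fun x => ((x.1, (x.2.1, x.1.2)),
          ((x.2.2, x.1.2), (x.1.1 + x.2.1 - x.2.2, x.1.2)))) := by
    rintro ⟨⟨a, b⟩, ⟨c, d⟩⟩ hx
    rw [mem_filter, mem_product, mem_product, mem_product] at hx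
    obtain ⟨⟨⟨ha, hb⟩, ⟨hc, hd⟩⟩, h0⟩ := hx
    simp only at ha hb hc hd h0
    rcases zero_cases H R hHR a b c d ha hb hc hd h0 with ⟨h1, h2⟩ | ⟨h1, h2⟩ | ⟨h1, h2, h3, h4⟩
    · rw [mem_union, mem_union]
      left; left
      rw [mem_image]
      exact ⟨(a, b), mem_product.2 ⟨ha, hb⟩, by rw [h1, h2]⟩
    · rw [mem_union, mem_union]
      left; right
      rw [mem_image]
      exact ⟨(a, b), mem_product.2 ⟨ha, hb⟩, by rw [h1, h2]⟩
    · rw [mem_union]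
      right
      rw [mem_image]
      obtain ⟨b1, b2, b3, b4, b5⟩ := SS_facts H R b hb
      obtain ⟨c1, c2, c3, c4, c5⟩ := SS_facts H R c hc
      refine ⟨(a, (b.1, c.1)), ?_, ?_⟩
      · rw [mem_product, mem_product, mem_Icc, mem_Icc]
        exact ⟨ha, ⟨b1, b2⟩, ⟨c1, c2⟩⟩
      · have e1 : b = (b.1, a.2) := Prod.ext rfl h1
        have e2 : c = (c.1, a.2) := Prod.ext rfl h2
        have e3 : d = (a.1 + b.1 - c.1, a.2) := Prod.ext (by simp only; omega) h3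
        simp only
        rw [← e1, ← e2, ← e3]
  have h1 := card_le_card hsub
  have h2 := (card_union_le ((S ×ˢ S).image (fun x => (x, x)) ∪ (S ×ˢ S).image (fun x => (x, (x.2, x.1))))
        ((S ×ˢ (Icc 1 H ×ˢ Icc 1 H)).image (fun x => ((x.1, (x.2.1, x.1.2)),
          ((x.2.2, x.1.2), (x.1.1 + x.2.1 - x.2.2, x.1.2))))))
  have h3 := card_union_le ((S ×ˢ S).image (fun x => (x, x))) ((S ×ˢ S).image (fun x => (x, (x.2, x.1))))
  have h4 : ((S ×ˢ S).image (fun x => (x, x))).card ≤ S.card * S.card := by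
    refine card_image_le.trans ?_
    rw [card_product]
  have h5 : ((S ×ˢ S).image (fun x => (x, (x.2, x.1)))).card ≤ S.card * S.card := by
    refine card_image_le.trans ?_
    rw [card_product]
  have h6 : ((S ×ˢ (Icc 1 H ×ˢ Icc 1 H)).image (fun x => ((x.1, (x.2.1, x.1.2)),
          ((x.2.2, x.1.2), (x.1.1 + x.2.1 - x.2.2, x.1.2))))).card ≤ S.card * (H * H) := by
    refine card_image_le.trans ?_
    rw [card_product, card_product, Nat.card_Icc]
    simp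
  have h7 : (((S ×ˢ S) ×ˢ (S ×ˢ S)).filter (fun x => ZI x.1.1 x.1.2 x.2.1 x.2.2 = 0)).card ≤
      2 * (S.card * S.card) + S.card * (H * H) := by omega
  calc _ ≤ (((2 * (S.card * S.card) + S.card * (H * H) : ℕ)) : ℝ) := by exact_mod_cast h7
    _ = _ := by push_cast; ring

/-- the energy modulo `q` -/
def En (q H R : ℕ) : ℝ := ((((Sq q H R ×ˢ Sq q H R) ×ˢ (Sq q H R ×ˢ Sq q H R)).filter
  (fun x => fr q x.1.1 + fr q x.1.2 ≡ fr q x.2.1 + fr q x.2.2 [MOD q])).card : ℝ)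

/-- the energy on average over the moduli -/
theorem energy (H R Q : ℕ) (hQ : 0 < Q) (hHR : 2 * H ≤ R) (D : ℝ) (hD0 : 0 ≤ D)
    (hD : ∀ m : ℕ, 0 < m → m ≤ 1024 * H * R ^ 3 → (m.divisors.card : ℝ) ≤ D) :
    ∑ q ∈ Ioc Q (2 * Q), En q H R ≤
      Q * (2 * ((SS H R).card : ℝ) ^ 2 + (SS H R).card * (H : ℝ) ^ 2) + ((SS H R).card : ℝ) ^ 4 * D := by
  set S := SS H R with hS
  set X := (S ×ˢ S) ×ˢ (S ×ˢ S) with hX
  have h1 : ∀ q ∈ Ioc Q (2 * Q), En q H R ≤ ∑ x ∈ X, if (q : ℤ) ∣ ZI x.1.1 x.1.2 x.2.1 x.2.2 then (1 : ℝ) else 0 := by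
    intro q hq
    rw [mem_Ioc] at hq
    unfold En
    rw [sum_boole]
    apply Nat.cast_le.2
    apply card_le_card
    rintro ⟨⟨a, b⟩, ⟨c, d⟩⟩ hx
    rw [mem_filter, mem_product, mem_product, mem_product] at hx
    obtain ⟨⟨⟨ha, hb⟩, ⟨hc, hd⟩⟩, h0⟩ := hx
    simp only at ha hb hc hd h0
    rw [mem_filter, hX, mem_product, mem_product, mem_product]
    refine ⟨⟨⟨Sq_sub q H R ha, Sq_sub q H R hb⟩, ⟨Sq_sub q H R hc, Sq_sub q H R hd⟩⟩, ?_⟩
    unfold Sq at ha hb hc hd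
    rw [mem_product, mem_filter] at ha hb hc hd
    exact cong_dvd q (by omega) a b c d ha.2.2 hb.2.2 hc.2.2 hd.2.2 h0
  refine (sum_le_sum h1).trans ?_
  rw [sum_comm]
  have h2 : ∀ x ∈ X, ∑ q ∈ Ioc Q (2 * Q), (if (q : ℤ) ∣ ZI x.1.1 x.1.2 x.2.1 x.2.2 then (1 : ℝ) else 0) ≤
      (if ZI x.1.1 x.1.2 x.2.1 x.2.2 = 0 then (Q : ℝ) else 0) + D := by
    rintro ⟨⟨a, b⟩, ⟨c, d⟩⟩ hx
    rw [hX, mem_product, mem_product, mem_product] at hx
    obtain ⟨⟨ha, hb⟩, ⟨hc, hd⟩⟩ := hx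
    simp only at ha hb hc hd ⊢
    split_ifs with h0
    · have : ∑ q ∈ Ioc Q (2 * Q), (if (q : ℤ) ∣ ZI a b c d then (1 : ℝ) else 0) ≤ Q := by
        calc ∑ q ∈ Ioc Q (2 * Q), (if (q : ℤ) ∣ ZI a b c d then (1 : ℝ) else 0) ≤ ∑ q ∈ Ioc Q (2 * Q), 1 := by
              apply sum_le_sum
              intro q _
              split_ifs <;> norm_num
          _ = Q := by
              rw [sum_const, Nat.card_Ioc, nsmul_eq_mul, mul_one]
              congr 1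
              omega
      linarith
    · rw [zero_add, sum_boole]
      obtain ⟨a1, a2, a3, a4, a5⟩ := SS_facts H R a ha
      obtain ⟨b1, b2, b3, b4, b5⟩ := SS_facts H R b hb
      obtain ⟨c1, c2, c3, c4, c5⟩ := SS_facts H R c hc
      obtain ⟨d1, d2, d3, d4, d5⟩ := SS_facts H R d hd
      have hbound : (ZI a b c d).natAbs ≤ 1024 * H * R ^ 3 := by
        have t : ∀ x y z w : ℕ, x ≤ H → y ≤ 8 * R → z ≤ 8 * R → w ≤ 8 * R →
            x * y * z * w ≤ 512 * H * R ^ 3 := by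
          intro x y z w hx hy hz hw
          calc x * y * z * w ≤ H * (8 * R) * (8 * R) * (8 * R) := by gcongr
            _ = 512 * H * R ^ 3 := by ring
        have t1 := t a.1 b.2 c.2 d.2 a2 b4 c4 d4
        have t2 := t b.1 a.2 c.2 d.2 b2 a4 c4 d4
        have t3 := t c.1 a.2 b.2 d.2 c2 a4 b4 d4
        have t4 := t d.1 a.2 b.2 c.2 d2 a4 b4 c4
        have e : ZI a b c d = ((a.1 * b.2 * c.2 * d.2 + b.1 * a.2 * c.2 * d.2 : ℕ) : ℤ) -
            ((c.1 * a.2 * b.2 * d.2 + d.1 * a.2 * b.2 * c.2 : ℕ) : ℤ) := by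
          unfold ZI
          push_cast
          ring
        rw [e]
        have e2 : 1024 * H * R ^ 3 = 512 * H * R ^ 3 + 512 * H * R ^ 3 := by ring
        rw [e2]
        generalize 512 * H * R ^ 3 = X0 at *
        generalize a.1 * b.2 * c.2 * d.2 = X1 at *
        generalize b.1 * a.2 * c.2 * d.2 = X2 at *
        generalize c.1 * a.2 * b.2 * d.2 = X3 at *
        generalize d.1 * a.2 * b.2 * c.2 = X4 at *
        omega
      refine le_trans ?_ (hD (ZI a b c d).natAbs (Int.natAbs_pos.2 h0) hbound)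
      apply Nat.cast_le.2
      apply card_le_card
      intro q hq
      rw [mem_filter] at hq
      rw [Nat.mem_divisors]
      exact ⟨Int.natCast_dvd.1 hq.2, (Int.natAbs_pos.2 h0).ne'⟩
  refine (sum_le_sum h2).trans ?_
  rw [sum_add_distrib, sum_const, nsmul_eq_mul, ← sum_filter, sum_const, nsmul_eq_mul]
  have h3 := zero_count H R hHR
  have h4 : (X.card : ℝ) = ((SS H R).card : ℝ) ^ 4 := by
    rw [hX, card_product, card_product]
    push_cast
    ring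
  rw [h4]
  have h5 : (0 : ℝ) ≤ Q := by positivity
  have h6 := mul_le_mul_of_nonneg_right h3 h5
  linarith

end

end Pool.Agent.H52.LO
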