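import Mathlib
import Pool.Agent.H52.LO.A3
import Pool.Agent.H52.LB7
import Pool.Agent.H52.EH2

/-!
The part of the primes with large denominators, on average over the moduli.
-/

set_option autoImplicit false

open Finset

namespace Pool.Agent.H52.LO

open Pool.Agent.H52

noncomputable section

/-- the number of primes in a class, as a complex number -/
def Zc (N q : ℕ) (b : ℕ) : ℂ := ((pc N q b : ℝ) : ℂ)

lemma Zc_sum (N q : ℕ) (hq : 0 < q) (w : ℕ → ℂ) (hw : ∀ n, w (n % q) = w n) :
    ∑ b ∈ range q, Zc N q b * w b = ∑ p ∈ Pr N, w p := by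
  have h1 : ∀ b ∈ range q, Zc N q b * w b = ∑ p ∈ Pr N, if p % q = b then w p else 0 := by
    intro b _
    unfold Zc pc Pr
    rw [← sum_filter, filter_filter]
    have h2 : ∀ p ∈ (Icc 1 N).filter (fun p => Nat.Prime p ∧ p % q = b), w p = w b := by
      intro p hp
      rw [mem_filter] at hp
      rw [← hw p, hp.2.2]
    rw [sum_congr rfl h2, sum_const, nsmul_eq_mul]
    push_cast
    ring
  rw [sum_congr rfl h1, sum_comm]
  apply sum_congr rfl
  intro p _
  rw [sum_ite_eq, if_pos]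
  rw [mem_range]
  exact Nat.mod_lt _ hq

lemma ee_mod (q : ℕ) (hq : 0 < q) (h n : ℕ) : ee ((h : ℝ) * ((n % q : ℕ) : ℝ) / q) = ee ((h : ℝ) * n / q) := by
  have h1 : (n : ℝ) = ((n % q : ℕ) : ℝ) + q * ((n / q : ℕ) : ℝ) := by
    have := Nat.mod_add_div n q
    exact_mod_cast this.symm
  have hqR : (q : ℝ) ≠ 0 := by positivity
  have h2 : (h : ℝ) * n / q = (h : ℝ) * ((n % q : ℕ) : ℝ) / q + (((h * (n / q) : ℕ) : ℤ) : ℝ) := by
    rw [Int.cast_natCast, Nat.cast_mul]
    generalize ((n / q : ℕ) : ℝ) = X at *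
    rw [h1]
    field_simp
  rw [h2, ls_ee_add, ls_ee_int, mul_one]

lemma hat_Zc (N q h : ℕ) (hq : 0 < q) :
    hat q (Zc N q) h = ∑ p ∈ Pr N, ee (-((h : ℝ) * p / q)) := by
  unfold hat
  apply Zc_sum N q hq
  intro n
  rw [← ls_conj_ee, ← ls_conj_ee, ee_mod q hq]

/-- the mean square of the exponential sum at the fractions with denominator `φ` -/
def AA (N φ : ℕ) : ℝ := ∑ c ∈ (range φ).filter (fun c => c.Coprime φ), ‖∑ p ∈ Pr N, ee ((p : ℝ) * c / φ)‖ ^ 2

lemma AA_nonneg (N φ : ℕ) : 0 ≤ AA N φ := sum_nonneg fun _ _ => by positivity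

lemma AA_sieve (N F : ℕ) : ∑ φ ∈ Icc 1 F, AA N φ ≤ 6 * (N + (F : ℝ) ^ 2) * (Pr N).card := by
  have h := additive_large_sieve N F (fun n => if n.Prime then 1 else 0)
  have h1 : ∑ n ∈ Icc 1 N, ‖(if n.Prime then (1 : ℂ) else 0)‖ ^ 2 = (Pr N).card := by
    unfold Pr
    rw [← sum_boole]
    apply sum_congr rfl
    intro n _
    split_ifs <;> simp
  rw [h1] at h
  refine le_trans (le_of_eq ?_) h
  apply sum_congr rfl
  intro φ _
  unfold AA
  apply sum_congr rfl
  intro c _
  congr 2
  unfold Pr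
  rw [sum_filter]
  apply sum_congr rfl
  intro n _
  split_ifs <;> simp

lemma high_Zc (N q R0 : ℕ) (hq : 0 < q) :
    ∑ b ∈ range q, ‖high q R0 (Zc N q) b‖ ^ 2 =
      (1 / (q : ℝ)) * ∑ φ ∈ q.divisors.filter (fun φ => R0 < φ), AA N φ := by
  rw [pars_high q R0 hq]
  congr 1
  unfold highT
  rw [sum_filter, group q hq, sum_filter]
  apply sum_congr rfl
  intro φ hφ
  have hφ' := hφ
  rw [Nat.mem_divisors] at hφ'
  have hφ0 : 0 < φ := Nat.pos_of_dvd_of_pos hφ'.1 hq
  obtain ⟨e, he⟩ := hφ'.1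
  have he0 : (e : ℝ) ≠ 0 := by
    intro h0
    have : e = 0 := by exact_mod_cast h0
    subst this
    simp at he
    omega
  have hφR : (φ : ℝ) ≠ 0 := by positivity
  split_ifs with h
  · unfold AA
    apply sum_congr rfl
    intro c hc
    rw [mem_filter] at hc
    rw [den_group q φ c hφ hc.2 hφ0, if_pos (by omega), hat_Zc N q _ hq]
    have h1 : ∑ p ∈ Pr N, ee (-(((c * (q / φ) : ℕ) : ℝ) * p / q)) =
        (starRingEnd ℂ) (∑ p ∈ Pr N, ee ((p : ℝ) * c / φ)) := by
      rw [map_sum]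
      apply sum_congr rfl
      intro p _
      rw [ls_conj_ee]
      congr 1
      have h2 : q / φ = e := by rw [he]; exact Nat.mul_div_cancel_left e hφ0
      rw [h2, he]
      push_cast
      field_simp
    rw [h1, RCLike.norm_conj]
  · apply sum_eq_zero
    intro c hc
    rw [mem_filter] at hc
    rw [den_group q φ c hφ hc.2 hφ0, if_neg (by omega)]

/-- the high part of the primes on average over `q` -/
theorem high_avg (N Q R0 L : ℕ) (hQ : 0 < Q) (hR0 : 0 < R0) (hL : 2 * Q < 2 ^ L * R0) :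
    ∑ q ∈ Ioc Q (2 * Q), ∑ b ∈ range q, ‖high q R0 (Zc N q) b‖ ^ 2 ≤
      12 * L * ((N : ℝ) / R0 + 8 * Q) * (Pr N).card := by
  have hQR : (0 : ℝ) < Q := by exact_mod_cast hQ
  have hR0R : (0 : ℝ) < R0 := by exact_mod_cast hR0
  have h1 : ∀ q ∈ Ioc Q (2 * Q), ∑ b ∈ range q, ‖high q R0 (Zc N q) b‖ ^ 2 ≤
      ∑ φ ∈ Ioc R0 (2 * Q), if φ ∣ q then (1 / (Q : ℝ)) * AA N φ else 0 := by
    intro q hq
    rw [mem_Ioc] at hq
    rw [high_Zc N q R0 (by omega), mul_sum, ← sum_filter]
    have hsub : q.divisors.filter (fun φ => R0 < φ) ⊆ (Ioc R0 (2 * Q)).filter (fun φ => φ ∣ q) := by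
      intro φ hφ
      rw [mem_filter, Nat.mem_divisors] at hφ
      rw [mem_filter, mem_Ioc]
      exact ⟨⟨hφ.2, (Nat.le_of_dvd (by omega) hφ.1.1).trans hq.2⟩, hφ.1.1⟩
    refine le_trans (sum_le_sum (fun φ _ => ?_)) (sum_le_sum_of_subset_of_nonneg hsub ?_)
    · apply mul_le_mul_of_nonneg_right _ (AA_nonneg N φ)
      apply one_div_le_one_div_of_le hQR
      exact_mod_cast hq.1.le
    · intro φ _ _
      have := AA_nonneg N φ
      positivity
  refine (sum_le_sum h1).trans ?_
  rw [sum_comm]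
  have h2 : ∀ φ ∈ Ioc R0 (2 * Q), ∑ q ∈ Ioc Q (2 * Q), (if φ ∣ q then (1 / (Q : ℝ)) * AA N φ else 0) ≤
      (2 / φ) * AA N φ := by
    intro φ hφ
    rw [mem_Ioc] at hφ
    have hφ0 : (0 : ℝ) < φ := by
      have : 0 < φ := by omega
      exact_mod_cast this
    rw [← sum_filter, sum_const, nsmul_eq_mul]
    have h3 : ((Ioc Q (2 * Q)).filter (fun q => φ ∣ q)).card ≤ 2 * Q / φ := by
      have h4 : (Ioc Q (2 * Q)).filter (fun q => φ ∣ q) ⊆ (Ioc 0 (2 * Q)).filter (fun q => φ ∣ q) := by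
        intro q hq
        rw [mem_filter, mem_Ioc] at *
        exact ⟨⟨by omega, hq.1.2⟩, hq.2⟩
      refine (card_le_card h4).trans (le_of_eq ?_)
      exact Nat.Ioc_filter_dvd_card_eq_div (2 * Q) φ
    have h5 : (((Ioc Q (2 * Q)).filter (fun q => φ ∣ q)).card : ℝ) ≤ 2 * Q / φ := by
      calc (((Ioc Q (2 * Q)).filter (fun q => φ ∣ q)).card : ℝ) ≤ ((2 * Q / φ : ℕ) : ℝ) := by exact_mod_cast h3
        _ ≤ ((2 * Q : ℕ) : ℝ) / φ := Nat.cast_div_le
        _ = _ := by push_cast; ring
    have h6 := AA_nonneg N φ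
    calc (((Ioc Q (2 * Q)).filter (fun q => φ ∣ q)).card : ℝ) * (1 / Q * AA N φ) ≤
          (2 * Q / φ) * (1 / Q * AA N φ) := by
          apply mul_le_mul_of_nonneg_right h5 (by positivity)
      _ = _ := by field_simp
  refine (sum_le_sum h2).trans ?_
  rw [dyad R0 (2 * Q) L hL]
  have h3 : ∀ i ∈ range L, ∑ φ ∈ Ioc (2 ^ i * R0) (min (2 ^ (i + 1) * R0) (2 * Q)), (2 / (φ : ℝ)) * AA N φ ≤
      12 * ((N : ℝ) / R0 + 8 * Q) * (Pr N).card := by
    intro i _
    set F := 2 ^ i * R0 with hF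
    have hF1 : R0 ≤ F := Nat.le_mul_of_pos_left R0 (by positivity)
    have hFR : (0 : ℝ) < F := by
      have : 0 < F := by omega
      exact_mod_cast this
    have h2F : 2 ^ (i + 1) * R0 = 2 * F := by rw [hF]; ring
    rw [h2F]
    rcases le_or_gt F (2 * Q) with hFQ | hFQ
    · calc ∑ φ ∈ Ioc F (min (2 * F) (2 * Q)), (2 / (φ : ℝ)) * AA N φ ≤
            ∑ φ ∈ Icc 1 (2 * F), (2 / (F : ℝ)) * AA N φ := by
            refine le_trans (sum_le_sum (g := fun φ : ℕ => (2 / (F : ℝ)) * AA N φ) ?_) ?_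
            · intro φ hφ
              rw [mem_Ioc] at hφ
              apply mul_le_mul_of_nonneg_right _ (AA_nonneg N φ)
              apply div_le_div_of_nonneg_left (by norm_num) hFR
              exact_mod_cast hφ.1.le
            · apply sum_le_sum_of_subset_of_nonneg
              · intro φ hφ
                rw [mem_Ioc] at hφ
                rw [mem_Icc]
                omega
              · intro φ _ _
                have := AA_nonneg N φ
                positivity
        _ = (2 / (F : ℝ)) * ∑ φ ∈ Icc 1 (2 * F), AA N φ := (mul_sum _ _ _).symm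
        _ ≤ (2 / (F : ℝ)) * (6 * (N + ((2 * F : ℕ) : ℝ) ^ 2) * (Pr N).card) := by
            apply mul_le_mul_of_nonneg_left (AA_sieve N (2 * F)) (by positivity)
        _ = 12 * (N / F + 4 * F) * (Pr N).card := by
            push_cast
            field_simp
            ring
        _ ≤ _ := by
            apply mul_le_mul_of_nonneg_right _ (by positivity)
            apply mul_le_mul_of_nonneg_left _ (by norm_num)
            apply add_le_add
            · apply div_le_div_of_nonneg_left (by positivity) hR0R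
              exact_mod_cast hF1
            · have : (F : ℝ) ≤ 2 * Q := by exact_mod_cast hFQ
              linarith
    · rw [Ioc_eq_empty (by omega), sum_empty]
      positivity
  refine (sum_le_sum h3).trans (le_of_eq ?_)
  rw [sum_const, card_range, nsmul_eq_mul]
  ring

/-- the indicator function of the reduced classes -/
def gc (q : ℕ) (b : ℕ) : ℂ := if b.Coprime q then 1 else 0

lemma hat_gc (q h : ℕ) (hq : 0 < q) : ‖hat q (gc q) h‖ ≤ q.divisors.card * Nat.gcd q h := by
  have h1 : hat q (gc q) h = (starRingEnd ℂ) ((cr q h : ℝ) : ℂ) := by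
    rw [← cr_eq q h hq, map_sum]
    unfold hat gc
    rw [sum_filter]
    apply sum_congr rfl
    intro b _
    split_ifs
    · rw [one_mul, ls_conj_ee]
    · rw [zero_mul]
  rw [h1, RCLike.norm_conj, Complex.norm_real, Real.norm_eq_abs]
  refine (abs_cr_le q h).trans ?_
  calc ∑ d ∈ q.divisors, (if d ∣ h then (d : ℝ) else 0) ≤ ∑ d ∈ q.divisors, (Nat.gcd q h : ℝ) := by
        apply sum_le_sum
        intro d hd
        rw [Nat.mem_divisors] at hd
        split_ifs with h2
        · exact_mod_cast Nat.le_of_dvd (Nat.gcd_pos_of_pos_left _ hq) (Nat.dvd_gcd hd.1 h2)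
        · positivity
    _ = _ := by rw [sum_const, nsmul_eq_mul]

lemma high_gc (q R0 : ℕ) (hq : 0 < q) (hR0 : 0 < R0) :
    ∑ b ∈ range q, ‖high q R0 (gc q) b‖ ^ 2 ≤ q * (q.divisors.card : ℝ) ^ 3 / R0 := by
  have hR0R : (0 : ℝ) < R0 := by exact_mod_cast hR0
  have hqR : (0 : ℝ) < q := by exact_mod_cast hq
  rw [pars_high q R0 hq]
  unfold highT
  rw [sum_filter, group q hq]
  have h1 : ∀ φ ∈ q.divisors, ∑ c ∈ (range φ).filter (fun c => c.Coprime φ),
      (if ¬ (q / Nat.gcd q (c * (q / φ)) ≤ R0) then ‖hat q (gc q) (c * (q / φ))‖ ^ 2 else 0) ≤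
      (q.divisors.card : ℝ) ^ 2 * q ^ 2 / R0 := by
    intro φ hφ
    have hφ' := hφ
    rw [Nat.mem_divisors] at hφ'
    have hφ0 : 0 < φ := Nat.pos_of_dvd_of_pos hφ'.1 hq
    have hφR : (0 : ℝ) < φ := by exact_mod_cast hφ0
    obtain ⟨e, he⟩ := hφ'.1
    have he0 : 0 < e := by
      rcases Nat.eq_zero_or_pos e with h | h
      · subst h; simp at he; omega
      · exact h
    have hqe : q / φ = e := by rw [he]; exact Nat.mul_div_cancel_left e hφ0
    by_cases hφR0 : R0 < φ
    · calc ∑ c ∈ (range φ).filter (fun c => c.Coprime φ),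
            (if ¬ (q / Nat.gcd q (c * (q / φ)) ≤ R0) then ‖hat q (gc q) (c * (q / φ))‖ ^ 2 else 0) ≤
            ∑ c ∈ (range φ).filter (fun c => c.Coprime φ), ((q.divisors.card : ℝ) * (q / φ)) ^ 2 := by
            apply sum_le_sum
            intro c hc
            rw [mem_filter] at hc
            split_ifs
            · positivity
            · apply pow_le_pow_left₀ (norm_nonneg _)
              refine (hat_gc q _ hq).trans (le_of_eq ?_)
              congr 1
              have h4 : Nat.gcd q (c * (q / φ)) = e := by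
                rw [hqe, he, Nat.gcd_mul_right, Nat.Coprime.gcd_eq_one hc.2.symm, one_mul]
              rw [h4, he]
              push_cast
              field_simp
        _ ≤ φ * ((q.divisors.card : ℝ) * (q / φ)) ^ 2 := by
            rw [sum_const, nsmul_eq_mul]
            apply mul_le_mul_of_nonneg_right _ (by positivity)
            have := card_filter_le (range φ) (fun c => c.Coprime φ)
            rw [card_range] at this
            exact_mod_cast this
        _ = (q.divisors.card : ℝ) ^ 2 * q ^ 2 / φ := by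
            field_simp
        _ ≤ _ := by
            apply div_le_div_of_nonneg_left (by positivity) hR0R
            exact_mod_cast hφR0.le
    · rw [sum_eq_zero]
      · positivity
      · intro c hc
        rw [mem_filter] at hc
        rw [den_group q φ c hφ hc.2 hφ0, if_neg (by omega)]
  calc (1 / (q : ℝ)) * ∑ φ ∈ q.divisors, ∑ c ∈ (range φ).filter (fun c => c.Coprime φ),
      (if ¬ (q / Nat.gcd q (c * (q / φ)) ≤ R0) then ‖hat q (gc q) (c * (q / φ))‖ ^ 2 else 0) ≤
        (1 / (q : ℝ)) * ∑ φ ∈ q.divisors, (q.divisors.card : ℝ) ^ 2 * q ^ 2 / R0 := by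
        apply mul_le_mul_of_nonneg_left (sum_le_sum h1) (by positivity)
    _ = _ := by
        rw [sum_const, nsmul_eq_mul]
        field_simp

lemma low_sub (q R0 : ℕ) (f g : ℕ → ℂ) (c : ℂ) (b : ℕ) :
    low q R0 (fun b => f b - c * g b) b = low q R0 f b - c * low q R0 g b := by
  unfold low
  rw [mul_sum, ← sum_sub_distrib]
  apply sum_congr rfl
  intro b' _
  ring

/-- the high part of the discrepancy -/
lemma high_disc (N q R0 : ℕ) (hq : 0 < q) (hR0 : 0 < R0) (c : ℝ) :
    ∑ b ∈ range q, ‖high q R0 (fun b => Zc N q b - (c : ℂ) * gc q b) b‖ ^ 2 ≤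
      2 * ∑ b ∈ range q, ‖high q R0 (Zc N q) b‖ ^ 2 + 2 * c ^ 2 * (q * (q.divisors.card : ℝ) ^ 3 / R0) := by
  have h1 : ∀ b ∈ range q, ‖high q R0 (fun b => Zc N q b - (c : ℂ) * gc q b) b‖ ^ 2 ≤
      2 * ‖high q R0 (Zc N q) b‖ ^ 2 + 2 * c ^ 2 * ‖high q R0 (gc q) b‖ ^ 2 := by
    intro b _
    have h2 : high q R0 (fun b => Zc N q b - (c : ℂ) * gc q b) b =
        high q R0 (Zc N q) b - (c : ℂ) * high q R0 (gc q) b := by
      unfold high
      rw [low_sub]
      ring
    rw [h2]
    have h3 := norm_sub_le (high q R0 (Zc N q) b) ((c : ℂ) * high q R0 (gc q) b)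
    rw [norm_mul, Complex.norm_real, Real.norm_eq_abs] at h3
    have h4 := pow_le_pow_left₀ (norm_nonneg _) h3 2
    have h5 : |c| ^ 2 = c ^ 2 := sq_abs c
    nlinarith [sq_nonneg (‖high q R0 (Zc N q) b‖ - |c| * ‖high q R0 (gc q) b‖)]
  refine (sum_le_sum h1).trans ?_
  rw [sum_add_distrib, ← mul_sum, ← mul_sum]
  have := high_gc q R0 hq hR0
  gcongr

end

end Pool.Agent.H52.LO
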