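import Mathlib
import Pool.Agent.H52.LO.A4
import Pool.Agent.H52.EH4

/-!
The correlation of the primes with the test function.
-/

set_option autoImplicit false

open Finset

namespace Pool.Agent.H52.LO

open Pool.Agent.H52

noncomputable section

open Classical

/-- reciprocity -/
lemma recip (q r h p : ℕ) (hq : 1 < q) (hr : 1 < r) (hc : r.Coprime q) :
    ee (((h * iv q r : ℕ) : ℝ) * p / q) =
      ee (-(((h * iv r q : ℕ) : ℝ) * p / r)) * ee (((h : ℝ) / (q * r)) * p) := by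
  have e1 := iv_spec q r hq hc
  have e2 := iv_spec r q hr hc.symm
  have hqR : (q : ℝ) ≠ 0 := by positivity
  have hrR : (r : ℝ) ≠ 0 := by positivity
  have h1 : (q : ℤ) ∣ ((r : ℤ) * iv q r + q * iv r q - 1) := by
    rw [← ZMod.intCast_zmod_eq_zero_iff_dvd]
    push_cast
    rw [e1]
    simp
  have h2 : (r : ℤ) ∣ ((r : ℤ) * iv q r + q * iv r q - 1) := by
    rw [← ZMod.intCast_zmod_eq_zero_iff_dvd]
    push_cast
    rw [e2]
    simp
  have h3 : IsCoprime (q : ℤ) (r : ℤ) := Nat.isCoprime_iff_coprime.2 hc.symm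
  obtain ⟨k, hk⟩ := h3.mul_dvd h1 h2
  have h4 : (r : ℝ) * iv q r + q * iv r q - 1 = q * r * k := by exact_mod_cast hk
  have h5 : ((h * iv q r : ℕ) : ℝ) * p / q =
      (-(((h * iv r q : ℕ) : ℝ) * p / r) + ((h : ℝ) / (q * r)) * p) + (((h * p * k : ℤ)) : ℝ) := by
    push_cast
    field_simp
    linear_combination (h : ℝ) * p * h4
  rw [h5, ls_ee_add, ls_ee_int, mul_one, ls_ee_add]

/-- Gauss sums -/
def GG' (r : ℕ) [NeZero r] (m : ℕ) (χ : DirichletCharacter ℂ r) : ℂ :=
  ∑ v : ZMod r, χ⁻¹ v * ZMod.stdAddChar (-(m : ZMod r) * v)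

lemma GG_prim (r : ℕ) [NeZero r] (m : ℕ) (χ : DirichletCharacter ℂ r) (hχ : χ.IsPrimitive) :
    ‖GG' r m χ‖ ≤ Real.sqrt r := by
  have hinv : (χ⁻¹).IsPrimitive := by
    rw [DirichletCharacter.isPrimitive_def, DirichletCharacter.conductor_inv]
    exact hχ
  have h := gaussSum_mulShift_of_isPrimitive (ZMod.stdAddChar : AddChar (ZMod r) ℂ) hinv (-(m : ZMod r))
  have h2 : GG' r m χ = (χ⁻¹)⁻¹ (-(m : ZMod r)) * gaussSum χ⁻¹ (ZMod.stdAddChar : AddChar (ZMod r) ℂ) := by
    rw [← h]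
    rfl
  rw [h2, norm_mul]
  have hgn : ‖gaussSum χ⁻¹ (ZMod.stdAddChar : AddChar (ZMod r) ℂ)‖ = Real.sqrt r := by
    rw [← MLS.norm_gauss r hinv, Real.sqrt_sq (norm_nonneg _)]
  rw [hgn]
  calc _ ≤ 1 * Real.sqrt r := by
        apply mul_le_mul_of_nonneg_right (DirichletCharacter.norm_le_one _ _) (Real.sqrt_nonneg _)
    _ = _ := one_mul _

lemma GG_one (r : ℕ) (hr : r.Prime) [NeZero r] (m : ℕ) (hm : ¬ r ∣ m) : GG' r m 1 = -1 := by
  have : Fact r.Prime := ⟨hr⟩
  unfold GG'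
  have h1 : ∀ v : ZMod r, (1 : DirichletCharacter ℂ r)⁻¹ v * ZMod.stdAddChar (-(m : ZMod r) * v) =
      ZMod.stdAddChar (v * (-(m : ZMod r))) - (if v = 0 then 1 else 0) := by
    intro v
    rw [inv_one]
    split_ifs with hv
    · subst hv
      rw [MulChar.map_zero]
      simp
    · rw [MulChar.one_apply (isUnit_iff_ne_zero.2 hv), one_mul, sub_zero, mul_comm]
  rw [sum_congr rfl (fun v _ => h1 v), sum_sub_distrib,
    AddChar.sum_mulShift (-(m : ZMod r)) (ZMod.isPrimitive_stdAddChar r)]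
  have h2 : (-(m : ZMod r)) ≠ 0 := by
    rw [neg_ne_zero]
    intro h
    exact hm ((ZMod.natCast_eq_zero_iff m r).1 h)
  simp [h2]

/-- expansion in characters -/
lemma expand (r : ℕ) [NeZero r] (m p : ℕ) (hp : p.Coprime r) :
    ee (-((m : ℝ) * p / r)) = (1 / (Nat.totient r : ℂ)) *
      ∑ χ : DirichletCharacter ℂ r, χ (p : ZMod r) * GG' r m χ := by
  have h0 : (Nat.totient r : ℂ) ≠ 0 := by
    have := Nat.totient_pos.mpr (NeZero.pos r)
    exact_mod_cast this.ne'
  have hu : IsUnit ((p : ZMod r)) := (ZMod.isUnit_iff_coprime p r).2 hp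
  have h1 : ∑ χ : DirichletCharacter ℂ r, χ (p : ZMod r) * GG' r m χ =
      (Nat.totient r : ℂ) * ZMod.stdAddChar (-(m : ZMod r) * (p : ZMod r)) := by
    unfold GG'
    simp_rw [mul_sum]
    rw [sum_comm]
    have h2 : ∀ v : ZMod r, ∑ χ : DirichletCharacter ℂ r, χ (p : ZMod r) *
        (χ⁻¹ v * ZMod.stdAddChar (-(m : ZMod r) * v)) =
        if v = (p : ZMod r) then (Nat.totient r : ℂ) * ZMod.stdAddChar (-(m : ZMod r) * (p : ZMod r)) else 0 := by
      intro v
      by_cases hv : IsUnit v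
      · have h3 := DirichletCharacter.sum_char_inv_mul_char_eq ℂ hv (p : ZMod r)
        have h4 : ∀ χ : DirichletCharacter ℂ r, χ (p : ZMod r) *
            (χ⁻¹ v * ZMod.stdAddChar (-(m : ZMod r) * v)) =
            (χ v⁻¹ * χ (p : ZMod r)) * ZMod.stdAddChar (-(m : ZMod r) * v) := by
          intro χ
          obtain ⟨w, rfl⟩ := hv
          have h5 : χ⁻¹ (w : ZMod r) = χ ((w : ZMod r)⁻¹) := by
            rw [MulChar.inv_apply, ZMod.inv_coe_unit, Ring.inverse_unit]
          rw [h5]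
          ring
        rw [sum_congr rfl (fun χ _ => h4 χ), ← sum_mul, h3]
        split_ifs with h6
        · rw [h6]
        · rw [zero_mul]
      · have h7 : v ≠ (p : ZMod r) := by
          rintro rfl
          exact hv hu
        rw [if_neg h7]
        apply sum_eq_zero
        intro χ _
        rw [MulChar.map_nonunit _ hv]
        ring
    rw [sum_congr rfl (fun v _ => h2 v), sum_ite_eq']
    simp
  rw [h1]
  have h3 : (-(m : ZMod r) * (p : ZMod r)) = ((-((m : ℤ) * p) : ℤ) : ZMod r) := by push_cast; ring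
  rw [h3, ZMod.stdAddChar_coe, one_div, inv_mul_cancel_left₀ h0]
  unfold ee
  congr 1
  push_cast
  ring

lemma ee_step (β : ℝ) (hβ : 0 ≤ β) (n : ℕ) : ‖ee (β * n) - ee (β * ((n + 1 : ℕ) : ℝ))‖ ≤ 2 * Real.pi * β := by
  have h1 : ee (β * n) - ee (β * ((n + 1 : ℕ) : ℝ)) = - (ee (β * n) * (ee β - 1)) := by
    have : β * ((n + 1 : ℕ) : ℝ) = β * n + β := by push_cast; ring
    rw [this, ls_ee_add]
    ring
  rw [h1, norm_neg, norm_mul, ls_norm_ee, one_mul, ls_norm_ee_sub_one, abs_mul]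
  have h2 : |Real.sin (Real.pi * β)| ≤ |Real.pi * β| := Real.abs_sin_le_abs
  rw [abs_of_nonneg (by positivity : (0 : ℝ) ≤ Real.pi * β)] at h2
  rw [abs_of_pos (by norm_num : (0 : ℝ) < 2)]
  linarith

/-- partial summation -/
lemma abel_ee (r : ℕ) (χ : DirichletCharacter ℂ r) (β : ℝ) (hβ : 0 ≤ β) (N : ℕ) :
    ‖∑ p ∈ Pr N, χ (p : ZMod r) * ee (β * p) - PS N r χ * ee (β * N)‖ ≤
      2 * Real.pi * β * ∑ y ∈ range N, ‖PS y r χ‖ := by
  induction N with
  | zero =>
    unfold PS Pr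
    simp
  | succ n ih =>
    have hstep : ∀ g : ℕ → ℂ, ∑ p ∈ Pr (n + 1), g p = ∑ p ∈ Pr n, g p + (if (n + 1).Prime then g (n + 1) else 0) := by
      intro g
      unfold Pr
      rw [sum_filter, sum_filter, sum_Icc_succ_top (by omega)]
    have h1 : ∑ p ∈ Pr (n + 1), χ (p : ZMod r) * ee (β * p) - PS (n + 1) r χ * ee (β * ((n + 1 : ℕ) : ℝ)) =
        (∑ p ∈ Pr n, χ (p : ZMod r) * ee (β * p) - PS n r χ * ee (β * n)) +
          PS n r χ * (ee (β * n) - ee (β * ((n + 1 : ℕ) : ℝ))) := by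
      unfold PS
      rw [hstep (fun p => χ (p : ZMod r) * ee (β * p)), hstep (fun p => χ (p : ZMod r))]
      split_ifs <;> ring
    rw [h1, sum_range_succ]
    refine (norm_add_le _ _).trans ?_
    rw [norm_mul, mul_add]
    apply add_le_add ih
    rw [mul_comm]
    exact mul_le_mul_of_nonneg_right (ee_step β hβ n) (norm_nonneg _)

lemma re_ee (t : ℝ) (h0 : 0 ≤ t) (h1 : t ≤ 1 / 8) : 1 / 2 ≤ (ee t).re := by
  unfold ee
  have h2 : (2 * (Real.pi : ℂ) * (t : ℂ) * Complex.I) = ((2 * Real.pi * t : ℝ) : ℂ) * Complex.I := by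
    push_cast
    ring
  rw [h2, Complex.exp_ofReal_mul_I_re]
  have h3 : Real.cos (Real.pi / 3) ≤ Real.cos (2 * Real.pi * t) := by
    apply Real.cos_le_cos_of_nonneg_of_le_pi
    · positivity
    · have := Real.pi_pos
      linarith
    · have := Real.pi_pos
      nlinarith
  rw [Real.cos_pi_div_three] at h3
  exact h3

/-- one modulus `r` and one `h` -/
lemma one_term (N r m : ℕ) (hr : r.Prime) (hm : ¬ r ∣ m) (β : ℝ) (hβ : 0 ≤ β) (hβN : β * N ≤ 1 / 8) :
    (∑ p ∈ Pr N, ee (-((m : ℝ) * p / r)) * ee (β * p)).re ≤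
      - (1 / (r : ℝ)) * ((((Pr N).card : ℝ) - 1) / 2) + 1 +
        Real.sqrt r * (Mn r (fun ψ => ‖PS N r ψ‖) + 2 * Real.pi * β * ∑ y ∈ range N, Mn r (fun ψ => ‖PS y r ψ‖)) := by
  have : NeZero r := ⟨hr.ne_zero⟩
  have : Fact r.Prime := ⟨hr⟩
  have hφ : Nat.totient r = r - 1 := Nat.totient_prime hr
  have hr2 : 2 ≤ r := hr.two_le
  have hφR : (0 : ℝ) < Nat.totient r := by exact_mod_cast Nat.totient_pos.2 hr.pos
  have hφC : (Nat.totient r : ℂ) ≠ 0 := by
    have := Nat.totient_pos.2 hr.pos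
    exact_mod_cast this.ne'
  set P1 := (Pr N).filter (fun p => p.Coprime r) with hP1
  set P0 := (Pr N).filter (fun p => ¬ p.Coprime r) with hP0
  have hsplit : ∑ p ∈ Pr N, ee (-((m : ℝ) * p / r)) * ee (β * p) =
      ∑ p ∈ P1, ee (-((m : ℝ) * p / r)) * ee (β * p) + ∑ p ∈ P0, ee (-((m : ℝ) * p / r)) * ee (β * p) :=
    (sum_filter_add_sum_filter_not _ _ _).symm
  have hP0c : P0.card ≤ 1 := by
    rw [card_le_one]
    intro a ha b hb
    have key : ∀ a ∈ P0, a = r := by
      intro a ha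
      rw [hP0, mem_filter] at ha
      unfold Pr at ha
      rw [mem_filter] at ha
      by_contra hne
      exact ha.2 ((Nat.coprime_primes ha.1.2 hr).2 hne)
    rw [key a ha, key b hb]
  have hP0n : ‖∑ p ∈ P0, ee (-((m : ℝ) * p / r)) * ee (β * p)‖ ≤ 1 := by
    refine (norm_sum_le _ _).trans ?_
    calc ∑ p ∈ P0, ‖ee (-((m : ℝ) * p / r)) * ee (β * p)‖ = ∑ p ∈ P0, (1 : ℝ) := by
          apply sum_congr rfl
          intro p _
          rw [norm_mul, ls_norm_ee, ls_norm_ee, one_mul]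
      _ = P0.card := by rw [sum_const, nsmul_eq_mul, mul_one]
      _ ≤ 1 := by exact_mod_cast hP0c
  -- the characters
  have hexp : ∑ p ∈ P1, ee (-((m : ℝ) * p / r)) * ee (β * p) =
      (1 / (Nat.totient r : ℂ)) * ∑ χ : DirichletCharacter ℂ r, GG' r m χ *
        ∑ p ∈ Pr N, χ (p : ZMod r) * ee (β * p) := by
    have h1 : ∀ p ∈ P1, ee (-((m : ℝ) * p / r)) * ee (β * p) =
        ∑ χ : DirichletCharacter ℂ r, (1 / (Nat.totient r : ℂ)) * (GG' r m χ * (χ (p : ZMod r) * ee (β * p))) := by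
      intro p hp
      rw [hP1, mem_filter] at hp
      rw [expand r m p hp.2, mul_assoc, sum_mul, mul_sum]
      apply sum_congr rfl
      intro χ _
      ring
    rw [sum_congr rfl h1, sum_comm, mul_sum]
    apply sum_congr rfl
    intro χ _
    rw [← mul_sum, ← mul_sum]
    congr 2
    rw [hP1, sum_filter]
    apply sum_congr rfl
    intro p _
    split_ifs with h
    · rfl
    · have : ¬ IsUnit (p : ZMod r) := by
        rw [ZMod.isUnit_iff_coprime]
        exact h
      rw [MulChar.map_nonunit _ this, zero_mul]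
  have hone : ∑ p ∈ Pr N, (1 : DirichletCharacter ℂ r) (p : ZMod r) * ee (β * p) = ∑ p ∈ P1, ee (β * p) := by
    rw [hP1, sum_filter]
    apply sum_congr rfl
    intro p _
    split_ifs with h
    · have : IsUnit (p : ZMod r) := (ZMod.isUnit_iff_coprime p r).2 h
      rw [MulChar.one_apply this, one_mul]
    · have : ¬ IsUnit (p : ZMod r) := by
        rw [ZMod.isUnit_iff_coprime]
        exact h
      rw [MulChar.map_nonunit _ this, zero_mul]
  set Rest : ℂ := (1 / (Nat.totient r : ℂ)) * ∑ χ ∈ (univ : Finset (DirichletCharacter ℂ r)).erase 1, GG' r m χ *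
        ∑ p ∈ Pr N, χ (p : ZMod r) * ee (β * p) with hRest
  have hmain : ∑ p ∈ P1, ee (-((m : ℝ) * p / r)) * ee (β * p) =
      -(1 / (Nat.totient r : ℂ)) * ∑ p ∈ P1, ee (β * p) + Rest := by
    rw [hexp, ← add_sum_erase univ _ (mem_univ (1 : DirichletCharacter ℂ r)), GG_one r hr m hm, hone, hRest]
    ring
  have hRestn : ‖Rest‖ ≤ Real.sqrt r * (Mn r (fun ψ => ‖PS N r ψ‖) +
      2 * Real.pi * β * ∑ y ∈ range N, Mn r (fun ψ => ‖PS y r ψ‖)) := by
    rw [hRest, norm_mul, norm_div, norm_one, Complex.norm_natCast]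
    have h1 : ∀ χ ∈ (univ : Finset (DirichletCharacter ℂ r)).erase 1,
        ‖GG' r m χ * ∑ p ∈ Pr N, χ (p : ZMod r) * ee (β * p)‖ ≤
        Real.sqrt r * (‖PS N r χ‖ + 2 * Real.pi * β * ∑ y ∈ range N, ‖PS y r χ‖) := by
      intro χ hχ
      rw [mem_erase] at hχ
      have hprim : χ.IsPrimitive := by
        rw [DirichletCharacter.isPrimitive_def]
        have h2 := DirichletCharacter.conductor_dvd_level χ
        rcases (Nat.dvd_prime hr).1 h2 with h3 | h3
        · exfalso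
          exact hχ.1 ((DirichletCharacter.eq_one_iff_conductor_eq_one).2 h3)
        · exact h3
      rw [norm_mul]
      apply mul_le_mul (GG_prim r m χ hprim) _ (norm_nonneg _) (Real.sqrt_nonneg _)
      have h4 := abel_ee r χ β hβ N
      have h5 : ‖PS N r χ * ee (β * N)‖ = ‖PS N r χ‖ := by rw [norm_mul, ls_norm_ee, mul_one]
      have h6 := norm_sub_norm_le (∑ p ∈ Pr N, χ (p : ZMod r) * ee (β * p)) (PS N r χ * ee (β * N))
      linarith
    have h2 : (univ : Finset (DirichletCharacter ℂ r)).erase 1 ⊆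
        (univ : Finset (DirichletCharacter ℂ r)).filter (fun χ => χ.IsPrimitive) := by
      intro χ hχ
      rw [mem_erase] at hχ
      rw [mem_filter]
      refine ⟨mem_univ _, ?_⟩
      rw [DirichletCharacter.isPrimitive_def]
      have h2 := DirichletCharacter.conductor_dvd_level χ
      rcases (Nat.dvd_prime hr).1 h2 with h3 | h3
      · exfalso
        exact hχ.1 ((DirichletCharacter.eq_one_iff_conductor_eq_one).2 h3)
      · exact h3
    calc 1 / (Nat.totient r : ℝ) * ‖∑ χ ∈ (univ : Finset (DirichletCharacter ℂ r)).erase 1, GG' r m χ *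
            ∑ p ∈ Pr N, χ (p : ZMod r) * ee (β * p)‖ ≤
          1 / (Nat.totient r : ℝ) * ∑ χ ∈ (univ : Finset (DirichletCharacter ℂ r)).filter (fun χ => χ.IsPrimitive),
            Real.sqrt r * (‖PS N r χ‖ + 2 * Real.pi * β * ∑ y ∈ range N, ‖PS y r χ‖) := by
          apply mul_le_mul_of_nonneg_left _ (by positivity)
          refine (norm_sum_le _ _).trans ((sum_le_sum h1).trans ?_)
          apply sum_le_sum_of_subset_of_nonneg h2
          intro χ _ _
          have := Real.pi_pos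
          positivity
      _ = Mn r (fun χ => Real.sqrt r * (‖PS N r χ‖ + 2 * Real.pi * β * ∑ y ∈ range N, ‖PS y r χ‖)) := rfl
      _ = _ := by
          rw [Mn_smul, Mn_add, Mn_smul, Mn_sum]
  have hP1c : ((Pr N).card : ℝ) - 1 ≤ P1.card := by
    have h1 : P1.card + P0.card = (Pr N).card := card_filter_add_card_filter_not _
    have h2 : ((P1.card + P0.card : ℕ) : ℝ) = (Pr N).card := by rw [h1]
    have h3 : (P0.card : ℝ) ≤ 1 := by exact_mod_cast hP0c
    push_cast at h2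
    linarith
  have hreal : (-(1 / (Nat.totient r : ℂ)) * ∑ p ∈ P1, ee (β * p)).re ≤
      - (1 / (r : ℝ)) * ((((Pr N).card : ℝ) - 1) / 2) := by
    have h1 : (-(1 / (Nat.totient r : ℂ))) = ((-(1 / (Nat.totient r : ℝ)) : ℝ) : ℂ) := by push_cast; ring
    rw [h1, Complex.re_ofReal_mul, Complex.re_sum]
    have h2 : (P1.card : ℝ) * (1 / 2) ≤ ∑ p ∈ P1, (ee (β * p)).re := by
      rw [← nsmul_eq_mul, ← sum_const]
      apply sum_le_sum
      intro p hp
      rw [hP1, mem_filter] at hp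
      unfold Pr at hp
      rw [mem_filter, mem_Icc] at hp
      apply re_ee _ (by positivity)
      refine le_trans ?_ hβN
      apply mul_le_mul_of_nonneg_left _ hβ
      exact_mod_cast hp.1.1.2
    have h3 : 1 / (r : ℝ) ≤ 1 / (Nat.totient r : ℝ) := by
      apply one_div_le_one_div_of_le hφR
      exact_mod_cast Nat.totient_le r
    have h4 : (0 : ℝ) ≤ 1 / r := by positivity
    have h5 : (0 : ℝ) ≤ (P1.card : ℝ) * (1 / 2) := by positivity
    have h6 : (1 / (r : ℝ)) * ((((Pr N).card : ℝ) - 1) / 2) ≤ (1 / (Nat.totient r : ℝ)) * ∑ p ∈ P1, (ee (β * p)).re := by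
      calc (1 / (r : ℝ)) * ((((Pr N).card : ℝ) - 1) / 2) ≤ (1 / (r : ℝ)) * ((P1.card : ℝ) * (1 / 2)) := by
            apply mul_le_mul_of_nonneg_left _ h4
            linarith
        _ ≤ (1 / (Nat.totient r : ℝ)) * ((P1.card : ℝ) * (1 / 2)) := mul_le_mul_of_nonneg_right h3 h5
        _ ≤ _ := mul_le_mul_of_nonneg_left h2 (by positivity)
    linarith
  rw [hsplit, hmain, Complex.add_re, Complex.add_re]
  have h1 := Complex.re_le_norm Rest
  have h2 := Complex.re_le_norm (∑ p ∈ P0, ee (-((m : ℝ) * p / r)) * ee (β * p))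
  linarith

end

end Pool.Agent.H52.LO
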