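import Mathlib
import Pool.Agent.H52.LO.A5

/-!
The correlation for one modulus, and the conclusion for one modulus.
-/

set_option autoImplicit false

open Finset

namespace Pool.Agent.H52.LO

open Pool.Agent.H52

noncomputable section

open Classical

/-- the test function -/
def WT (q H R : ℕ) (n : ℕ) : ℂ := ∑ s ∈ Sq q H R, ee ((fr q s : ℝ) * n / q)

lemma iv_coprime (q r : ℕ) (hq : 1 < q) (hr : r.Coprime q) : (iv q r).Coprime q := by
  have h := iv_spec q r hq hr
  rw [← ZMod.isUnit_iff_coprime]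
  exact IsUnit.of_mul_eq_one _ (by rw [mul_comm]; exact h)

lemma fr_gcd (q H R : ℕ) (hq : 1 < q) (s : ℕ × ℕ) (hs : s ∈ Sq q H R) : Nat.gcd q (fr q s) ≤ H := by
  unfold Sq at hs
  rw [mem_product, mem_Icc, mem_filter] at hs
  have h1 := iv_coprime q s.2 hq hs.2.2
  unfold fr
  rw [Nat.Coprime.gcd_mul_right_cancel_right s.1 h1.symm.symm]
  exact (Nat.le_of_dvd (by omega) (Nat.gcd_dvd_right q s.1)).trans hs.1.2

lemma abs_cr_gcd (q h : ℕ) (hq : 0 < q) : |cr q h| ≤ q.divisors.card * Nat.gcd q h := by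
  refine (abs_cr_le q h).trans ?_
  calc ∑ d ∈ q.divisors, (if d ∣ h then (d : ℝ) else 0) ≤ ∑ d ∈ q.divisors, (Nat.gcd q h : ℝ) := by
        apply sum_le_sum
        intro d hd
        rw [Nat.mem_divisors] at hd
        split_ifs with h2
        · exact_mod_cast Nat.le_of_dvd (Nat.gcd_pos_of_pos_left _ hq) (Nat.dvd_gcd hd.1 h2)
        · positivity
    _ = _ := by rw [sum_const, nsmul_eq_mul]

/-- the sum over the primes -/
theorem pairing (N Q q H R : ℕ) (hQ : 0 < Q) (hq : q ∈ Ioc Q (2 * Q)) (hHR : 2 * H ≤ R) (hR : 0 < R)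
    (h8 : 8 * H * N ≤ Q * R) (hP : 1 ≤ (Pr N).card) (M : ℝ) (hM0 : 0 ≤ M)
    (hM : ∀ y ≤ N, ∑ f ∈ Ioc R (8 * R), Real.sqrt f * Mn f (fun ψ => ‖PS y f ψ‖) ≤ M) :
    (∑ p ∈ Pr N, WT q H R p).re ≤
      - ((Sq q H R).card * ((((Pr N).card : ℝ) - 1) / (16 * R))) + (Sq q H R).card + 2 * H * M := by
  rw [mem_Ioc] at hq
  have hQR : (0 : ℝ) < Q := by exact_mod_cast hQ
  have hRR : (0 : ℝ) < R := by exact_mod_cast hR
  have hP' : (1 : ℝ) ≤ (Pr N).card := by exact_mod_cast hP
  have hπ := Real.pi_pos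
  unfold WT
  rw [sum_comm, Complex.re_sum]
  have h8R : (8 : ℝ) * H * N ≤ Q * R := by exact_mod_cast h8
  have hterm : ∀ s ∈ Sq q H R, (∑ p ∈ Pr N, ee ((fr q s : ℝ) * p / q)).re ≤
      - ((((Pr N).card : ℝ) - 1) / (16 * R)) + 1 +
        Real.sqrt s.2 * (Mn s.2 (fun ψ => ‖PS N s.2 ψ‖) +
          2 * Real.pi * (H / (Q * R)) * ∑ y ∈ range N, Mn s.2 (fun ψ => ‖PS y s.2 ψ‖)) := by
    intro s hs
    obtain ⟨f1, f2, f3, f4, f5⟩ := SS_facts H R s (Sq_sub q H R hs)
    have hs' := hs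
    unfold Sq at hs'
    rw [mem_product, mem_Icc, mem_filter] at hs'
    have hc : s.2.Coprime q := hs'.2.2
    have hr1 : 1 < s.2 := f5.one_lt
    have hr0 : (0 : ℝ) < s.2 := by exact_mod_cast f5.pos
    have hq0 : (0 : ℝ) < q := by
      have : 0 < q := by omega
      exact_mod_cast this
    set β : ℝ := (s.1 : ℝ) / (q * s.2) with hβ
    have hβ0 : 0 ≤ β := by positivity
    have hβ1 : β ≤ H / (Q * R) := by
      rw [hβ]
      apply div_le_div₀ (by positivity) (by exact_mod_cast f2) (by positivity)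
      apply mul_le_mul (by exact_mod_cast hq.1.le) (by exact_mod_cast f3.le) hRR.le hq0.le
    have hβN : β * N ≤ 1 / 8 := by
      calc β * N ≤ H / (Q * R) * N := mul_le_mul_of_nonneg_right hβ1 (by positivity)
        _ ≤ 1 / 8 := by
            rw [div_mul_eq_mul_div, div_le_div_iff₀ (by positivity) (by norm_num)]
            linarith
    have hm : ¬ s.2 ∣ s.1 * iv s.2 q := by
      intro hd
      have hcop : (iv s.2 q).Coprime s.2 := iv_coprime s.2 q hr1 hc.symm
      have h1 : s.2 ∣ s.1 := Nat.Coprime.dvd_of_dvd_mul_right hcop.symm hd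
      have := Nat.le_of_dvd (by omega) h1
      omega
    have h1 : ∑ p ∈ Pr N, ee ((fr q s : ℝ) * p / q) =
        ∑ p ∈ Pr N, ee (-(((s.1 * iv s.2 q : ℕ) : ℝ) * p / s.2)) * ee (β * p) := by
      apply sum_congr rfl
      intro p _
      exact recip q s.2 s.1 p (by omega) hr1 hc
    rw [h1]
    refine (one_term N s.2 (s.1 * iv s.2 q) f5 hm β hβ0 hβN).trans ?_
    have h2 : - (1 / (s.2 : ℝ)) * ((((Pr N).card : ℝ) - 1) / 2) ≤ - ((((Pr N).card : ℝ) - 1) / (16 * R)) := by
      have h3 : 1 / (8 * (R : ℝ)) ≤ 1 / s.2 := by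
        apply one_div_le_one_div_of_le hr0
        exact_mod_cast f4
      have h4 : 0 ≤ (((Pr N).card : ℝ) - 1) / 2 := by linarith
      have h5 := mul_le_mul_of_nonneg_right h3 h4
      have h6 : 1 / (8 * (R : ℝ)) * ((((Pr N).card : ℝ) - 1) / 2) = (((Pr N).card : ℝ) - 1) / (16 * R) := by
        field_simp
        ring
      linarith
    have h7 : 0 ≤ ∑ y ∈ range N, Mn s.2 (fun ψ => ‖PS y s.2 ψ‖) :=
      sum_nonneg fun y _ => Mn_nonneg _ _ (fun ψ => norm_nonneg _)
    have h8 : 2 * Real.pi * β * ∑ y ∈ range N, Mn s.2 (fun ψ => ‖PS y s.2 ψ‖) ≤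
        2 * Real.pi * (H / (Q * R)) * ∑ y ∈ range N, Mn s.2 (fun ψ => ‖PS y s.2 ψ‖) := by
      apply mul_le_mul_of_nonneg_right _ h7
      apply mul_le_mul_of_nonneg_left hβ1 (by positivity)
    have h9 : Real.sqrt s.2 * (Mn s.2 (fun ψ => ‖PS N s.2 ψ‖) +
          2 * Real.pi * β * ∑ y ∈ range N, Mn s.2 (fun ψ => ‖PS y s.2 ψ‖)) ≤
        Real.sqrt s.2 * (Mn s.2 (fun ψ => ‖PS N s.2 ψ‖) +
          2 * Real.pi * (H / (Q * R)) * ∑ y ∈ range N, Mn s.2 (fun ψ => ‖PS y s.2 ψ‖)) := by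
      apply mul_le_mul_of_nonneg_left _ (Real.sqrt_nonneg _)
      linarith
    linarith
  refine (sum_le_sum hterm).trans ?_
  rw [sum_add_distrib, sum_add_distrib, sum_const, sum_const, nsmul_eq_mul, nsmul_eq_mul, mul_neg, mul_one]
  have hlast : ∑ s ∈ Sq q H R, Real.sqrt s.2 * (Mn s.2 (fun ψ => ‖PS N s.2 ψ‖) +
          2 * Real.pi * (H / (Q * R)) * ∑ y ∈ range N, Mn s.2 (fun ψ => ‖PS y s.2 ψ‖)) ≤ 2 * H * M := by
    set F : ℕ → ℝ := fun r => Real.sqrt r * (Mn r (fun ψ => ‖PS N r ψ‖) +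
          2 * Real.pi * (H / (Q * R)) * ∑ y ∈ range N, Mn r (fun ψ => ‖PS y r ψ‖)) with hF
    have hF0 : ∀ r, 0 ≤ F r := by
      intro r
      rw [hF]
      apply mul_nonneg (Real.sqrt_nonneg _)
      apply add_nonneg (Mn_nonneg _ _ (fun ψ => norm_nonneg _))
      apply mul_nonneg (by positivity)
      exact sum_nonneg fun y _ => Mn_nonneg _ _ (fun ψ => norm_nonneg _)
    calc ∑ s ∈ Sq q H R, F s.2 = ∑ h ∈ Icc 1 H, ∑ r ∈ (RP R).filter (fun r => r.Coprime q), F r := by
          unfold Sq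
          rw [sum_product]
      _ ≤ ∑ h ∈ Icc 1 H, ∑ r ∈ Ioc R (8 * R), F r := by
          apply sum_le_sum
          intro h _
          apply sum_le_sum_of_subset_of_nonneg
          · intro r hr
            unfold RP at hr
            rw [mem_filter, mem_filter] at hr
            exact hr.1.1
          · intro r _ _
            exact hF0 r
      _ = H * ∑ r ∈ Ioc R (8 * R), F r := by
          rw [sum_const, Nat.card_Icc, nsmul_eq_mul]
          simp
      _ ≤ H * (2 * M) := by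
          apply mul_le_mul_of_nonneg_left _ (by positivity)
          have h1 : ∑ r ∈ Ioc R (8 * R), F r = ∑ r ∈ Ioc R (8 * R), Real.sqrt r * Mn r (fun ψ => ‖PS N r ψ‖) +
              2 * Real.pi * (H / (Q * R)) * ∑ y ∈ range N, ∑ r ∈ Ioc R (8 * R),
                Real.sqrt r * Mn r (fun ψ => ‖PS y r ψ‖) := by
            rw [sum_comm, mul_sum, ← sum_add_distrib]
            apply sum_congr rfl
            intro r _
            rw [hF]
            simp only
            rw [← mul_sum]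
            ring
          rw [h1]
          have h2 := hM N le_rfl
          have h3 : ∑ y ∈ range N, ∑ r ∈ Ioc R (8 * R), Real.sqrt r * Mn r (fun ψ => ‖PS y r ψ‖) ≤ N * M := by
            calc _ ≤ ∑ y ∈ range N, M := by
                  apply sum_le_sum
                  intro y hy
                  rw [mem_range] at hy
                  exact hM y hy.le
              _ = N * M := by rw [sum_const, card_range, nsmul_eq_mul]
          have h4 : 2 * Real.pi * (H / (Q * R)) * (N * M) ≤ M := by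
            have h5 : (H : ℝ) / (Q * R) * N ≤ 1 / 8 := by
              rw [div_mul_eq_mul_div, div_le_div_iff₀ (by positivity) (by norm_num)]
              linarith
            have h6 : 2 * Real.pi * (H / (Q * R)) * (N * M) = 2 * Real.pi * ((H : ℝ) / (Q * R) * N) * M := by ring
            rw [h6]
            have h7 : 2 * Real.pi * ((H : ℝ) / (Q * R) * N) ≤ 1 := by
              have := Real.pi_lt_four
              nlinarith
            calc _ ≤ 1 * M := mul_le_mul_of_nonneg_right h7 hM0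
              _ = M := one_mul M
          have h8 : 2 * Real.pi * (H / (Q * R)) * ∑ y ∈ range N, ∑ r ∈ Ioc R (8 * R),
              Real.sqrt r * Mn r (fun ψ => ‖PS y r ψ‖) ≤ 2 * Real.pi * (H / (Q * R)) * (N * M) :=
            mul_le_mul_of_nonneg_left h3 (by positivity)
          linarith
      _ = 2 * H * M := by ring
  linarith

/-- the discrepancy as a function on all the classes -/
def Dc (N q : ℕ) (c : ℝ) (b : ℕ) : ℂ := Zc N q b - (c : ℂ) * gc q b

lemma gc_WT (q H R : ℕ) (hq : 1 < q) :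
    ‖∑ b ∈ range q, gc q b * WT q H R b‖ ≤ (Sq q H R).card * (q.divisors.card * H) := by
  unfold WT
  simp_rw [mul_sum]
  rw [sum_comm]
  refine (norm_sum_le _ _).trans ?_
  rw [← nsmul_eq_mul, ← sum_const]
  apply sum_le_sum
  intro s hs
  have h1 : ∑ b ∈ range q, gc q b * ee ((fr q s : ℝ) * b / q) = ((cr q (fr q s) : ℝ) : ℂ) := by
    rw [← cr_eq q _ (by omega), sum_filter]
    apply sum_congr rfl
    intro b _
    unfold gc
    split_ifs
    · rw [one_mul]
    · rw [zero_mul]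
  rw [h1, Complex.norm_real, Real.norm_eq_abs]
  refine (abs_cr_gcd q _ (by omega)).trans ?_
  apply mul_le_mul_of_nonneg_left _ (by positivity)
  exact_mod_cast fr_gcd q H R hq s hs

theorem corr (N Q q H R : ℕ) (hQ : 0 < Q) (hq : q ∈ Ioc Q (2 * Q)) (hHR : 2 * H ≤ R) (hR : 0 < R)
    (h8 : 8 * H * N ≤ Q * R) (hP : 1 ≤ (Pr N).card) (M : ℝ) (hM0 : 0 ≤ M)
    (hM : ∀ y ≤ N, ∑ f ∈ Ioc R (8 * R), Real.sqrt f * Mn f (fun ψ => ‖PS y f ψ‖) ≤ M)
    (c : ℝ) (hc : 0 ≤ c) :
    (Sq q H R).card * ((((Pr N).card : ℝ) - 1) / (16 * R) - 1 - c * (q.divisors.card * H)) - 2 * H * M ≤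
      ‖∑ b ∈ range q, Dc N q c b * WT q H R b‖ := by
  have hq' := hq
  rw [mem_Ioc] at hq'
  have h1 : ∑ b ∈ range q, Dc N q c b * WT q H R b =
      ∑ p ∈ Pr N, WT q H R p - (c : ℂ) * ∑ b ∈ range q, gc q b * WT q H R b := by
    rw [← Zc_sum N q (by omega) (WT q H R) (fun n => by
      unfold WT
      apply sum_congr rfl
      intro s _
      exact ee_mod q (by omega) _ n), mul_sum, ← sum_sub_distrib]
    apply sum_congr rfl
    intro b _
    unfold Dc
    ring
  have h2 := pairing N Q q H R hQ hq hHR hR h8 hP M hM0 hM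
  have h3 := gc_WT q H R (by omega)
  have h4 : -(∑ p ∈ Pr N, WT q H R p).re ≤ ‖∑ p ∈ Pr N, WT q H R p‖ := by
    have := Complex.abs_re_le_norm (∑ p ∈ Pr N, WT q H R p)
    exact (neg_le_abs _).trans this
  have h5 : ‖(c : ℂ) * ∑ b ∈ range q, gc q b * WT q H R b‖ ≤ c * ((Sq q H R).card * (q.divisors.card * H)) := by
    rw [norm_mul, Complex.norm_real, Real.norm_of_nonneg hc]
    exact mul_le_mul_of_nonneg_left h3 hc
  have h6 := norm_sub_norm_le (∑ p ∈ Pr N, WT q H R p) ((c : ℂ) * ∑ b ∈ range q, gc q b * WT q H R b)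
  rw [h1]
  have h7 : ((Sq q H R).card : ℝ) * ((((Pr N).card : ℝ) - 1) / (16 * R) - 1 - c * (q.divisors.card * H)) - 2 * H * M =
    (Sq q H R).card * ((((Pr N).card : ℝ) - 1) / (16 * R)) - (Sq q H R).card -
      c * ((Sq q H R).card * (q.divisors.card * H)) - 2 * H * M := by ring
  rw [h7]
  linarith

/-- the conclusion for one modulus -/
theorem conclude (N q H R R0 : ℕ) (hq : 1 < q) (hR0 : 0 < R0) (hR0H : R0 * H < q) (c A B τ : ℝ) (hA : 0 ≤ A)
    (hτ : (q.divisors.card : ℝ) ≤ τ)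
    (h1 : A ≤ ‖∑ b ∈ range q, Dc N q c b * WT q H R b‖)
    (h2 : ∑ b ∈ range q, ‖high q R0 (Dc N q c) b‖ ^ 2 ≤ B) :
    A ^ 2 ≤ ((1 + τ ^ 2) * ∑ b ∈ range q, ‖Dc N q c b‖) * (Real.sqrt B * Real.sqrt (q * En q H R)) := by
  have h3 := holder q R0 (by omega) (Dc N q c) (Sq q H R) (fr q) (by
    intro s hs
    have h4 := fr_gcd q H R hq s hs
    by_contra hcon
    push Not at hcon
    have h5 : q = Nat.gcd q (fr q s) * (q / Nat.gcd q (fr q s)) :=
      (Nat.mul_div_cancel' (Nat.gcd_dvd_left q (fr q s))).symm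
    have h6 : q ≤ H * R0 := by
      calc q = Nat.gcd q (fr q s) * (q / Nat.gcd q (fr q s)) := h5
        _ ≤ H * R0 := Nat.mul_le_mul h4 hcon
    rw [mul_comm] at h6
    omega)
  have h4 : ∑ b ∈ range q, ‖∑ j ∈ Sq q H R, ee ((fr q j : ℝ) * b / q)‖ ^ 4 = q * En q H R :=
    fourth q (by omega) (Sq q H R) (fr q)
  rw [h4] at h3
  have h5 : A ^ 2 ≤ ‖∑ b ∈ range q, Dc N q c b * WT q H R b‖ ^ 2 := pow_le_pow_left₀ hA h1 2
  refine h5.trans (h3.trans ?_)
  have h6 : 0 ≤ ∑ b ∈ range q, ‖Dc N q c b‖ := sum_nonneg fun _ _ => norm_nonneg _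
  have hcard : (0 : ℝ) ≤ q.divisors.card := by positivity
  apply mul_le_mul
  · apply mul_le_mul_of_nonneg_right _ h6
    have := pow_le_pow_left₀ hcard hτ 2
    linarith
  · apply mul_le_mul_of_nonneg_right _ (Real.sqrt_nonneg _)
    exact Real.sqrt_le_sqrt h2
  · positivity
  · positivity

/-- the mean of the discrepancy over the reduced classes -/
def L1 (N q : ℕ) (c : ℝ) : ℝ := ∑ b ∈ (range q).filter (fun b => b.Coprime q), |pc N q b - c|

lemma Dc_L1 (N q : ℕ) (hq : 0 < q) (c : ℝ) :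
    ∑ b ∈ range q, ‖Dc N q c b‖ ≤ L1 N q c + q.divisors.card := by
  rw [← sum_filter_add_sum_filter_not (range q) (fun b => b.Coprime q)]
  apply add_le_add
  · unfold L1
    apply le_of_eq
    apply sum_congr rfl
    intro b hb
    rw [mem_filter] at hb
    unfold Dc Zc gc
    rw [if_pos hb.2, mul_one, ← Complex.ofReal_sub, Complex.norm_real, Real.norm_eq_abs]
  · have h1 : ∀ b ∈ (range q).filter (fun b => ¬ b.Coprime q), ‖Dc N q c b‖ = pc N q b := by
      intro b hb
      rw [mem_filter] at hb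
      unfold Dc Zc gc
      rw [if_neg hb.2, mul_zero, sub_zero, Complex.norm_real, Real.norm_of_nonneg]
      unfold pc
      positivity
    rw [sum_congr rfl h1]
    have h2 : ∑ b ∈ (range q).filter (fun b => ¬ b.Coprime q), pc N q b ≤ ((Pr N).filter (fun p => p ∣ q)).card := by
      unfold pc
      rw [← Nat.cast_sum]
      apply Nat.cast_le.2
      rw [← card_biUnion]
      · apply card_le_card
        intro p hp
        rw [mem_biUnion] at hp
        obtain ⟨b, hb, hp⟩ := hp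
        rw [mem_filter] at hb hp
        unfold Pr
        rw [mem_filter, mem_filter]
        refine ⟨⟨hp.1, hp.2.1⟩, ?_⟩
        by_contra hcon
        apply hb.2
        have h3 : p.Coprime q := (Nat.Prime.coprime_iff_not_dvd hp.2.1).2 hcon
        rw [← hp.2.2]
        unfold Nat.Coprime at *
        rwa [← Nat.gcd_rec, Nat.gcd_comm]
      · intro a _ b _ hab
        rw [Function.onFun, disjoint_left]
        intro p hp1 hp2
        rw [mem_filter] at hp1 hp2
        exact hab (hp1.2.2.symm.trans hp2.2.2)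
    refine h2.trans ?_
    apply Nat.cast_le.2
    apply card_le_card
    intro p hp
    rw [mem_filter] at hp
    rw [Nat.mem_divisors]
    exact ⟨hp.2, hq.ne'⟩

end

end Pool.Agent.H52.LO
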