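import Mathlib
import Pool.Agent.H52.LO.A6
import Pool.Agent.H52.LB9

/-!
Counting lemmas.
-/

set_option autoImplicit false

open Finset

namespace Pool.Agent.H52.LO

open Pool.Agent.H52

noncomputable section

lemma cheb : ∃ Y0 : ℕ, ∀ Y N : ℕ, Y0 ≤ Y → Y ≤ N →
    Real.log 2 / 2 * Y ≤ (((Ioc (Y / 8) Y).filter Nat.Prime).card : ℝ) * Real.log N := by
  obtain ⟨Y0, hY0⟩ := ev_theta
  refine ⟨Y0 + 1, fun Y N hY hYN => ?_⟩
  have hl2 : 0.6931471803 < Real.log 2 := Real.log_two_gt_d9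
  have hl2' : Real.log 2 < 0.6931471808 := Real.log_two_lt_d9
  have hY1 : (1 : ℝ) ≤ Y := by exact_mod_cast (by omega : 1 ≤ Y)
  have hN1 : (1 : ℝ) ≤ N := by exact_mod_cast (by omega : 1 ≤ N)
  have hlogN : 0 ≤ Real.log N := Real.log_nonneg hN1
  have e0 := hY0 Y (by omega)
  have e1 := Chebyshev.theta_ge Y
  have e2 := Chebyshev.theta_le_log4_mul_x (x := ((Y / 8 : ℕ) : ℝ)) (by positivity)
  have hl4 : Real.log 4 = 2 * Real.log 2 := by
    rw [show (4 : ℝ) = 2 ^ 2 by norm_num, Real.log_pow]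
    push_cast
    ring
  rw [hl4] at e2
  have e3 : ((Y / 8 : ℕ) : ℝ) ≤ (Y : ℝ) / 8 := by exact_mod_cast Nat.cast_div_le
  -- the theta difference
  have hdiff : Chebyshev.theta Y - Chebyshev.theta ((Y / 8 : ℕ) : ℝ) =
      ∑ p ∈ (Ioc (Y / 8) Y).filter Nat.Prime, Real.log p := by
    rw [Chebyshev.theta_eq_sum_Icc, Chebyshev.theta_eq_sum_Icc, Nat.floor_natCast, Nat.floor_natCast,
      sub_eq_iff_eq_add, sum_filter, sum_filter, sum_filter]
    have hU : Icc 0 Y = Ioc (Y / 8) Y ∪ Icc 0 (Y / 8) := by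
      ext n
      simp only [mem_union, mem_Icc, mem_Ioc]
      omega
    rw [hU, sum_union]
    rw [disjoint_left]
    intro n hn hn2
    rw [mem_Ioc] at hn
    rw [mem_Icc] at hn2
    omega
  have h1 : ∑ p ∈ (Ioc (Y / 8) Y).filter Nat.Prime, Real.log p ≤
      ((Ioc (Y / 8) Y).filter Nat.Prime).card * Real.log N := by
    rw [← nsmul_eq_mul, ← sum_const]
    apply sum_le_sum
    intro p hp
    rw [mem_filter, mem_Ioc] at hp
    apply Real.log_le_log (by exact_mod_cast hp.2.pos)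
    exact_mod_cast (by omega : p ≤ N)
  have h3 : Real.log 2 / 2 * Y ≤ Chebyshev.theta Y - Chebyshev.theta ((Y / 8 : ℕ) : ℝ) := by
    nlinarith
  rw [hdiff] at h3
  linarith

lemma count_RP : ∃ Y0 : ℕ, ∀ R N : ℕ, Y0 ≤ R → 8 * R ≤ N →
    2 * (R : ℝ) ≤ ((RP R).card : ℝ) * Real.log N := by
  obtain ⟨Y0, hY0⟩ := cheb
  refine ⟨Y0, fun R N hR hN => ?_⟩
  have h := hY0 (8 * R) N (by omega) hN
  have h1 : 8 * R / 8 = R := by omega
  rw [h1] at h
  have hl2 : 0.6931471803 < Real.log 2 := Real.log_two_gt_d9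
  unfold RP
  refine le_trans ?_ h
  push_cast
  have : (0 : ℝ) ≤ R := by positivity
  nlinarith

lemma count_P : ∃ Y0 : ℕ, ∀ N : ℕ, Y0 ≤ N → (N : ℝ) / 4 ≤ ((Pr N).card : ℝ) * Real.log N := by
  obtain ⟨Y0, hY0⟩ := cheb
  refine ⟨Y0, fun N hN => ?_⟩
  have h := hY0 N N hN le_rfl
  have hl2 : 0.6931471803 < Real.log 2 := Real.log_two_gt_d9
  have h1 : (((Ioc (N / 8) N).filter Nat.Prime).card : ℝ) ≤ (Pr N).card := by
    apply Nat.cast_le.2
    apply card_le_card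
    intro p hp
    unfold Pr
    rw [mem_filter, mem_Ioc] at hp
    rw [mem_filter, mem_Icc]
    exact ⟨⟨hp.2.pos, hp.1.2⟩, hp.2⟩
  have h2 : 0 ≤ Real.log N := Real.log_natCast_nonneg N
  have h3 := mul_le_mul_of_nonneg_right h1 h2
  have : (0 : ℝ) ≤ N := by positivity
  nlinarith

/-- the mean value of the divisor function -/
lemma tau_sum (M : ℕ) : ∑ q ∈ Icc 1 M, (q.divisors.card : ℝ) ≤ M * (1 + Real.log M) := by
  have h1 : ∀ q ∈ Icc 1 M, (q.divisors.card : ℝ) = ∑ d ∈ Icc 1 M, if d ∣ q then (1 : ℝ) else 0 := by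
    intro q hq
    rw [mem_Icc] at hq
    rw [sum_boole]
    congr 2
    ext d
    rw [Nat.mem_divisors, mem_filter, mem_Icc]
    constructor
    · rintro ⟨h1, _⟩
      exact ⟨⟨Nat.pos_of_dvd_of_pos h1 (by omega), (Nat.le_of_dvd (by omega) h1).trans hq.2⟩, h1⟩
    · rintro ⟨_, h1⟩
      exact ⟨h1, by omega⟩
  rw [sum_congr rfl h1, sum_comm]
  have h2 : ∀ d ∈ Icc 1 M, ∑ q ∈ Icc 1 M, (if d ∣ q then (1 : ℝ) else 0) ≤ M * (1 / (d : ℝ)) := by
    intro d hd
    rw [mem_Icc] at hd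
    rw [sum_boole]
    have h3 : ((Icc 1 M).filter (fun q => d ∣ q)).card = M / d := Nat.Ioc_filter_dvd_card_eq_div M d
    rw [h3]
    refine (Nat.cast_div_le).trans (le_of_eq ?_)
    ring
  refine (sum_le_sum h2).trans ?_
  rw [← mul_sum]
  exact mul_le_mul_of_nonneg_left (harm M) (by positivity)

/-- Markov -/
lemma markov (s : Finset ℕ) (X : ℕ → ℝ) (hX : ∀ q ∈ s, 0 ≤ X q) (T B : ℝ) (hT : 0 < T)
    (hB : ∑ q ∈ s, X q ≤ B) : ((s.filter (fun q => T < X q)).card : ℝ) ≤ B / T := by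
  rw [le_div_iff₀ hT]
  refine le_trans ?_ hB
  calc ((s.filter (fun q => T < X q)).card : ℝ) * T = ∑ q ∈ s.filter (fun q => T < X q), T := by
        rw [sum_const, nsmul_eq_mul]
    _ ≤ ∑ q ∈ s.filter (fun q => T < X q), X q := by
        apply sum_le_sum
        intro q hq
        rw [mem_filter] at hq
        exact hq.2.le
    _ ≤ ∑ q ∈ s, X q := by
        apply sum_le_sum_of_subset_of_nonneg (filter_subset _ _)
        intro q hq _
        exact hX q hq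

end

end Pool.Agent.H52.LO
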