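import Mathlib
import Pool.Agent.H52.LO.A7
import Pool.Agent.H52.EH11

/-!
The lower bound for the mean absolute error for one good modulus.
-/

set_option autoImplicit false

open Finset

namespace Pool.Agent.H52.LO

open Pool.Agent.H52

noncomputable section

lemma SS_card (H R : ℕ) : ((SS H R).card : ℝ) = H * (RP R).card := by
  unfold SS
  rw [card_product, Nat.card_Icc]
  push_cast
  simp

lemma Sq_card (q H R : ℕ) (hq : 0 < q) :
    (H : ℝ) * ((RP R).card - q.divisors.card) ≤ ((Sq q H R).card : ℝ) := by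
  unfold Sq
  rw [card_product, Nat.card_Icc]
  have h1 : ((RP R).filter (fun r => r.Coprime q)).card + ((RP R).filter (fun r => ¬ r.Coprime q)).card = (RP R).card :=
    card_filter_add_card_filter_not _
  have h2 : ((RP R).filter (fun r => ¬ r.Coprime q)).card ≤ q.divisors.card := by
    apply card_le_card
    intro r hr
    unfold RP at hr
    rw [mem_filter, mem_filter] at hr
    rw [Nat.mem_divisors]
    refine ⟨?_, hq.ne'⟩
    by_contra hcon
    exact hr.2 ((Nat.Prime.coprime_iff_not_dvd hr.1.2).2 hcon)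
  have h3 : ((RP R).card : ℝ) - q.divisors.card ≤ ((RP R).filter (fun r => r.Coprime q)).card := by
    have h4 : (RP R).card ≤ ((RP R).filter (fun r => r.Coprime q)).card + q.divisors.card := by omega
    have h5 : ((RP R).card : ℝ) ≤ ((RP R).filter (fun r => r.Coprime q)).card + q.divisors.card := by
      exact_mod_cast h4
    linarith
  rw [Nat.add_sub_cancel]
  push_cast
  exact mul_le_mul_of_nonneg_left h3 (by positivity)

/-- the lower bound for one modulus -/
theorem one_mod (N Q q H R R0 : ℕ) (u v T : ℝ) (hu : 2 ^ 13 ≤ u) (hv3 : v ^ 3 = N) (hv1 : 1 ≤ v)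
    (hlog1 : 1 ≤ Real.log N) (hlogu : 2 * Real.log N ≤ u) (hQv : v ^ 2 * u ^ 160 ≤ Q) (hQN : Q ≤ N)
    (hq : q ∈ Ioc Q (2 * Q)) (hH1 : u ^ 60 / 2 ≤ H) (hH2 : (H : ℝ) ≤ u ^ 60)
    (hR1 : 8 * H * N ≤ Q * R) (hR2 : Q * R ≤ 9 * H * N) (hR01 : N ≤ Q * R0) (hR02 : Q * R0 ≤ 2 * N)
    (hτu : (q.divisors.card : ℝ) ≤ u) (hT : 1 ≤ T) (hτT : (q.divisors.card : ℝ) ≤ T)
    (hZ : ∑ b ∈ range q, ‖high q R0 (Zc N q) b‖ ^ 2 ≤ N * T)
    (hE : En q H R ≤ ((SS H R).card : ℝ) ^ 2 * T)
    (hM : ∀ y ≤ N, ∑ f ∈ Ioc R (8 * R), Real.sqrt f * Mn f (fun ψ => ‖PS y f ψ‖) ≤ N / u ^ 10)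
    (hRP : 2 * (R : ℝ) ≤ ((RP R).card : ℝ) * Real.log N) (hP : (N : ℝ) / 4 ≤ ((Pr N).card : ℝ) * Real.log N) :
    Real.sqrt (N * Q) / (2 ^ 25 * (Real.log N) ^ 3 * T ^ 5) ≤
      L1 N q (((Pr N).card : ℝ) / Nat.totient q) + T := by
  obtain ⟨g, hg⟩ : ∃ g, g = Real.log N := ⟨_, rfl⟩
  rw [← hg] at hlog1 hlogu hRP hP ⊢
  obtain ⟨P, hPdef⟩ : ∃ P : ℝ, P = ((Pr N).card : ℝ) := ⟨_, rfl⟩
  obtain ⟨S, hSdef⟩ : ∃ S : ℝ, S = ((SS H R).card : ℝ) := ⟨_, rfl⟩
  obtain ⟨S', hS'def⟩ : ∃ S' : ℝ, S' = ((Sq q H R).card : ℝ) := ⟨_, rfl⟩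
  obtain ⟨r, hrdef⟩ : ∃ r : ℝ, r = ((RP R).card : ℝ) := ⟨_, rfl⟩
  obtain ⟨τ, hτdef⟩ : ∃ τ : ℝ, τ = (q.divisors.card : ℝ) := ⟨_, rfl⟩
  rw [← hPdef] at hP ⊢
  rw [← hrdef] at hRP
  rw [← hτdef] at hτu hτT
  rw [← hSdef] at hE
  have hSr : S = H * r := by rw [hSdef, hrdef, SS_card]
  have hq' := hq
  rw [mem_Ioc] at hq'
  have hu0 : 0 < u := lt_of_lt_of_le (by norm_num) hu
  have hu1 : 1 ≤ u := le_trans (by norm_num) hu
  have hv0 : 0 < v := by linarith
  have hg0 : 0 < g := by linarith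
  have hT0 : 0 < T := by linarith
  have hN0 : (0 : ℝ) < N := by rw [← hv3]; positivity
  have hQ0 : (0 : ℝ) < Q := lt_of_lt_of_le (by positivity) hQv
  have hQn : 0 < Q := by exact_mod_cast hQ0
  have hqQ : (Q : ℝ) ≤ q := by exact_mod_cast hq'.1.le
  have hq0 : (0 : ℝ) < q := by linarith
  have hq2Q : (q : ℝ) ≤ 2 * Q := by exact_mod_cast hq'.2
  have hQNR : (Q : ℝ) ≤ N := by exact_mod_cast hQN
  have hτ0 : 0 ≤ τ := by rw [hτdef]; positivity
  have hτ1 : 1 ≤ τ := by
    rw [hτdef]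
    have : 0 < q.divisors.card := card_pos.2 (Nat.nonempty_divisors.2 (by omega))
    exact_mod_cast this
  have hH0 : (0 : ℝ) < H := lt_of_lt_of_le (by positivity) hH1
  have hHn : 0 < H := by exact_mod_cast hH0
  have hR1R : 8 * (H : ℝ) * N ≤ Q * R := by exact_mod_cast hR1
  have hR2R : (Q : ℝ) * R ≤ 9 * H * N := by exact_mod_cast hR2
  have hR01R : (N : ℝ) ≤ Q * R0 := by exact_mod_cast hR01
  have hR02R : (Q : ℝ) * R0 ≤ 2 * N := by exact_mod_cast hR02
  have hR8H : 8 * (H : ℝ) ≤ R := by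
    have h1 : (Q : ℝ) * (8 * H) ≤ Q * R := by
      calc (Q : ℝ) * (8 * H) ≤ N * (8 * H) := by gcongr
        _ = 8 * H * N := by ring
        _ ≤ Q * R := hR1R
    exact le_of_mul_le_mul_left h1 hQ0
  have hR0' : (0 : ℝ) < R := by linarith
  have hRn : 0 < R := by exact_mod_cast hR0'
  have hHR : 2 * H ≤ R := by
    have : 8 * H ≤ R := by exact_mod_cast hR8H
    omega
  have hR00 : (0 : ℝ) < R0 := by
    by_contra hcon
    have h1 : (R0 : ℝ) = 0 := le_antisymm (not_lt.1 hcon) (by positivity)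
    rw [h1] at hR01R
    linarith
  have hR0n : 0 < R0 := by exact_mod_cast hR00
  -- sizes
  have hRv : (R : ℝ) * u ^ 100 ≤ 9 * v := by
    have h1 : (v ^ 2 * u ^ 60) * ((R : ℝ) * u ^ 100) ≤ (v ^ 2 * u ^ 60) * (9 * v) := by
      calc (v ^ 2 * u ^ 60) * ((R : ℝ) * u ^ 100) = (v ^ 2 * u ^ 160) * (R : ℝ) := by ring
        _ ≤ (Q : ℝ) * R := by gcongr
        _ ≤ 9 * (H : ℝ) * N := hR2R
        _ ≤ 9 * u ^ 60 * v ^ 3 := by rw [hv3]; gcongr
        _ = (v ^ 2 * u ^ 60) * (9 * v) := by ring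
    exact le_of_mul_le_mul_left h1 (by positivity)
  have hgu : g ≤ u / 2 := by linarith
  have hPu : (N : ℝ) ≤ 2 * (P * u) := by
    have hP0 : 0 ≤ P := by rw [hPdef]; positivity
    have : P * g ≤ P * (u / 2) := mul_le_mul_of_nonneg_left hgu hP0
    linarith
  have hP0 : 0 < P := by
    by_contra hcon
    have h1 : P = 0 := le_antisymm (not_lt.1 hcon) (by rw [hPdef]; positivity)
    rw [h1] at hPu
    linarith
  have hPN : P ≤ N := by
    rw [hPdef]
    unfold Pr
    have : ((Icc 1 N).filter Nat.Prime).card ≤ N := by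
      calc ((Icc 1 N).filter Nat.Prime).card ≤ (Icc 1 N).card := card_filter_le _ _
        _ = N := by simp
    exact_mod_cast this
  have hr0 : 0 ≤ r := by rw [hrdef]; positivity
  have hru : 2 * u ≤ r := by
    have h1 : r * g ≤ r * (u / 2) := mul_le_mul_of_nonneg_left hgu hr0
    have h2 : 8 * u ^ 60 ≤ r * (u / 2) := by linarith
    have h3 : 2 * u * (u / 2) ≤ r * (u / 2) := by
      calc 2 * u * (u / 2) = u ^ 2 := by ring
        _ ≤ u ^ 60 := pow_le_pow_right₀ hu1 (by norm_num)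
        _ ≤ 8 * u ^ 60 := by
            have : 0 < u ^ 60 := by positivity
            linarith
        _ ≤ r * (u / 2) := h2
    exact le_of_mul_le_mul_right h3 (by positivity)
  have hS'S : S ≤ 2 * S' := by
    have h1 := Sq_card q H R (by omega)
    rw [← hrdef, ← hτdef, ← hS'def] at h1
    have h2 : r / 2 ≤ r - τ := by linarith
    have h3 := mul_le_mul_of_nonneg_left h2 hH0.le
    rw [hSr]
    linarith
  have hr00 : 0 < r := by linarith
  have hS0 : 0 < S := by rw [hSr]; positivity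
  have hS'0 : 0 < S' := by linarith
  -- P is large compared with R
  have hPR : 128 * (R : ℝ) ≤ P := by
    have h1 : (R : ℝ) * u ^ 2 ≤ 9 * v := by
      refine le_trans ?_ hRv
      gcongr
      norm_num
    have h2 : 256 * (R : ℝ) * u ≤ 2 * (P * u) := by
      refine le_trans ?_ hPu
      rw [← hv3]
      calc 256 * (R : ℝ) * u = (R * u) * 256 := by ring
        _ ≤ (R * u) * u := by gcongr; linarith
        _ = R * u ^ 2 := by ring
        _ ≤ 9 * v := h1
        _ ≤ v ^ 2 * v := by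
            gcongr
            have h3 : u ^ 160 ≤ v := by
              have h4 : v ^ 2 * u ^ 160 ≤ v ^ 2 * v := by
                calc v ^ 2 * u ^ 160 ≤ Q := hQv
                  _ ≤ N := hQNR
                  _ = v ^ 2 * v := by rw [← hv3]; ring
              exact le_of_mul_le_mul_left h4 (by positivity)
            have h5 : u ≤ v := by
              calc u = u ^ 1 := by ring
                _ ≤ u ^ 160 := pow_le_pow_right₀ hu1 (by norm_num)
                _ ≤ v := h3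
            nlinarith
        _ = v ^ 3 := by ring
    have h3 : (128 * (R : ℝ)) * (2 * u) ≤ P * (2 * u) := by linarith
    exact le_of_mul_le_mul_right h3 (by positivity)
  have hR1' : (1 : ℝ) ≤ R := by exact_mod_cast hRn
  have hP2 : 2 ≤ P := by linarith
  -- the constant c
  obtain ⟨c, hc⟩ : ∃ c : ℝ, c = P / Nat.totient q := ⟨_, rfl⟩
  rw [← hc]
  have hφ : (q : ℝ) / τ ≤ Nat.totient q := totient_ge q τ (by omega) (by linarith) (by rw [hτdef])
  have hφ0 : (0 : ℝ) < Nat.totient q := lt_of_lt_of_le (by positivity) hφ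
  have hc0 : 0 ≤ c := by rw [hc]; positivity
  have hcq : c * q ≤ P * τ := by
    rw [hc, div_mul_eq_mul_div, div_le_iff₀ hφ0]
    rw [div_le_iff₀ (by linarith)] at hφ
    calc P * q ≤ P * (Nat.totient q * τ) := by gcongr
      _ = P * τ * Nat.totient q := by ring
  have hcR : c * (τ * H) * (128 * R) ≤ P := by
    have h1 : c * (τ * H) * (128 * R) * q ≤ P * q := by
      calc c * (τ * H) * (128 * R) * q = (c * q) * (τ * H * (128 * R)) := by ring
        _ ≤ (P * τ) * (τ * H * (128 * R)) := by gcongr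
        _ ≤ (P * u) * (u * u ^ 60 * (128 * R)) := by gcongr
        _ = P * (128 * (u ^ 62 * R)) := by ring
        _ ≤ P * (u * (u ^ 62 * R)) := by gcongr; linarith
        _ = P * (R * u ^ 63) := by ring
        _ ≤ P * (R * u ^ 100) := by
            gcongr
            norm_num
        _ ≤ P * (9 * v) := by gcongr
        _ ≤ P * (v * (v * u ^ 160)) := by
            rw [mul_comm 9 v]
            gcongr
            calc (9 : ℝ) ≤ u := by linarith
              _ = 1 * u ^ 1 := by ring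
              _ ≤ v * u ^ 160 := by
                  gcongr
                  norm_num
        _ = P * (v ^ 2 * u ^ 160) := by ring
        _ ≤ P * q := by
            gcongr
            linarith
    exact le_of_mul_le_mul_right h1 hq0
  -- the correlation
  have hcorr := corr N Q q H R hQn hq hHR hRn hR1 (by
    have h1 : (1 : ℝ) ≤ ((Pr N).card : ℝ) := by rw [← hPdef]; linarith
    exact_mod_cast h1) (N / u ^ 10) (by positivity) hM c hc0
  rw [← hPdef, ← hS'def, ← hτdef] at hcorr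
  have hA : S * P / (256 * R) ≤ ‖∑ b ∈ range q, Dc N q c b * WT q H R b‖ := by
    refine le_trans ?_ hcorr
    have e1 : P / (32 * R) ≤ (P - 1) / (16 * R) := by
      rw [div_le_div_iff₀ (by positivity) (by positivity)]
      nlinarith
    have e2 : 1 ≤ P / (128 * R) := by
      rw [le_div_iff₀ (by positivity)]
      linarith
    have e3 : c * (τ * H) ≤ P / (128 * R) := by
      rw [le_div_iff₀ (by positivity)]
      exact hcR
    have e4 : 2 * (H : ℝ) * (N / u ^ 10) ≤ S' * (P / (128 * R)) := by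
      -- S' g ≥ H R
      have h1 : (H : ℝ) * R ≤ S' * g := by
        have h2 : (H : ℝ) * (2 * R) ≤ S * g := by
          rw [hSr]
          calc (H : ℝ) * (2 * R) ≤ H * (r * g) := by gcongr
            _ = H * r * g := by ring
        nlinarith
      have h2 : (H : ℝ) * R * (N / 4) ≤ (S' * g) * (P * g) := by gcongr
      have h3 : (S' * g) * (P * g) ≤ S' * P * (u / 2) ^ 2 := by
        calc (S' * g) * (P * g) = S' * P * g ^ 2 := by ring
          _ ≤ S' * P * (u / 2) ^ 2 := by gcongr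
      have h4 : (H : ℝ) * R * N ≤ S' * P * u ^ 2 := by
        have : S' * P * (u / 2) ^ 2 = S' * P * u ^ 2 / 4 := by ring
        linarith
      rw [← mul_div_assoc, ← mul_div_assoc, div_le_div_iff₀ (by positivity) (by positivity)]
      calc 2 * (H : ℝ) * N * (128 * R) = 256 * (H * R * N) := by ring
        _ ≤ 256 * (S' * P * u ^ 2) := by gcongr
        _ = S' * P * (256 * u ^ 2) := by ring
        _ ≤ S' * P * (u * u ^ 2) := by gcongr; linarith
        _ = S' * P * u ^ 3 := by ring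
        _ ≤ S' * P * u ^ 10 := by
            gcongr
            norm_num
    have e5 : P / (32 * R) = 4 * (P / (128 * R)) := by
      field_simp
      ring
    have e6 : 2 * (P / (128 * R)) ≤ (P - 1) / (16 * R) - 1 - c * (τ * H) := by linarith
    have e7 := mul_le_mul_of_nonneg_left e6 hS'0.le
    have e8 : S * P / (256 * R) ≤ S' * (P / (128 * R)) := by
      have : S * P / (256 * R) = S / 2 * (P / (128 * R)) := by
        field_simp
        ring
      rw [this]
      gcongr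
      linarith
    linarith
  -- the high part
  have hB : ∑ b ∈ range q, ‖high q R0 (Dc N q c) b‖ ^ 2 ≤ 4 * N * T ^ 5 := by
    have h1 := high_disc N q R0 (by omega) hR0n c
    rw [← hτdef] at h1
    have h2 : ∑ b ∈ range q, ‖high q R0 (Dc N q c) b‖ ^ 2 ≤
        2 * ∑ b ∈ range q, ‖high q R0 (Zc N q) b‖ ^ 2 + 2 * c ^ 2 * (q * τ ^ 3 / R0) := h1
    have h3 : c ^ 2 * (q * τ ^ 3 / R0) ≤ N * T ^ 5 := by
      rw [← mul_div_assoc, div_le_iff₀ hR00]
      have h4 : c ^ 2 * (q * τ ^ 3) * q ≤ N * T ^ 5 * R0 * q := by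
        calc c ^ 2 * (q * τ ^ 3) * q = (c * q) ^ 2 * τ ^ 3 := by ring
          _ ≤ (P * τ) ^ 2 * τ ^ 3 := by gcongr
          _ ≤ (N * T) ^ 2 * T ^ 3 := by gcongr
          _ = N * T ^ 5 * N := by ring
          _ ≤ N * T ^ 5 * (q * R0) := by
              gcongr
              calc (N : ℝ) ≤ Q * R0 := hR01R
                _ ≤ q * R0 := by gcongr
          _ = N * T ^ 5 * R0 * q := by ring
      exact le_of_mul_le_mul_right h4 hq0
    have h5 : N * T ≤ N * T ^ 5 := by
      gcongr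
      calc T = T ^ 1 := by ring
        _ ≤ T ^ 5 := pow_le_pow_right₀ hT (by norm_num)
    have h6 : 2 * c ^ 2 * (q * τ ^ 3 / R0) = 2 * (c ^ 2 * (q * τ ^ 3 / R0)) := by ring
    rw [h6] at h2
    linarith
  have hR0H : R0 * H < q := by
    have h1 : ((R0 * H : ℕ) : ℝ) < Q := by
      push_cast
      have h2 : (Q : ℝ) * (R0 * H) < Q * Q := by
        calc (Q : ℝ) * (R0 * H) = (Q * R0) * H := by ring
          _ ≤ (2 * N) * u ^ 60 := by gcongr
          _ = 2 * v ^ 3 * u ^ 60 := by rw [hv3]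
          _ < u * v ^ 3 * u ^ 60 := by
              gcongr
              linarith
          _ = (v ^ 3 * 1) * (u ^ 61) := by ring
          _ ≤ (v ^ 3 * v) * (u ^ 320) := by
              gcongr
              norm_num
          _ = (v ^ 2 * u ^ 160) * (v ^ 2 * u ^ 160) := by ring
          _ ≤ Q * Q := by gcongr
      exact lt_of_mul_lt_mul_left h2 hQ0.le
    have h2 : R0 * H < Q := by exact_mod_cast h1
    omega
  have hq1 : 1 < q := by omega
  have hcon := conclude N q H R R0 hq1 hR0n hR0H c (S * P / (256 * R)) (4 * N * T ^ 5) T (by positivity)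
    (by rw [← hτdef]; exact hτT) hA hB
  obtain ⟨X, hX⟩ : ∃ X : ℝ, X = ∑ b ∈ range q, ‖Dc N q c b‖ := ⟨_, rfl⟩
  rw [← hX] at hcon
  have hX0 : 0 ≤ X := by rw [hX]; exact sum_nonneg fun _ _ => norm_nonneg _
  obtain ⟨w, hw⟩ : ∃ w : ℝ, w = Real.sqrt (N * Q) := ⟨_, rfl⟩
  have hw0 : 0 < w := by rw [hw]; exact Real.sqrt_pos.2 (by positivity)
  have hw2 : w ^ 2 = N * Q := by rw [hw]; exact Real.sq_sqrt (by positivity)
  have hsq : Real.sqrt (4 * N * T ^ 5) * Real.sqrt (q * En q H R) ≤ 3 * w * T ^ 3 * S := by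
    rw [← Real.sqrt_mul (by positivity)]
    rw [Real.sqrt_le_left (by positivity)]
    have hE0 : 0 ≤ En q H R := by unfold En; positivity
    calc 4 * (N : ℝ) * T ^ 5 * (q * En q H R) ≤ 4 * (N : ℝ) * T ^ 5 * ((2 * Q) * (S ^ 2 * T)) := by gcongr
      _ = 8 * (N * Q) * T ^ 6 * S ^ 2 := by ring
      _ = 8 * w ^ 2 * T ^ 6 * S ^ 2 := by rw [hw2]
      _ ≤ 9 * w ^ 2 * T ^ 6 * S ^ 2 := by gcongr; norm_num
      _ = (3 * w * T ^ 3 * S) ^ 2 := by ring
  have h1 : (S * P / (256 * R)) ^ 2 ≤ (2 * T ^ 2 * X) * (3 * w * T ^ 3 * S) := by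
    refine hcon.trans ?_
    apply mul_le_mul _ hsq (by positivity) (by positivity)
    apply mul_le_mul_of_nonneg_right _ hX0
    have : 1 ≤ T ^ 2 := one_le_pow₀ hT
    linarith
  -- conclude: w ≤ 2^25 g^3 T^5 X
  have h2 : S * P ^ 2 ≤ 6 * 256 ^ 2 * (T ^ 5 * X * w * R ^ 2) := by
    have h3 : S * (S * P ^ 2) ≤ S * (6 * 256 ^ 2 * (T ^ 5 * X * w * R ^ 2)) := by
      have h4 : (S * P / (256 * R)) ^ 2 * (256 * R) ^ 2 = S * (S * P ^ 2) := by
        field_simp
      rw [← h4]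
      calc (S * P / (256 * R)) ^ 2 * (256 * R) ^ 2 ≤ ((2 * T ^ 2 * X) * (3 * w * T ^ 3 * S)) * (256 * R) ^ 2 := by
            gcongr
        _ = _ := by ring
    exact le_of_mul_le_mul_left h3 hS0
  have h3 : (H : ℝ) * R * N ^ 2 ≤ 8 * g ^ 3 * (S * P ^ 2) := by
    have e1 : (H : ℝ) * (2 * R) ≤ S * g := by
      rw [hSr]
      calc (H : ℝ) * (2 * R) ≤ H * (r * g) := by gcongr
        _ = H * r * g := by ring
    have e2 : ((N : ℝ) / 4) ^ 2 ≤ (P * g) ^ 2 := by gcongr
    calc (H : ℝ) * R * N ^ 2 = 8 * ((H * (2 * R)) * (N / 4) ^ 2) := by ring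
      _ ≤ 8 * ((S * g) * (P * g) ^ 2) := by gcongr
      _ = 8 * g ^ 3 * (S * P ^ 2) := by ring
  have h4 : (H : ℝ) * N ^ 2 ≤ 48 * 256 ^ 2 * (g ^ 3 * T ^ 5 * X * w * R) := by
    have h5 : ((H : ℝ) * N ^ 2) * R ≤ (48 * 256 ^ 2 * (g ^ 3 * T ^ 5 * X * w * R)) * R := by
      calc ((H : ℝ) * N ^ 2) * R = H * R * N ^ 2 := by ring
        _ ≤ 8 * g ^ 3 * (S * P ^ 2) := h3
        _ ≤ 8 * g ^ 3 * (6 * 256 ^ 2 * (T ^ 5 * X * w * R ^ 2)) := by gcongr
        _ = _ := by ring
    exact le_of_mul_le_mul_right h5 hR0'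
  have h5 : (w * w) ≤ (2 ^ 25 * g ^ 3 * T ^ 5 * X) * w := by
    have h6 : ((H : ℝ) * N) * (w * w) ≤ ((H : ℝ) * N) * ((2 ^ 25 * g ^ 3 * T ^ 5 * X) * w) := by
      calc ((H : ℝ) * N) * (w * w) = (H * N) * w ^ 2 := by ring
        _ = Q * (H * N ^ 2) := by rw [hw2]; ring
        _ ≤ Q * (48 * 256 ^ 2 * (g ^ 3 * T ^ 5 * X * w * R)) := by gcongr
        _ = 48 * 256 ^ 2 * (g ^ 3 * T ^ 5 * X * w) * (Q * R) := by ring
        _ ≤ 48 * 256 ^ 2 * (g ^ 3 * T ^ 5 * X * w) * (9 * H * N) := by gcongr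
        _ = (432 * 256 ^ 2) * ((g ^ 3 * T ^ 5 * X * w) * (H * N)) := by ring
        _ ≤ 2 ^ 25 * ((g ^ 3 * T ^ 5 * X * w) * (H * N)) := by
            gcongr
            norm_num
        _ = _ := by ring
    exact le_of_mul_le_mul_left h6 (by positivity)
  have h6 : w ≤ 2 ^ 25 * g ^ 3 * T ^ 5 * X := le_of_mul_le_mul_right h5 hw0
  rw [← hw]
  have h7 : w / (2 ^ 25 * g ^ 3 * T ^ 5) ≤ X := by
    rw [div_le_iff₀ (by positivity)]
    linarith
  refine h7.trans ?_
  have h8 := Dc_L1 N q (by omega) c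
  rw [← hX, ← hτdef] at h8
  linarith

end

end Pool.Agent.H52.LO
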