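import Mathlib
import Pool.Agent.H52.LO.A8

/-!
The lower bound for the mean absolute error for almost all moduli.
-/

set_option autoImplicit false

open Finset Filter

namespace Pool.Agent.H52.LO

open Pool.Agent.H52

noncomputable section

lemma log_pow_le (m : ℕ) : ∃ x0 : ℕ, ∀ N : ℕ, x0 ≤ N → (Real.log N) ^ m ≤ N := by
  have h1 : ∀ᶠ x : ℝ in atTop, ‖(Real.log x) ^ m‖ ≤ 1 * ‖(id x : ℝ)‖ :=
    (Real.isLittleO_pow_log_id_atTop (n := m)).bound one_pos
  obtain ⟨x0, hx0⟩ := (h1.and (eventually_ge_atTop (1 : ℝ))).exists_forall_of_atTop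
  refine ⟨⌈x0⌉₊ + 1, fun N hN => ?_⟩
  have hNx : x0 ≤ N := by
    have := Nat.le_ceil x0
    have h2 : ((⌈x0⌉₊ : ℕ) : ℝ) ≤ N := by exact_mod_cast (by omega : ⌈x0⌉₊ ≤ N)
    linarith
  obtain ⟨e1, e2⟩ := hx0 N hNx
  rw [Real.norm_of_nonneg (pow_nonneg (Real.log_nonneg e2) _), one_mul, id, Real.norm_of_nonneg (by positivity)] at e1
  exact e1

/-- the sum of the three quantities over the moduli -/
lemma sum_X (N Q H R R0 : ℕ) (u g : ℝ) (hQ : 0 < Q) (hQN : Q ≤ N) (hg : g = Real.log N) (hg1 : 2 ^ 10 ≤ g)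
    (hHR : 2 * H ≤ R) (hu0 : 0 ≤ u)
    (hD : ∀ m : ℕ, 0 < m → m ≤ 1024 * H * R ^ 3 → (m.divisors.card : ℝ) ≤ u)
    (hR0 : 0 < R0) (hR01 : N ≤ Q * R0) (hS0 : 0 < ((SS H R).card : ℝ))
    (hS1 : ((SS H R).card : ℝ) ^ 2 * u ≤ Q) (hS2 : (H : ℝ) ^ 2 ≤ (SS H R).card * g) :
    ∑ q ∈ Ioc Q (2 * Q), ((q.divisors.card : ℝ) + (∑ b ∈ range q, ‖high q R0 (Zc N q) b‖ ^ 2) / N +
      En q H R / ((SS H R).card : ℝ) ^ 2) ≤ Q * g ^ 2 := by
  have hNn : 0 < N := by omega
  have hN0 : (0 : ℝ) < N := by exact_mod_cast hNn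
  have hQ0 : (0 : ℝ) < Q := by exact_mod_cast hQ
  have hQNR : (Q : ℝ) ≤ N := by exact_mod_cast hQN
  have hR00 : (0 : ℝ) < R0 := by exact_mod_cast hR0
  have hR01R : (N : ℝ) ≤ Q * R0 := by exact_mod_cast hR01
  have hl2 : 0.6931471803 < Real.log 2 := Real.log_two_gt_d9
  have hl2' : Real.log 2 < 0.6931471808 := Real.log_two_lt_d9
  have hg0 : 0 < g := by linarith
  rw [sum_add_distrib, sum_add_distrib]
  have h1 : ∑ q ∈ Ioc Q (2 * Q), (q.divisors.card : ℝ) ≤ Q * (4 * g) := by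
    calc ∑ q ∈ Ioc Q (2 * Q), (q.divisors.card : ℝ) ≤ ∑ q ∈ Icc 1 (2 * Q), (q.divisors.card : ℝ) := by
          apply sum_le_sum_of_subset_of_nonneg
          · intro q hq
            rw [mem_Ioc] at hq
            rw [mem_Icc]
            omega
          · intro q _ _
            positivity
      _ ≤ ((2 * Q : ℕ) : ℝ) * (1 + Real.log ((2 * Q : ℕ) : ℝ)) := tau_sum (2 * Q)
      _ ≤ (2 * Q) * (2 * g) := by
          push_cast
          apply mul_le_mul_of_nonneg_left _ (by positivity)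
          rw [Real.log_mul (by norm_num) hQ0.ne']
          have := Real.log_le_log hQ0 hQNR
          rw [← hg] at this
          linarith
      _ = Q * (4 * g) := by ring
  have h2 : ∑ q ∈ Ioc Q (2 * Q), (∑ b ∈ range q, ‖high q R0 (Zc N q) b‖ ^ 2) / N ≤ Q * (324 * g) := by
    rw [← sum_div, div_le_iff₀ hN0]
    set L : ℕ := Nat.log 2 (2 * N) + 1 with hL
    have hL1 : 2 * Q < 2 ^ L * R0 := by
      have h3 : 2 * N < 2 ^ L := Nat.lt_pow_succ_log_self (by norm_num) _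
      have h4 : 2 ^ L ≤ 2 ^ L * R0 := Nat.le_mul_of_pos_right _ hR0
      omega
    have hL2 : (L : ℝ) ≤ 3 * g := by
      have e1 : (Nat.log 2 (2 * N) : ℝ) * Real.log 2 ≤ Real.log 2 + g := by
        have h1 : 2 ^ Nat.log 2 (2 * N) ≤ 2 * N := Nat.pow_log_le_self 2 (by omega)
        have h2 : (2 : ℝ) ^ Nat.log 2 (2 * N) ≤ 2 * N := by exact_mod_cast h1
        have h3 := Real.log_le_log (by positivity) h2
        rw [Real.log_pow, Real.log_mul (by norm_num) hN0.ne', ← hg] at h3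
        exact h3
      have e2 : (0 : ℝ) ≤ Nat.log 2 (2 * N) := by positivity
      have e3 : (L : ℝ) = Nat.log 2 (2 * N) + 1 := by rw [hL]; push_cast; ring
      rw [e3]
      have e4 := mul_le_mul_of_nonneg_left hl2.le e2
      linarith only [e1, e4, hg1, hl2']
    refine (high_avg N Q R0 L hQ hR0 hL1).trans ?_
    have hP : ((Pr N).card : ℝ) ≤ N := by
      unfold Pr
      have : ((Icc 1 N).filter Nat.Prime).card ≤ N := by
        calc ((Icc 1 N).filter Nat.Prime).card ≤ (Icc 1 N).card := card_filter_le _ _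
          _ = N := by simp
      exact_mod_cast this
    have h5 : (N : ℝ) / R0 ≤ Q := by
      rw [div_le_iff₀ hR00]
      exact hR01R
    calc 12 * (L : ℝ) * ((N : ℝ) / R0 + 8 * Q) * ((Pr N).card : ℝ) ≤ 12 * (3 * g) * ((Q : ℝ) + 8 * Q) * N := by
          gcongr
      _ = Q * (324 * g) * N := by ring
  have h3 : ∑ q ∈ Ioc Q (2 * Q), En q H R / ((SS H R).card : ℝ) ^ 2 ≤ Q * (3 + g) := by
    rw [← sum_div, div_le_iff₀ (by positivity)]
    refine (energy H R Q hQ hHR u hu0 hD).trans ?_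
    obtain ⟨S, hS⟩ : ∃ S : ℝ, S = ((SS H R).card : ℝ) := ⟨_, rfl⟩
    rw [← hS] at hS0 hS1 hS2 ⊢
    calc (Q : ℝ) * (2 * S ^ 2 + S * (H : ℝ) ^ 2) + S ^ 4 * u = Q * (2 * S ^ 2 + S * (H : ℝ) ^ 2) + S ^ 2 * (S ^ 2 * u) := by ring
      _ ≤ Q * (2 * S ^ 2 + S * (S * g)) + S ^ 2 * Q := by gcongr
      _ = Q * (3 + g) * S ^ 2 := by ring
  have h4 : Q * (4 * g) + Q * (324 * g) + Q * (3 + g) ≤ Q * g ^ 2 := by
    have : 4 * g + 324 * g + (3 + g) ≤ g ^ 2 := by nlinarith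
    calc Q * (4 * g) + Q * (324 * g) + Q * (3 + g) = Q * (4 * g + 324 * g + (3 + g)) := by ring
      _ ≤ Q * g ^ 2 := by gcongr
  linarith

theorem mean_abs (δ : ℝ) (hδ : 0 < δ) (hδ2 : δ ≤ 1 / 3) (k : ℕ) : ∃ x0 : ℕ, ∀ N : ℕ, x0 ≤ N → ∀ Q : ℕ,
    (N : ℝ) ^ (2 / 3 + δ) ≤ Q → Q ≤ N →
    1 ≤ Real.log N ∧
    ∃ E : Finset ℕ, E ⊆ Ioc Q (2 * Q) ∧ (E.card : ℝ) ≤ Q / (Real.log N) ^ k ∧
      ∀ q ∈ Ioc Q (2 * Q), q ∉ E →
        3 * (Real.sqrt (N * q) / (Real.log N) ^ (5 * k + 14)) ≤ L1 N q (((Pr N).card : ℝ) / Nat.totient q) ∧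
        (q.divisors.card : ℝ) ≤ Real.sqrt (N * q) / (Real.log N) ^ (5 * k + 14) := by
  obtain ⟨YR, hYR⟩ := count_RP
  obtain ⟨YP, hYP⟩ := count_P
  obtain ⟨x1, hx1⟩ := ev_u (2 * δ / 5) (by positivity) (max (2 ^ 32) YR)
  obtain ⟨x2, hx2⟩ := log_pow_le (3 * (6 * k + 20))
  refine ⟨x1 + x2 + YP + 300, fun N hN Q hQ1 hQ2 => ?_⟩
  obtain ⟨hN1, hu, hlogu, hlog, hdiv⟩ := hx1 N (by omega)
  have hlogpow := hx2 N (by omega)
  have hP := hYP N (by omega)
  have hNR : (0 : ℝ) < N := by exact_mod_cast (by omega : 0 < N)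
  have hN1R : (1 : ℝ) ≤ N := by exact_mod_cast hN1
  set u : ℝ := (N : ℝ) ^ (2 * δ / 5 / 64) with hudef
  have hu32 : 2 ^ 32 ≤ u := le_trans (le_max_left _ _) hu
  have huY : (YR : ℝ) ≤ u := le_trans (le_max_right _ _) hu
  have hlog32 : 2 ^ 32 ≤ Real.log N := le_trans (le_max_left _ _) hlog
  have hu0 : 0 < u := lt_of_lt_of_le (by norm_num) hu32
  have hu1 : 1 ≤ u := le_trans (by norm_num) hu32
  refine ⟨le_trans (by norm_num) hlog32, ?_⟩
  -- powers
  obtain ⟨v, hvdef⟩ : ∃ v : ℝ, v = (N : ℝ) ^ (1 / 3 : ℝ) := ⟨_, rfl⟩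
  have hv0 : 0 < v := by rw [hvdef]; positivity
  have hv3 : v ^ 3 = N := by
    rw [hvdef, ← Real.rpow_natCast, ← Real.rpow_mul hNR.le]
    norm_num
  have hu160 : u ^ 160 = (N : ℝ) ^ δ := by
    rw [hudef, ← Real.rpow_natCast, ← Real.rpow_mul hNR.le]
    congr 1
    push_cast
    ring
  have huv : u ^ 160 ≤ v := by
    rw [hu160, hvdef]
    exact Real.rpow_le_rpow_of_exponent_le hN1R hδ2
  have hv1 : 1 ≤ v := le_trans (one_le_pow₀ hu1) huv
  have hQv : v ^ 2 * u ^ 160 ≤ Q := by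
    have h1 : v ^ 2 * u ^ 160 = (N : ℝ) ^ (2 / 3 + δ) := by
      rw [hu160, hvdef, ← Real.rpow_natCast, ← Real.rpow_mul hNR.le, ← Real.rpow_add hNR]
      congr 1
      push_cast
      ring
    rw [h1]
    exact hQ1
  have hQ0 : (0 : ℝ) < Q := lt_of_lt_of_le (by positivity) hQv
  have hQn : 0 < Q := by exact_mod_cast hQ0
  have hQN : (Q : ℝ) ≤ N := by exact_mod_cast hQ2
  obtain ⟨g, hg⟩ : ∃ g, g = Real.log N := ⟨_, rfl⟩
  rw [← hg] at hlogpow hlog32 hlogu hP ⊢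
  have hg0 : 0 < g := lt_of_lt_of_le (by norm_num) hlog32
  have hg1 : 1 ≤ g := le_trans (by norm_num) hlog32
  have hgv : g ^ (6 * k + 20) ≤ v := by
    have h1 : (g ^ (6 * k + 20)) ^ 3 ≤ v ^ 3 := by
      rw [hv3, ← pow_mul, mul_comm (6 * k + 20) 3]
      exact hlogpow
    exact le_of_pow_le_pow_left₀ (by norm_num) hv0.le h1
  -- parameters
  set H : ℕ := ⌊u ^ 60⌋₊ with hHdef
  set R : ℕ := 8 * H * N / Q + 1 with hRdef
  set R0 : ℕ := N / Q + 1 with hR0def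
  set U : ℕ := ⌊v⌋₊ with hUdef
  set L : ℕ := Nat.log 2 N + 1 with hLdef
  have hH2 : (H : ℝ) ≤ u ^ 60 := Nat.floor_le (by positivity)
  have hu60 : 1 ≤ u ^ 60 := one_le_pow₀ hu1
  have hHn : 1 ≤ H := Nat.le_floor (by simpa using hu60)
  have hH1R : (1 : ℝ) ≤ H := by exact_mod_cast hHn
  have hH1 : u ^ 60 / 2 ≤ H := by
    have e1 : u ^ 60 < H + 1 := Nat.lt_floor_add_one _
    linarith
  have hR1 : 8 * H * N ≤ Q * R := by
    have h1 : 8 * H * N < Q * (8 * H * N / Q + 1) := Nat.lt_mul_div_succ _ hQn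
    exact h1.le
  have hR2 : Q * R ≤ 9 * H * N := by
    have h1 : Q * (8 * H * N / Q) ≤ 8 * H * N := Nat.mul_div_le _ _
    have h2 : N ≤ H * N := Nat.le_mul_of_pos_left N hHn
    calc Q * R = Q * (8 * H * N / Q) + Q := by rw [hRdef]; ring
      _ ≤ 8 * H * N + H * N := by omega
      _ = 9 * H * N := by ring
  have hR01 : N ≤ Q * R0 := by
    have h1 : N < Q * (N / Q + 1) := Nat.lt_mul_div_succ _ hQn
    exact h1.le
  have hR02 : Q * R0 ≤ 2 * N := by
    have h1 : Q * (N / Q) ≤ N := Nat.mul_div_le _ _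
    calc Q * R0 = Q * (N / Q) + Q := by rw [hR0def]; ring
      _ ≤ 2 * N := by omega
  have hR1R : 8 * (H : ℝ) * N ≤ Q * R := by exact_mod_cast hR1
  have hR2R : (Q : ℝ) * R ≤ 9 * H * N := by exact_mod_cast hR2
  have hR8H : 8 * (H : ℝ) ≤ R := by
    have h1 : (Q : ℝ) * (8 * H) ≤ Q * R := by
      calc (Q : ℝ) * (8 * H) ≤ N * (8 * H) := by gcongr
        _ = 8 * H * N := by ring
        _ ≤ Q * R := hR1R
    exact le_of_mul_le_mul_left h1 hQ0
  have hR8Hn : 8 * H ≤ R := by exact_mod_cast hR8H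
  have hR0' : (0 : ℝ) < R := by linarith
  have hRn : 0 < R := by exact_mod_cast hR0'
  have hR0pos : 0 < R0 := Nat.succ_pos _
  have hRu : u ^ 60 ≤ R := by linarith
  have hRv : (R : ℝ) * u ^ 100 ≤ 9 * v := by
    have h1 : (v ^ 2 * u ^ 60) * ((R : ℝ) * u ^ 100) ≤ (v ^ 2 * u ^ 60) * (9 * v) := by
      calc (v ^ 2 * u ^ 60) * ((R : ℝ) * u ^ 100) = (v ^ 2 * u ^ 160) * (R : ℝ) := by ring
        _ ≤ (Q : ℝ) * R := by gcongr
        _ ≤ 9 * (H : ℝ) * N := hR2R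
        _ ≤ 9 * u ^ 60 * v ^ 3 := by rw [hv3]; gcongr
        _ = (v ^ 2 * u ^ 60) * (9 * v) := by ring
    exact le_of_mul_le_mul_left h1 (by positivity)
  -- 8 R ≤ v
  have hRv' : (R : ℝ) ≤ 9 * v / u ^ 100 := by
    rw [le_div_iff₀ (by positivity)]
    exact hRv
  have h8Rv : 8 * (R : ℝ) ≤ v := by
    have h1 : (72 * (R : ℝ)) ≤ 9 * v := by
      calc 72 * (R : ℝ) = R * 72 := by ring
        _ ≤ R * u ^ 100 := by
            gcongr
            calc (72 : ℝ) ≤ u := by linarith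
              _ = u ^ 1 := by ring
              _ ≤ u ^ 100 := pow_le_pow_right₀ hu1 (by norm_num)
        _ ≤ 9 * v := hRv
    linarith
  have hvN : v ≤ N := by
    rw [← hv3]
    calc v = v * 1 := by ring
      _ ≤ v * v ^ 2 := by gcongr; exact one_le_pow₀ hv1
      _ = v ^ 3 := by ring
  have h8RN : 8 * R ≤ N := by
    have : 8 * (R : ℝ) ≤ N := h8Rv.trans hvN
    exact_mod_cast this
  have hRP := hYR R N (by
    have h1 : (YR : ℝ) ≤ R := by
      calc (YR : ℝ) ≤ u := huY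
        _ = u ^ 1 := by ring
        _ ≤ u ^ 60 := pow_le_pow_right₀ hu1 (by norm_num)
        _ ≤ R := hRu
    exact_mod_cast h1) h8RN
  rw [← hg] at hRP
  -- the mean value
  have hUv : (U : ℝ) ≤ v := Nat.floor_le hv0.le
  have hU1 : 1 ≤ U := by
    rw [hUdef]
    exact Nat.le_floor (by simpa using hv1)
  have hvU : v ≤ 2 * U := by
    have e1 : v < U + 1 := Nat.lt_floor_add_one _
    have e2 : (1 : ℝ) ≤ U := by exact_mod_cast hU1
    linarith
  have hUN : U * U * U ≤ N := by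
    have e1 : (U : ℝ) * U * U ≤ N := by
      rw [← hv3]
      calc (U : ℝ) * U * U = (U : ℝ) ^ 3 := by ring
        _ ≤ v ^ 3 := pow_le_pow_left₀ (by positivity) hUv 3
    exact_mod_cast e1
  have hNL : N < 2 ^ L := Nat.lt_pow_succ_log_self (by norm_num) _
  have hl2 : 0.6931471803 < Real.log 2 := Real.log_two_gt_d9
  have hl2' : Real.log 2 < 0.6931471808 := Real.log_two_lt_d9
  have hLu : (L : ℝ) ≤ u := by
    have e1 : (Nat.log 2 N : ℝ) * Real.log 2 ≤ g := by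
      have h1 : 2 ^ Nat.log 2 N ≤ N := Nat.pow_log_le_self 2 (by omega)
      have h2 : (2 : ℝ) ^ Nat.log 2 N ≤ N := by exact_mod_cast h1
      have h3 := Real.log_le_log (by positivity) h2
      rwa [Real.log_pow, ← hg] at h3
    have e2 : (0 : ℝ) ≤ Nat.log 2 N := by positivity
    have e3 : (L : ℝ) = Nat.log 2 N + 1 := by rw [hLdef]; push_cast; ring
    rw [e3]
    have e4 := mul_le_mul_of_nonneg_left hl2.le e2
    linarith only [e1, e4, hlogu, hlog32]
  have hM1 : ∀ F : ℕ, R ≤ F → F ≤ 8 * R →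
      Real.sqrt (2 * F) * (2 * (BB N U L F u + (F + 1) * (2 * Real.sqrt N * Real.log N))) ≤ N / u ^ 11 := by
    intro F hF1 hF2
    have hFR : (F : ℝ) ≤ 8 * R := by exact_mod_cast hF2
    have hRF : (R : ℝ) ≤ F := by exact_mod_cast hF1
    have hFN : F ≤ N := hF2.trans h8RN
    have hFpos : (0 : ℝ) < F := by linarith
    apply block_size N U L F u u v (by linarith) hv3 hv1 hUv hvU hLu le_rfl hu0.le (by rw [← hg]; linarith)
    · have e1 : Real.log (2 * F) ≤ Real.log 2 + Real.log N := by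
        rw [Real.log_mul (by norm_num) hFpos.ne']
        have := Real.log_le_log hFpos (by exact_mod_cast hFN : (F : ℝ) ≤ N)
        linarith
      rw [← hg] at e1
      linarith
    · have e1 : u ^ 40 ≤ u ^ 60 := pow_le_pow_right₀ hu1 (by norm_num)
      linarith
    · rw [le_div_iff₀ (by positivity)]
      calc (F : ℝ) * u ^ 40 ≤ (8 * R) * u ^ 40 := by gcongr
        _ = (R * u ^ 40) * 8 := by ring
        _ ≤ (R * u ^ 40) * u := by gcongr; linarith
        _ = (R * u ^ 41) := by ring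
        _ = (R * u ^ 41) * 1 := by ring
        _ ≤ (R * u ^ 41) * (u ^ 59 / 9) := by
            gcongr
            rw [le_div_iff₀ (by norm_num)]
            calc (1 : ℝ) * 9 ≤ u := by linarith
              _ = u ^ 1 := by ring
              _ ≤ u ^ 59 := pow_le_pow_right₀ hu1 (by norm_num)
        _ = (R * u ^ 100) / 9 := by ring
        _ ≤ (9 * v) / 9 := by gcongr
        _ ≤ 2 * v := by linarith
  have hR2n : 2 ≤ R := by omega
  have hM2 : ∀ y ≤ N, ∑ f ∈ Ioc R (8 * R), Real.sqrt f * Mn f (fun ψ => ‖PS y f ψ‖) ≤ N / u ^ 10 := by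
    intro y hy
    have h1 := mean_blocks N U L R (8 * R) hU1 hUN hNL hR2n h8RN u hu1
      (fun m hm => by
        rw [mem_Icc] at hm
        exact hdiv m (by omega) (by omega)) (by rw [← hg]; linarith) (N / u ^ 11) (by positivity) hM1 y hy
    refine h1.trans ?_
    calc (L : ℝ) * (N / u ^ 11) ≤ u * (N / u ^ 11) := by gcongr
      _ = N / u ^ 10 := by field_simp
  -- the size of SS
  obtain ⟨S, hS⟩ : ∃ S : ℝ, S = ((SS H R).card : ℝ) := ⟨_, rfl⟩
  obtain ⟨r, hr⟩ : ∃ r : ℝ, r = ((RP R).card : ℝ) := ⟨_, rfl⟩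
  have hSr : S = H * r := by rw [hS, hr, SS_card]
  rw [← hr] at hRP
  have hr0 : 0 < r := by
    by_contra hcon
    have h1 : r = 0 := le_antisymm (not_lt.1 hcon) (by rw [hr]; positivity)
    rw [h1] at hRP
    linarith
  have hr8 : r ≤ 8 * R := by
    rw [hr]
    have : (RP R).card ≤ 8 * R := by
      unfold RP
      calc ((Ioc R (8 * R)).filter Nat.Prime).card ≤ (Ioc R (8 * R)).card := card_filter_le _ _
        _ = 8 * R - R := Nat.card_Ioc _ _
        _ ≤ 8 * R := Nat.sub_le _ _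
    exact_mod_cast this
  have hS0 : 0 < S := by rw [hSr]; positivity
  have hHR2 : 2 * H ≤ R := by omega
  have hSle : S * u ^ 40 ≤ 72 * v := by
    calc S * u ^ 40 ≤ (u ^ 60 * (8 * R)) * u ^ 40 := by rw [hSr]; gcongr
      _ = 8 * (R * u ^ 100) := by ring
      _ ≤ 8 * (9 * v) := by gcongr
      _ = 72 * v := by ring
  have hS1 : S ^ 2 * u ≤ Q := by
    calc S ^ 2 * u ≤ S ^ 2 * u ^ 80 := by
          gcongr
          calc u = u ^ 1 := by ring
            _ ≤ u ^ 80 := pow_le_pow_right₀ hu1 (by norm_num)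
      _ = (S * u ^ 40) ^ 2 := by ring
      _ ≤ (72 * v) ^ 2 := by gcongr
      _ = v ^ 2 * 5184 := by ring
      _ ≤ v ^ 2 * u ^ 160 := by
          gcongr
          calc (5184 : ℝ) ≤ u := by linarith
            _ = u ^ 1 := by ring
            _ ≤ u ^ 160 := pow_le_pow_right₀ hu1 (by norm_num)
      _ ≤ Q := hQv
  have hS2 : (H : ℝ) ^ 2 ≤ S * g := by
    calc (H : ℝ) ^ 2 = H * H := by ring
      _ ≤ H * (2 * R) := by gcongr; linarith
      _ ≤ H * (r * g) := by gcongr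
      _ = S * g := by rw [hSr]; ring
  have hD : ∀ m : ℕ, 0 < m → m ≤ 1024 * H * R ^ 3 → (m.divisors.card : ℝ) ≤ u := by
    intro m hm1 hm2
    refine hdiv m hm1 (hm2.trans ?_)
    have h1 : (1024 : ℝ) * H * R ^ 3 ≤ N := by
      have h2 : (1024 * (H : ℝ) * R ^ 3) * u ^ 300 ≤ N * u ^ 300 := by
        calc (1024 * (H : ℝ) * R ^ 3) * u ^ 300 = 1024 * (H : ℝ) * (R * u ^ 100) ^ 3 := by ring
          _ ≤ 1024 * u ^ 60 * (9 * v) ^ 3 := by gcongr
          _ = v ^ 3 * u ^ 60 * 746496 := by ring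
          _ ≤ v ^ 3 * u ^ 60 * u := by gcongr; linarith
          _ = v ^ 3 * u ^ 61 := by ring
          _ ≤ v ^ 3 * u ^ 300 := by
              gcongr
              norm_num
          _ = N * u ^ 300 := by rw [hv3]
      exact le_of_mul_le_mul_right h2 (by positivity)
    have h2 : 1024 * H * R ^ 3 ≤ N := by exact_mod_cast h1
    omega
  -- the exceptional set
  obtain ⟨T, hT⟩ : ∃ T : ℝ, T = g ^ (k + 2) := ⟨_, rfl⟩
  have hT1 : 1 ≤ T := by rw [hT]; exact one_le_pow₀ hg1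
  have hT0 : 0 < T := by linarith
  set X : ℕ → ℝ := fun q => (q.divisors.card : ℝ) + (∑ b ∈ range q, ‖high q R0 (Zc N q) b‖ ^ 2) / N +
      En q H R / ((SS H R).card : ℝ) ^ 2 with hX
  have hXsum : ∑ q ∈ Ioc Q (2 * Q), X q ≤ Q * g ^ 2 :=
    sum_X N Q H R R0 u g hQn hQ2 hg (by linarith) hHR2 hu0.le hD hR0pos hR01 (by rw [← hS]; exact hS0)
      (by rw [← hS]; exact hS1) (by rw [← hS]; exact hS2)
  have hE0 : ∀ q, 0 ≤ En q H R := fun q => by unfold En; positivity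
  have hX0 : ∀ q ∈ Ioc Q (2 * Q), 0 ≤ X q := by
    intro q _
    have := hE0 q
    rw [hX]
    positivity
  refine ⟨(Ioc Q (2 * Q)).filter (fun q => T < X q), filter_subset _ _, ?_, ?_⟩
  · refine (markov _ X hX0 T _ hT0 hXsum).trans (le_of_eq ?_)
    rw [hT, pow_add]
    field_simp
  · intro q hq hqE
    rw [mem_filter, not_and, not_lt] at hqE
    have hXq := hqE hq
    rw [hX] at hXq
    simp only at hXq
    have hq' := hq
    rw [mem_Ioc] at hq'
    have hτ0 : (0 : ℝ) ≤ q.divisors.card := by positivity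
    have hZ0 : 0 ≤ (∑ b ∈ range q, ‖high q R0 (Zc N q) b‖ ^ 2) / N := by positivity
    have hEn0 : 0 ≤ En q H R / ((SS H R).card : ℝ) ^ 2 := by
      have := hE0 q
      positivity
    have hτT : (q.divisors.card : ℝ) ≤ T := by linarith
    have hZ : ∑ b ∈ range q, ‖high q R0 (Zc N q) b‖ ^ 2 ≤ N * T := by
      have h1 : (∑ b ∈ range q, ‖high q R0 (Zc N q) b‖ ^ 2) / N ≤ T := by linarith
      rw [div_le_iff₀ hNR] at h1
      linarith
    have hE : En q H R ≤ ((SS H R).card : ℝ) ^ 2 * T := by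
      have h1 : En q H R / ((SS H R).card : ℝ) ^ 2 ≤ T := by linarith
      rw [← hS] at h1 ⊢
      rw [div_le_iff₀ (by positivity)] at h1
      linarith
    have hmod := one_mod N Q q H R R0 u v T (by linarith) hv3 hv1 (by rw [← hg]; exact hg1) (by rw [← hg]; exact hlogu)
      hQv hQ2 hq hH1 hH2 hR1 hR2 hR01 hR02 (hdiv q (by omega) (by omega)) hT1 hτT hZ hE hM2
      (by rw [← hg, ← hr]; exact hRP) (by rw [← hg]; exact hP)
    rw [← hg] at hmod
    obtain ⟨w, hw⟩ : ∃ w : ℝ, w = Real.sqrt (N * Q) := ⟨_, rfl⟩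
    obtain ⟨z, hz⟩ : ∃ z : ℝ, z = Real.sqrt (N * q) := ⟨_, rfl⟩
    rw [← hw] at hmod
    rw [← hz]
    have hqQ : (Q : ℝ) ≤ q := by exact_mod_cast hq'.1.le
    have hq2Q : (q : ℝ) ≤ 2 * Q := by exact_mod_cast hq'.2
    have hw0 : 0 ≤ w := by rw [hw]; exact Real.sqrt_nonneg _
    have hz0 : 0 ≤ z := by rw [hz]; exact Real.sqrt_nonneg _
    have hzw : z ≤ 2 * w := by
      rw [hz, hw, Real.sqrt_le_left (by positivity), mul_pow, Real.sq_sqrt (by positivity)]
      calc (N : ℝ) * q ≤ N * (2 * Q) := by gcongr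
        _ ≤ 2 ^ 2 * (N * Q) := by
            have : 0 ≤ (N : ℝ) * Q := by positivity
            linarith
    have hvw : v ≤ z := by
      rw [hz]
      apply Real.le_sqrt_of_sq_le
      calc v ^ 2 = v ^ 2 * 1 := by ring
        _ ≤ v ^ 2 * u ^ 160 := by gcongr; exact one_le_pow₀ hu1
        _ ≤ Q := hQv
        _ ≤ q := hqQ
        _ = 1 * q := by ring
        _ ≤ N * q := by gcongr
    have hTg : g ^ 3 * T ^ 5 * g = g ^ (5 * k + 14) := by
      rw [hT, ← pow_mul, ← pow_add, ← pow_succ]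
      congr 1
      ring
    -- T ≤ z / g^(5k+14) / ...
    have hTz : 2 ^ 5 * T ≤ z / g ^ (5 * k + 14) := by
      rw [le_div_iff₀ (by positivity)]
      calc 2 ^ 5 * T * g ^ (5 * k + 14) ≤ g * T * g ^ (5 * k + 14) := by gcongr; linarith
        _ = g ^ (6 * k + 17) := by
            rw [hT]
            rw [← pow_succ', ← pow_add]
            congr 1
            ring
        _ ≤ g ^ (6 * k + 20) := pow_le_pow_right₀ hg1 (by omega)
        _ ≤ v := hgv
        _ ≤ z := hvw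
    have hmain : 4 * (z / g ^ (5 * k + 14)) ≤ w / (2 ^ 25 * g ^ 3 * T ^ 5) := by
      rw [← hTg, ← mul_div_assoc, div_le_div_iff₀ (by positivity) (by positivity)]
      calc 4 * z * (2 ^ 25 * g ^ 3 * T ^ 5) ≤ 4 * (2 * w) * (2 ^ 25 * g ^ 3 * T ^ 5) := by gcongr
        _ = w * (g ^ 3 * T ^ 5 * 2 ^ 28) := by ring
        _ ≤ w * (g ^ 3 * T ^ 5 * g) := by gcongr; linarith
    constructor
    · linarith
    · linarith

end

end Pool.Agent.H52.LO
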