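import Mathlib
import Pool.Agent.H52.LO.A3

/-!
The higher additive energies of the fractions `h / r` modulo `q`.
-/

set_option autoImplicit false

open Finset

namespace Pool.Agent.H52.LO

open Pool.Agent.H52

noncomputable section

/-- the signed sum of the numerators over the prime `ρ` -/
def cs {n : ℕ} (ε : Fin n → ℤ) (s : Fin n → ℕ × ℕ) (ρ : ℕ) : ℤ :=
  ∑ i ∈ univ.filter (fun i => (s i).2 = ρ), ε i * (s i).1

/-- the primes of a tuple -/
def TT {n : ℕ} (s : Fin n → ℕ × ℕ) : Finset ℕ := univ.image (fun i => (s i).2)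

/-- the common numerator -/
def YY {n : ℕ} (ε : Fin n → ℤ) (s : Fin n → ℕ × ℕ) : ℤ :=
  ∑ ρ ∈ TT s, ((∏ ρ' ∈ (TT s).erase ρ, ρ' : ℕ) : ℤ) * cs ε s ρ

/-- tuples for which all the group sums vanish -/
def good {n : ℕ} (ε : Fin n → ℤ) (H R : ℕ) : Finset (Fin n → ℕ × ℕ) :=
  (Fintype.piFinset (fun _ : Fin n => SS H R)).filter (fun s => ∀ i, cs ε s (s i).2 = 0)

lemma YY_cong (q n : ℕ) (hq : 1 < q) (ε : Fin n → ℤ) (s : Fin n → ℕ × ℕ) (hs : ∀ i, ((s i).2).Coprime q)
    (h : ((∑ i, ε i * (fr q (s i) : ℤ) : ℤ) : ZMod q) = 0) : (q : ℤ) ∣ YY ε s := by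
  rw [← ZMod.intCast_zmod_eq_zero_iff_dvd]
  have h1 : ((YY ε s : ℤ) : ZMod q) = ((∏ ρ ∈ TT s, ρ : ℕ) : ZMod q) * ((∑ i, ε i * (fr q (s i) : ℤ) : ℤ) : ZMod q) := by
    have h2 : (∑ i, ε i * (fr q (s i) : ℤ) : ℤ) = ∑ ρ ∈ TT s, (iv q ρ : ℤ) * cs ε s ρ := by
      unfold cs TT
      rw [← sum_fiberwise_of_maps_to (s := univ) (t := univ.image (fun i => (s i).2)) (g := fun i => (s i).2)
        (fun i hi => mem_image_of_mem _ hi)]
      apply sum_congr rfl
      intro ρ _
      rw [mul_sum]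
      apply sum_congr rfl
      intro i hi
      rw [mem_filter] at hi
      unfold fr
      rw [hi.2]
      push_cast
      ring
    rw [h2]
    unfold YY
    push_cast
    rw [mul_sum]
    apply sum_congr rfl
    intro ρ hρ
    rw [← mul_prod_erase (TT s) (fun ρ => (ρ : ZMod q)) hρ]
    have hc : ρ.Coprime q := by
      unfold TT at hρ
      rw [mem_image] at hρ
      obtain ⟨i, _, rfl⟩ := hρ
      exact hs i
    have h3 := iv_spec q ρ hq hc
    linear_combination (-(∏ ρ' ∈ (TT s).erase ρ, (ρ' : ZMod q)) * ((cs ε s ρ : ℤ) : ZMod q)) * h3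
  rw [h1, h, mul_zero]

lemma cs_abs (n H R : ℕ) (ε : Fin n → ℤ) (hε : ∀ i, |ε i| ≤ 1) (s : Fin n → ℕ × ℕ) (hs : ∀ i, s i ∈ SS H R) (ρ : ℕ) :
    |cs ε s ρ| ≤ (univ.filter (fun i => (s i).2 = ρ)).card * H := by
  unfold cs
  refine (abs_sum_le_sum_abs _ _).trans ?_
  rw [← nsmul_eq_mul, ← sum_const]
  apply sum_le_sum
  intro i _
  rw [abs_mul]
  have h1 := (SS_facts H R (s i) (hs i)).2.1
  have h2 : |((s i).1 : ℤ)| ≤ H := by
    rw [abs_of_nonneg (by positivity)]
    exact_mod_cast h1
  calc |ε i| * |((s i).1 : ℤ)| ≤ 1 * |((s i).1 : ℤ)| := mul_le_mul_of_nonneg_right (hε i) (abs_nonneg _)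
    _ ≤ H := by rw [one_mul]; exact h2

lemma YY_abs (n H R : ℕ) (ε : Fin n → ℤ) (hε : ∀ i, |ε i| ≤ 1) (s : Fin n → ℕ × ℕ) (hs : ∀ i, s i ∈ SS H R) :
    |YY ε s| ≤ n * H * (8 * R) ^ (n - 1) := by
  unfold YY
  refine (abs_sum_le_sum_abs _ _).trans ?_
  have hR : ∀ ρ ∈ TT s, 1 ≤ ρ ∧ ρ ≤ 8 * R := by
    intro ρ hρ
    unfold TT at hρ
    rw [mem_image] at hρ
    obtain ⟨i, _, rfl⟩ := hρ
    have := SS_facts H R (s i) (hs i)
    exact ⟨this.2.2.2.2.pos, this.2.2.2.1⟩
  have h1 : ∀ ρ ∈ TT s, |((∏ ρ' ∈ (TT s).erase ρ, ρ' : ℕ) : ℤ) * cs ε s ρ| ≤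
      (8 * R : ℤ) ^ (n - 1) * ((univ.filter (fun i => (s i).2 = ρ)).card * H) := by
    intro ρ hρ
    rw [abs_mul]
    apply mul_le_mul _ (cs_abs n H R ε hε s hs ρ) (abs_nonneg _) (by positivity)
    rw [abs_of_nonneg (by positivity)]
    have h2 : ∏ ρ' ∈ (TT s).erase ρ, ρ' ≤ (8 * R) ^ ((TT s).erase ρ).card :=
      prod_le_pow_card _ _ _ (fun ρ' hρ' => (hR ρ' (mem_of_mem_erase hρ')).2)
    have h3 : ((TT s).erase ρ).card ≤ n - 1 := by
      rw [card_erase_of_mem hρ]
      have : (TT s).card ≤ n := by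
        unfold TT
        refine card_image_le.trans ?_
        simp
      omega
    have h4 : 1 ≤ 8 * R := (hR ρ hρ).1.trans (hR ρ hρ).2
    have h5 : ∏ ρ' ∈ (TT s).erase ρ, ρ' ≤ (8 * R) ^ (n - 1) := h2.trans (Nat.pow_le_pow_right h4 h3)
    exact_mod_cast h5
  refine (sum_le_sum h1).trans ?_
  rw [← mul_sum, ← sum_mul]
  have h6 : ∑ ρ ∈ TT s, ((univ.filter (fun i => (s i).2 = ρ)).card : ℤ) = n := by
    rw [← Nat.cast_sum]
    have h7 := card_eq_sum_card_image (fun i => (s i).2) (univ : Finset (Fin n))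
    rw [card_univ, Fintype.card_fin] at h7
    unfold TT
    exact_mod_cast h7.symm
  rw [h6]
  apply le_of_eq
  ring

lemma YY_zero (n H R : ℕ) (ε : Fin n → ℤ) (hε : ∀ i, |ε i| ≤ 1) (s : Fin n → ℕ × ℕ) (hs : ∀ i, s i ∈ SS H R)
    (hnH : n * H ≤ R) (h : YY ε s = 0) (i : Fin n) : cs ε s (s i).2 = 0 := by
  set ρ := (s i).2 with hρdef
  have hi := SS_facts H R (s i) (hs i)
  have hρ : ρ ∈ TT s := mem_image_of_mem _ (mem_univ i)
  have h1 : (ρ : ℤ) ∣ ((∏ ρ' ∈ (TT s).erase ρ, ρ' : ℕ) : ℤ) * cs ε s ρ := by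
    have h2 : YY ε s = ((∏ ρ' ∈ (TT s).erase ρ, ρ' : ℕ) : ℤ) * cs ε s ρ +
        ∑ σ ∈ (TT s).erase ρ, ((∏ ρ' ∈ (TT s).erase σ, ρ' : ℕ) : ℤ) * cs ε s σ := by
      unfold YY
      rw [add_sum_erase (TT s) (fun σ => ((∏ ρ' ∈ (TT s).erase σ, ρ' : ℕ) : ℤ) * cs ε s σ) hρ]
    have h3 : (ρ : ℤ) ∣ ∑ σ ∈ (TT s).erase ρ, ((∏ ρ' ∈ (TT s).erase σ, ρ' : ℕ) : ℤ) * cs ε s σ := by
      apply dvd_sum
      intro σ hσ
      apply Dvd.dvd.mul_right
      have h4 : ρ ∣ ∏ ρ' ∈ (TT s).erase σ, ρ' :=
        dvd_prod_of_mem _ (mem_erase.2 ⟨(ne_of_mem_erase hσ).symm, hρ⟩)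
      exact_mod_cast h4
    rw [h] at h2
    have h5 : ((∏ ρ' ∈ (TT s).erase ρ, ρ' : ℕ) : ℤ) * cs ε s ρ =
        -∑ σ ∈ (TT s).erase ρ, ((∏ ρ' ∈ (TT s).erase σ, ρ' : ℕ) : ℤ) * cs ε s σ := by linarith
    rw [h5]
    exact (dvd_neg).2 h3
  have hprime : Prime (ρ : ℤ) := Nat.prime_iff_prime_int.1 hi.2.2.2.2
  rcases hprime.dvd_or_dvd h1 with h2 | h2
  · exfalso
    have h3 : ρ ∣ ∏ ρ' ∈ (TT s).erase ρ, ρ' := by exact_mod_cast h2
    rw [Prime.dvd_finset_prod_iff (Nat.prime_iff.1 hi.2.2.2.2)] at h3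
    obtain ⟨σ, hσ, h4⟩ := h3
    have hσT := mem_of_mem_erase hσ
    unfold TT at hσT
    rw [mem_image] at hσT
    obtain ⟨j, _, hj⟩ := hσT
    have hσp : Nat.Prime σ := by
      rw [← hj]
      exact (SS_facts H R (s j) (hs j)).2.2.2.2
    have := (Nat.prime_dvd_prime_iff_eq hi.2.2.2.2 hσp).1 h4
    exact (ne_of_mem_erase hσ) this.symm
  · apply int_dvd_small ρ _ h2
    have h3 := cs_abs n H R ε hε s hs ρ
    have h4 : (univ.filter (fun i => (s i).2 = ρ)).card ≤ n := by
      refine (card_filter_le _ _).trans ?_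
      simp
    have h5 : (((univ.filter (fun i => (s i).2 = ρ)).card : ℤ)) * H ≤ n * H := by
      apply mul_le_mul_of_nonneg_right _ (by positivity)
      exact_mod_cast h4
    have h6 : (n : ℤ) * H < ρ := by
      have : n * H < ρ := lt_of_le_of_lt hnH hi.2.2.1
      exact_mod_cast this
    linarith

/-- the leader of the class of an index -/
def lead {n : ℕ} (s : Fin n → ℕ × ℕ) (i : Fin n) : Fin n :=
  (univ.filter (fun j => (s j).2 = (s i).2)).max' ⟨i, by simp⟩

lemma lead_spec {n : ℕ} (s : Fin n → ℕ × ℕ) (i : Fin n) : (s (lead s i)).2 = (s i).2 := by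
  have := max'_mem (univ.filter (fun j => (s j).2 = (s i).2)) ⟨i, by simp⟩
  rw [mem_filter] at this
  exact this.2

lemma lead_eq {n : ℕ} (s : Fin n → ℕ × ℕ) (i j : Fin n) (h : (s i).2 = (s j).2) : lead s i = lead s j := by
  unfold lead
  simp only [h]

lemma lead_idem {n : ℕ} (s : Fin n → ℕ × ℕ) (i : Fin n) : lead s (lead s i) = lead s i :=
  lead_eq s _ _ (lead_spec s i)

lemma image_card {n : ℕ} (ε : Fin n → ℤ) (hε0 : ∀ i, ε i ≠ 0) (H R : ℕ) (s : Fin n → ℕ × ℕ) (hs : s ∈ good ε H R) :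
    2 * (univ.image (lead s)).card ≤ n := by
  unfold good at hs
  rw [mem_filter, Fintype.mem_piFinset] at hs
  have h1 := card_eq_sum_card_image (lead s) (univ : Finset (Fin n))
  rw [card_univ, Fintype.card_fin] at h1
  have h2 : ∀ j ∈ univ.image (lead s), 2 ≤ (univ.filter (fun i => lead s i = j)).card := by
    intro j hj
    rw [mem_image] at hj
    obtain ⟨i0, _, rfl⟩ := hj
    set j := lead s i0 with hj
    have hjj : lead s j = j := lead_idem s i0
    by_contra hcon
    push Not at hcon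
    have h3 : univ.filter (fun i => (s i).2 = (s j).2) = {j} := by
      apply Subset.antisymm
      · intro i hi
        rw [mem_filter] at hi
        rw [mem_singleton]
        by_contra hne
        have h4 : ({i, j} : Finset (Fin n)) ⊆ univ.filter (fun i => lead s i = j) := by
          intro k hk
          rw [mem_insert, mem_singleton] at hk
          rw [mem_filter]
          refine ⟨mem_univ _, ?_⟩
          rcases hk with rfl | rfl
          · rw [lead_eq s _ _ hi.2, hjj]
          · exact hjj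
        have h5 := card_le_card h4
        rw [card_pair hne] at h5
        omega
      · intro i hi
        rw [mem_singleton] at hi
        rw [hi, mem_filter]
        exact ⟨mem_univ _, rfl⟩
    have h4 := hs.2 j
    unfold cs at h4
    rw [h3, sum_singleton] at h4
    have h5 := (SS_facts H R (s j) (hs.1 j)).1
    have h6 : ((s j).1 : ℤ) ≠ 0 := by
      have : (s j).1 ≠ 0 := by omega
      exact_mod_cast this
    exact (mul_ne_zero (hε0 j) h6) h4
  have h3 : 2 * (univ.image (lead s)).card ≤ ∑ b ∈ univ.image (lead s), (univ.filter (fun i => lead s i = b)).card := by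
    rw [mul_comm, ← smul_eq_mul, ← sum_const]
    exact sum_le_sum h2
  omega

lemma code_card {n : ℕ} (ε : Fin n → ℤ) (hε0 : ∀ i, ε i ≠ 0) (H R : ℕ) (f : Fin n → Fin n) :
    ((good ε H R).filter (fun s => lead s = f)).card ≤
      ∏ i : Fin n, (if i ∈ univ.image f then (RP R).card else H) := by
  have h0 : ∏ i : Fin n, (if i ∈ univ.image f then (RP R).card else H) =
      (Fintype.piFinset (fun i : Fin n => if i ∈ univ.image f then RP R else Icc 1 H)).card := by
    rw [Fintype.card_piFinset]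
    apply prod_congr rfl
    intro i _
    split_ifs
    · rfl
    · simp
  rw [h0]
  apply card_le_card_of_injOn (fun s => fun i => if i ∈ univ.image f then (s i).2 else (s i).1)
  · intro s hs
    rw [mem_coe, mem_filter] at hs
    unfold good at hs
    rw [mem_filter, Fintype.mem_piFinset] at hs
    rw [mem_coe, Fintype.mem_piFinset]
    intro i
    have h1 := hs.1.1 i
    unfold SS at h1
    rw [mem_product] at h1
    simp only
    split_ifs
    · exact h1.2
    · exact h1.1
  · intro s hs t ht hst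
    rw [mem_coe, mem_filter] at hs ht
    unfold good at hs ht
    rw [mem_filter, Fintype.mem_piFinset] at hs ht
    have hcode : ∀ i, (if i ∈ univ.image f then (s i).2 else (s i).1) =
        (if i ∈ univ.image f then (t i).2 else (t i).1) := fun i => congrFun hst i
    have hfs : ∀ i, lead s i = f i := fun i => congrFun hs.2 i
    have hft : ∀ i, lead t i = f i := fun i => congrFun ht.2 i
    have hr : ∀ i, (s i).2 = (t i).2 := by
      intro i
      have h1 := hcode (f i)
      rw [if_pos (mem_image_of_mem _ (mem_univ i)), if_pos (mem_image_of_mem _ (mem_univ i))] at h1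
      have h2 := lead_spec s i
      have h3 := lead_spec t i
      rw [hfs] at h2
      rw [hft] at h3
      rw [← h2, ← h3, h1]
    have hh : ∀ i, i ∉ univ.image f → (s i).1 = (t i).1 := by
      intro i hi
      have h1 := hcode i
      rwa [if_neg hi, if_neg hi] at h1
    funext i
    by_cases hi : i ∈ univ.image f
    · have hfi : f i = i := by
        rw [mem_image] at hi
        obtain ⟨j, _, hj⟩ := hi
        rw [← hj, ← hfs j, ← hfs (lead s j)]
        exact lead_idem s j
      have h1 := hs.1.2 i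
      have h2 := ht.1.2 i
      unfold cs at h1 h2
      have hset : univ.filter (fun j => (t j).2 = (t i).2) = univ.filter (fun j => (s j).2 = (s i).2) := by
        apply filter_congr
        intro j _
        rw [hr, hr]
      rw [hset] at h2
      have hmem : i ∈ univ.filter (fun j => (s j).2 = (s i).2) := by
        rw [mem_filter]
        exact ⟨mem_univ _, rfl⟩
      rw [← add_sum_erase _ _ hmem] at h1 h2
      have hrest : ∑ j ∈ (univ.filter (fun j => (s j).2 = (s i).2)).erase i, ε j * ((s j).1 : ℤ) =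
          ∑ j ∈ (univ.filter (fun j => (s j).2 = (s i).2)).erase i, ε j * ((t j).1 : ℤ) := by
        apply sum_congr rfl
        intro j hj
        rw [mem_erase, mem_filter] at hj
        have hjim : j ∉ univ.image f := by
          intro hjim
          have hfj : f j = j := by
            rw [mem_image] at hjim
            obtain ⟨k, _, hk⟩ := hjim
            rw [← hk, ← hfs k, ← hfs (lead s k)]
            exact lead_idem s k
          have h3 := lead_eq s j i hj.2.2
          rw [hfs, hfs, hfj, hfi] at h3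
          exact hj.1 h3
        rw [hh j hjim]
      have h3 : ε i * ((s i).1 : ℤ) = ε i * ((t i).1 : ℤ) := by
        rw [hrest] at h1
        linarith
      have h4 := mul_left_cancel₀ (hε0 i) h3
      have h5 : (s i).1 = (t i).1 := by exact_mod_cast h4
      exact Prod.ext h5 (hr i)
    · exact Prod.ext (hh i hi) (hr i)

theorem good_card {n k : ℕ} (hn : n = 2 * k) (ε : Fin n → ℤ) (hε0 : ∀ i, ε i ≠ 0) (H R : ℕ) (B : ℝ)
    (hB1 : ((RP R).card : ℝ) ≤ B) (hB2 : (H : ℝ) ≤ B) :
    ((good ε H R).card : ℝ) ≤ (n : ℝ) ^ n * (B * H) ^ k := by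
  have hB0 : 0 ≤ B := le_trans (by positivity) hB2
  have h1 : (good ε H R).card = ∑ f : Fin n → Fin n, ((good ε H R).filter (fun s => lead s = f)).card :=
    card_eq_sum_card_fiberwise (fun s _ => mem_univ _)
  rw [h1]
  push_cast
  have h2 : ∀ f ∈ (univ : Finset (Fin n → Fin n)), (((good ε H R).filter (fun s => lead s = f)).card : ℝ) ≤ (B * H) ^ k := by
    intro f _
    rcases ((good ε H R).filter (fun s => lead s = f)).eq_empty_or_nonempty with h3 | ⟨s, hs⟩
    · rw [h3, card_empty]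
      push_cast
      positivity
    · rw [mem_filter] at hs
      have h4 := image_card ε hε0 H R s hs.1
      rw [hs.2] at h4
      have h5 := code_card ε hε0 H R f
      have h6 : ∏ i : Fin n, (if i ∈ univ.image f then (RP R).card else H) =
          (RP R).card ^ (univ.image f).card * H ^ (n - (univ.image f).card) := by
        rw [prod_ite, prod_const, prod_const, filter_mem_eq_inter, univ_inter]
        congr 2
        have h7 : (univ.filter (fun i => i ∉ univ.image f)) = univ \ univ.image f := by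
          ext i
          simp
        rw [h7, card_sdiff_of_subset (subset_univ _), card_univ, Fintype.card_fin]
      rw [h6] at h5
      obtain ⟨j, hj⟩ : ∃ j, j = (univ.image f).card := ⟨_, rfl⟩
      rw [← hj] at h4 h5
      have hjk : j ≤ k := by omega
      calc (((good ε H R).filter (fun s => lead s = f)).card : ℝ) ≤ (((RP R).card ^ j * H ^ (n - j) : ℕ) : ℝ) := by
            exact_mod_cast h5
        _ = ((RP R).card : ℝ) ^ j * ((H : ℝ) ^ (k - j) * (H : ℝ) ^ k) := by
            push_cast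
            rw [← pow_add]
            congr 2
            omega
        _ ≤ B ^ j * (B ^ (k - j) * (H : ℝ) ^ k) := by gcongr
        _ = (B ^ j * B ^ (k - j)) * (H : ℝ) ^ k := by ring
        _ = (B * H) ^ k := by
            rw [← pow_add, mul_pow]
            congr 2
            omega
  refine (sum_le_sum h2).trans (le_of_eq ?_)
  rw [sum_const, card_univ, nsmul_eq_mul]
  congr 1
  simp

end

end Pool.Agent.H52.LO
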