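import Mathlib
import Pool.Agent.H52.LO.B1
import Pool.Agent.H52.LO.A8

/-!
Higher moments and Hölder's inequality for one modulus.
-/

set_option autoImplicit false

open Finset

namespace Pool.Agent.H52.LO

open Pool.Agent.H52

noncomputable section

lemma ee_sum {ι : Type*} [DecidableEq ι] (s : Finset ι) (x : ι → ℝ) : ee (∑ i ∈ s, x i) = ∏ i ∈ s, ee (x i) := by
  induction s using Finset.induction_on with
  | empty =>
    rw [sum_empty, prod_empty]
    unfold ee
    simp
  | insert a s ha ih =>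
    rw [sum_insert ha, prod_insert ha, ls_ee_add, ih]

/-- the higher energy -/
def Ek (k q H R : ℕ) : ℝ :=
  ((((Fintype.piFinset (fun _ : Fin k => Sq q H R)) ×ˢ (Fintype.piFinset (fun _ : Fin k => Sq q H R))).filter
    (fun x => (∑ i, fr q (x.1 i)) ≡ (∑ i, fr q (x.2 i)) [MOD q])).card : ℝ)

lemma moment (k q H R : ℕ) (hq : 0 < q) :
    ∑ b ∈ range q, ‖WT q H R b‖ ^ (2 * k) = q * Ek k q H R := by
  unfold Ek
  rw [← second q hq (Fintype.piFinset (fun _ : Fin k => Sq q H R)) (fun t => ∑ i, fr q (t i))]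
  apply sum_congr rfl
  intro b _
  rw [mul_comm 2 k, pow_mul, ← norm_pow]
  congr 2
  unfold WT
  rw [sum_pow']
  apply sum_congr rfl
  intro t _
  rw [← ee_sum]
  congr 1
  push_cast
  rw [sum_mul, sum_div]

theorem Ek_le (k q H R : ℕ) (hq : 1 < q) (hnH : (k + k) * H ≤ R)
    (hbig : (k + k) * H * (8 * R) ^ (k + k - 1) < q) (B : ℝ)
    (hB1 : ((RP R).card : ℝ) ≤ B) (hB2 : (H : ℝ) ≤ B) :
    Ek k q H R ≤ ((k + k : ℕ) : ℝ) ^ (k + k) * (B * H) ^ k := by
  set ε : Fin (k + k) → ℤ := Fin.append (fun _ => 1) (fun _ => -1) with hε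
  have hε0 : ∀ i, ε i ≠ 0 := by
    intro i
    refine Fin.addCases ?_ ?_ i
    · intro j
      rw [hε, Fin.append_left]
      norm_num
    · intro j
      rw [hε, Fin.append_right]
      norm_num
  have hε1 : ∀ i, |ε i| ≤ 1 := by
    intro i
    refine Fin.addCases ?_ ?_ i
    · intro j
      rw [hε, Fin.append_left]
      norm_num
    · intro j
      rw [hε, Fin.append_right]
      norm_num
  refine le_trans ?_ (good_card (n := k + k) (k := k) (by ring) ε hε0 H R B hB1 hB2)
  unfold Ek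
  apply Nat.cast_le.2
  apply card_le_card_of_injOn (fun x => Fin.append x.1 x.2)
  · rintro ⟨t, t'⟩ hx
    rw [mem_coe, mem_filter, mem_product, Fintype.mem_piFinset, Fintype.mem_piFinset] at hx
    obtain ⟨⟨ht, ht'⟩, hcong⟩ := hx
    simp only at ht ht' hcong
    simp only
    rw [mem_coe]
    set s : Fin (k + k) → ℕ × ℕ := Fin.append t t' with hs
    have hsS : ∀ i, s i ∈ Sq q H R := by
      intro i
      refine Fin.addCases ?_ ?_ i
      · intro j
        rw [hs, Fin.append_left]
        exact ht j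
      · intro j
        rw [hs, Fin.append_right]
        exact ht' j
    have hsS' : ∀ i, s i ∈ SS H R := fun i => Sq_sub q H R (hsS i)
    have hcop : ∀ i, ((s i).2).Coprime q := by
      intro i
      have := hsS i
      unfold Sq at this
      rw [mem_product, mem_filter] at this
      exact this.2.2
    have hsum : ((∑ i, ε i * (fr q (s i) : ℤ) : ℤ) : ZMod q) = 0 := by
      have h1 : (∑ i, ε i * (fr q (s i) : ℤ) : ℤ) = ((∑ i, fr q (t i) : ℕ) : ℤ) - ((∑ i, fr q (t' i) : ℕ) : ℤ) := by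
        rw [Fin.sum_univ_add]
        simp only [hε, hs, Fin.append_left, Fin.append_right]
        push_cast
        simp only [one_mul, neg_mul, sum_neg_distrib]
        ring
      rw [h1]
      have h2 : ((∑ i, fr q (t i) : ℕ) : ZMod q) = ((∑ i, fr q (t' i) : ℕ) : ZMod q) :=
        (ZMod.natCast_eq_natCast_iff _ _ _).2 hcong
      rw [Int.cast_sub, Int.cast_natCast, Int.cast_natCast, h2, sub_self]
    have hdvd := YY_cong q (k + k) hq ε s hcop hsum
    have habs := YY_abs (k + k) H R ε hε1 s hsS'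
    have hY : YY ε s = 0 := by
      apply int_dvd_small q _ hdvd
      refine lt_of_le_of_lt habs ?_
      exact_mod_cast hbig
    unfold good
    rw [mem_filter, Fintype.mem_piFinset]
    exact ⟨hsS', fun i => YY_zero (k + k) H R ε hε1 s hsS' hnH hY i⟩
  · rintro ⟨t, t'⟩ _ ⟨w, w'⟩ _ h
    simp only at h
    have h1 : t = w := by
      funext i
      have := congrFun h (Fin.castAdd k i)
      rwa [Fin.append_left, Fin.append_left] at this
    have h2 : t' = w' := by
      funext i
      have := congrFun h (Fin.natAdd k i)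
      rwa [Fin.append_right, Fin.append_right] at this
    rw [h1, h2]

/-- Jensen -/
lemma jensen {ι : Type*} (s : Finset ι) (w f : ι → ℝ) (hw : ∀ i ∈ s, 0 ≤ w i) (hf : ∀ i ∈ s, 0 ≤ f i) (n : ℕ) :
    (∑ i ∈ s, w i * f i) ^ (n + 1) ≤ (∑ i ∈ s, w i) ^ n * ∑ i ∈ s, w i * f i ^ (n + 1) := by
  rcases (sum_nonneg hw).eq_or_lt with h0 | h0
  · have h1 : ∀ i ∈ s, w i = 0 := (sum_eq_zero_iff_of_nonneg hw).1 h0.symm
    have h2 : ∑ i ∈ s, w i * f i = 0 := sum_eq_zero fun i hi => by rw [h1 i hi, zero_mul]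
    have h3 : ∑ i ∈ s, w i * f i ^ (n + 1) = 0 := sum_eq_zero fun i hi => by rw [h1 i hi, zero_mul]
    rw [h2, h3, mul_zero]
    simp
  · obtain ⟨W, hW⟩ : ∃ W, W = ∑ i ∈ s, w i := ⟨_, rfl⟩
    rw [← hW] at h0 ⊢
    have h1 := Real.pow_arith_mean_le_arith_mean_pow s (fun i => w i / W) f
      (fun i hi => div_nonneg (hw i hi) h0.le) (by rw [← sum_div, ← hW]; exact div_self h0.ne') hf (n + 1)
    have h2 : ∑ i ∈ s, w i / W * f i = (∑ i ∈ s, w i * f i) / W := by
      rw [sum_div]
      exact sum_congr rfl fun i _ => by ring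
    have h3 : ∑ i ∈ s, w i / W * f i ^ (n + 1) = (∑ i ∈ s, w i * f i ^ (n + 1)) / W := by
      rw [sum_div]
      exact sum_congr rfl fun i _ => by ring
    rw [h2, h3, div_pow, div_le_iff₀ (by positivity)] at h1
    refine h1.trans (le_of_eq ?_)
    rw [pow_succ W n, div_mul_eq_mul_div, div_eq_iff h0.ne']
    ring

/-- Hölder's inequality with a pointwise bound -/
theorem holder_sup (k q H R N : ℕ) (c K A : ℝ) (hq : 0 < q) (hA : 0 ≤ A) (hk : 1 ≤ k)
    (hK : ∀ b ∈ range q, ‖Dc N q c b‖ ≤ K) (h : A ≤ ‖∑ b ∈ range q, Dc N q c b * WT q H R b‖) :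
    A ^ (2 * k) ≤ (∑ b ∈ range q, ‖Dc N q c b‖) ^ (2 * k - 1) * (K * (q * Ek k q H R)) := by
  have h1 : A ≤ ∑ b ∈ range q, ‖Dc N q c b‖ * ‖WT q H R b‖ := by
    refine h.trans ((norm_sum_le _ _).trans (le_of_eq ?_))
    exact sum_congr rfl fun b _ => norm_mul _ _
  have h2 := jensen (range q) (fun b => ‖Dc N q c b‖) (fun b => ‖WT q H R b‖) (fun b _ => norm_nonneg _)
    (fun b _ => norm_nonneg _) (2 * k - 1)
  rw [show 2 * k - 1 + 1 = 2 * k by omega] at h2
  refine (pow_le_pow_left₀ hA h1 _).trans (h2.trans ?_)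
  apply mul_le_mul_of_nonneg_left _ (by positivity)
  rw [← moment k q H R hq, mul_sum]
  apply sum_le_sum
  intro b hb
  exact mul_le_mul_of_nonneg_right (hK b hb) (by positivity)

/-- a product of integers -/
lemma prod_le (T : Finset ℕ) (hT : ∀ p ∈ T, 2 ≤ p) : ∏ p ∈ T, p ≤ (T.card + 1) * ∏ p ∈ T, (p - 1) := by
  induction T using Finset.induction_on_max with
  | empty => simp
  | insert a s hs ih =>
    have ha : a ∉ s := fun h => lt_irrefl _ (hs a h)
    have hs2 : ∀ p ∈ s, 2 ≤ p := fun p hp => hT p (mem_insert_of_mem hp)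
    have ih' := ih hs2
    rw [prod_insert ha, prod_insert ha, card_insert_of_notMem ha]
    have h1 : s.card + 2 ≤ a := by
      have h2 : s ⊆ Ico 2 a := fun p hp => mem_Ico.2 ⟨hs2 p hp, hs p hp⟩
      have h3 := card_le_card h2
      rw [Nat.card_Ico] at h3
      have h4 := hT a (mem_insert_self _ _)
      omega
    obtain ⟨m, rfl⟩ : ∃ m, a = m + 1 := ⟨a - 1, by omega⟩
    rw [Nat.add_sub_cancel]
    calc (m + 1) * ∏ p ∈ s, p ≤ (m + 1) * ((s.card + 1) * ∏ p ∈ s, (p - 1)) := Nat.mul_le_mul_left _ ih'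
      _ = ((m + 1) * (s.card + 1)) * ∏ p ∈ s, (p - 1) := by ring
      _ ≤ ((s.card + 1 + 1) * m) * ∏ p ∈ s, (p - 1) := by
          apply Nat.mul_le_mul_right
          nlinarith
      _ = (s.card + 1 + 1) * (m * ∏ p ∈ s, (p - 1)) := by ring

lemma totient_log (q : ℕ) (hq : 0 < q) : q ≤ Nat.totient q * (Nat.log 2 q + 1) := by
  have h1 := Nat.totient_mul_prod_primeFactors q
  have h2 := prod_le q.primeFactors (fun p hp => (Nat.prime_of_mem_primeFactors hp).two_le)
  have h3 : q.primeFactors.card ≤ Nat.log 2 q := by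
    apply Nat.le_log_of_pow_le (by norm_num)
    calc 2 ^ q.primeFactors.card ≤ ∏ p ∈ q.primeFactors, p :=
          pow_card_le_prod _ _ _ (fun p hp => (Nat.prime_of_mem_primeFactors hp).two_le)
      _ ≤ q := Nat.le_of_dvd hq (Nat.prod_primeFactors_dvd q)
  have h4 : 0 < ∏ p ∈ q.primeFactors, (p - 1) := by
    apply prod_pos
    intro p hp
    have := (Nat.prime_of_mem_primeFactors hp).two_le
    omega
  have h5 : q * ∏ p ∈ q.primeFactors, (p - 1) ≤
      (Nat.totient q * (Nat.log 2 q + 1)) * ∏ p ∈ q.primeFactors, (p - 1) := by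
    rw [← h1]
    calc Nat.totient q * ∏ p ∈ q.primeFactors, p ≤
          Nat.totient q * ((q.primeFactors.card + 1) * ∏ p ∈ q.primeFactors, (p - 1)) := Nat.mul_le_mul_left _ h2
      _ ≤ Nat.totient q * ((Nat.log 2 q + 1) * ∏ p ∈ q.primeFactors, (p - 1)) := by
          apply Nat.mul_le_mul_left
          apply Nat.mul_le_mul_right
          omega
      _ = _ := by ring
  exact Nat.le_of_mul_le_mul_right h5 h4

/-- the pointwise bound -/
lemma Dc_sup (N q : ℕ) (hq : 0 < q) (hqN : q ≤ N) (g : ℝ) (hg : g = Real.log N) (hg1 : 2 ≤ g) (b : ℕ) :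
    ‖Dc N q (((Pr N).card : ℝ) / Nat.totient q) b‖ ≤ 3 * g * N / q := by
  have hq0 : (0 : ℝ) < q := by exact_mod_cast hq
  have hN0 : (0 : ℝ) < N := by exact_mod_cast (by omega : 0 < N)
  have hqNR : (q : ℝ) ≤ N := by exact_mod_cast hqN
  have hφ0 : (0 : ℝ) < Nat.totient q := by exact_mod_cast Nat.totient_pos.2 hq
  have hg0 : 0 < g := by linarith
  have h1 : pc N q b ≤ 2 * N / q := by
    unfold pc
    have h2 : ((Icc 1 N).filter (fun p => Nat.Prime p ∧ p % q = b)).card ≤ N / q + 1 := by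
      have h3 : ((Icc 1 N).filter (fun p => Nat.Prime p ∧ p % q = b)).card ≤ (range (N / q + 1)).card := by
        apply card_le_card_of_injOn (fun p => p / q)
        · intro p hp
          rw [mem_coe, mem_filter, mem_Icc] at hp
          rw [mem_coe, mem_range]
          exact Nat.lt_succ_of_le (Nat.div_le_div_right hp.1.2)
        · intro p hp p' hp' h
          rw [mem_coe, mem_filter] at hp hp'
          simp only at h
          rw [← Nat.div_add_mod p q, ← Nat.div_add_mod p' q, h, hp.2.2, hp'.2.2]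
      rwa [card_range] at h3
    have h3 : (((Icc 1 N).filter (fun p => Nat.Prime p ∧ p % q = b)).card : ℝ) ≤ ((N / q : ℕ) : ℝ) + 1 := by
      exact_mod_cast h2
    have h4 : ((N / q : ℕ) : ℝ) ≤ N / q := Nat.cast_div_le
    have h5 : (1 : ℝ) ≤ N / q := by rw [le_div_iff₀ hq0]; linarith
    have h6 : 2 * (N : ℝ) / q = N / q + N / q := by ring
    rw [h6]
    linarith
  have hpc0 : 0 ≤ pc N q b := by unfold pc; positivity
  have h2 : ((Pr N).card : ℝ) / Nat.totient q ≤ 3 * g * N / q := by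
    have hP : ((Pr N).card : ℝ) ≤ N := by
      unfold Pr
      have : ((Icc 1 N).filter Nat.Prime).card ≤ N := by
        calc ((Icc 1 N).filter Nat.Prime).card ≤ (Icc 1 N).card := card_filter_le _ _
          _ = N := by simp
      exact_mod_cast this
    have h3 := totient_log q hq
    have h4 : (q : ℝ) ≤ Nat.totient q * (3 * g) := by
      have h5 : (q : ℝ) ≤ Nat.totient q * (Nat.log 2 q + 1) := by exact_mod_cast h3
      refine h5.trans ?_
      apply mul_le_mul_of_nonneg_left _ hφ0.le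
      have hl2 : 0.6931471803 < Real.log 2 := Real.log_two_gt_d9
      have e1 : (Nat.log 2 q : ℝ) * Real.log 2 ≤ g := by
        have h1 : 2 ^ Nat.log 2 q ≤ q := Nat.pow_log_le_self 2 (by omega)
        have h2 : (2 : ℝ) ^ Nat.log 2 q ≤ N := by
          have : (2 : ℝ) ^ Nat.log 2 q ≤ q := by exact_mod_cast h1
          linarith
        have h3 := Real.log_le_log (by positivity) h2
        rwa [Real.log_pow, ← hg] at h3
      have e2 : (0 : ℝ) ≤ Nat.log 2 q := by positivity
      have e4 := mul_le_mul_of_nonneg_left hl2.le e2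
      linarith only [e1, e4, hg1]
    rw [div_le_div_iff₀ hφ0 hq0]
    calc ((Pr N).card : ℝ) * q ≤ N * (Nat.totient q * (3 * g)) := by gcongr
      _ = _ := by ring
  have hc0 : 0 ≤ ((Pr N).card : ℝ) / Nat.totient q := by positivity
  have h3 : 2 * (N : ℝ) / q ≤ 3 * g * N / q := by
    apply div_le_div_of_nonneg_right _ hq0.le
    nlinarith
  unfold Dc Zc gc
  split_ifs
  · rw [mul_one, ← Complex.ofReal_sub, Complex.norm_real, Real.norm_eq_abs, abs_le]
    constructor <;> linarith
  · rw [mul_zero, sub_zero, Complex.norm_real, Real.norm_of_nonneg hpc0]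
    linarith

end

end Pool.Agent.H52.LO
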