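import Mathlib
import Pool.Agent.H52.LO.B2
import Pool.Agent.H52.LO.A9

/-!
The lower bound for the mean absolute error for every modulus.
-/

set_option autoImplicit false

open Finset Filter

namespace Pool.Agent.H52.LO

open Pool.Agent.H52

noncomputable section

/-- the correlation for one modulus -/
theorem corr_one (N Q q H R : ℕ) (u v : ℝ) (hu : 2 ^ 13 ≤ u) (hv3 : v ^ 3 = N) (hv1 : 1 ≤ v)
    (hlog1 : 1 ≤ Real.log N) (hlogu : 2 * Real.log N ≤ u) (hQv : v ^ 2 * u ^ 150 ≤ Q) (hQN : Q ≤ N)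
    (hq : q ∈ Ioc Q (2 * Q)) (hH1 : u ^ 60 / 2 ≤ H) (hH2 : (H : ℝ) ≤ u ^ 60)
    (hR1 : 8 * H * N ≤ Q * R) (hRv : (R : ℝ) * u ^ 89 ≤ v)
    (hτu : (q.divisors.card : ℝ) ≤ u)
    (hM : ∀ y ≤ N, ∑ f ∈ Ioc R (8 * R), Real.sqrt f * Mn f (fun ψ => ‖PS y f ψ‖) ≤ N / u ^ 10)
    (hRP : 2 * (R : ℝ) ≤ ((RP R).card : ℝ) * Real.log N) (hP : (N : ℝ) / 4 ≤ ((Pr N).card : ℝ) * Real.log N) :
    ((SS H R).card : ℝ) * ((Pr N).card : ℝ) / (256 * R) ≤
      ‖∑ b ∈ range q, Dc N q (((Pr N).card : ℝ) / Nat.totient q) b * WT q H R b‖ := by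
  obtain ⟨g, hg⟩ : ∃ g, g = Real.log N := ⟨_, rfl⟩
  rw [← hg] at hlog1 hlogu hRP hP
  obtain ⟨P, hPdef⟩ : ∃ P : ℝ, P = ((Pr N).card : ℝ) := ⟨_, rfl⟩
  obtain ⟨S, hSdef⟩ : ∃ S : ℝ, S = ((SS H R).card : ℝ) := ⟨_, rfl⟩
  obtain ⟨S', hS'def⟩ : ∃ S' : ℝ, S' = ((Sq q H R).card : ℝ) := ⟨_, rfl⟩
  obtain ⟨r, hrdef⟩ : ∃ r : ℝ, r = ((RP R).card : ℝ) := ⟨_, rfl⟩
  obtain ⟨τ, hτdef⟩ : ∃ τ : ℝ, τ = (q.divisors.card : ℝ) := ⟨_, rfl⟩
  rw [← hPdef] at hP ⊢
  rw [← hSdef]
  rw [← hrdef] at hRP
  rw [← hτdef] at hτu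
  have hSr : S = H * r := by rw [hSdef, hrdef, SS_card]
  have hq' := hq
  rw [mem_Ioc] at hq'
  have hu0 : 0 < u := lt_of_lt_of_le (by norm_num) hu
  have hu1 : 1 ≤ u := le_trans (by norm_num) hu
  have hv0 : 0 < v := by linarith
  have hg0 : 0 < g := by linarith
  have hN0 : (0 : ℝ) < N := by rw [← hv3]; positivity
  have hQ0 : (0 : ℝ) < Q := lt_of_lt_of_le (by positivity) hQv
  have hQn : 0 < Q := by exact_mod_cast hQ0
  have hqQ : (Q : ℝ) ≤ q := by exact_mod_cast hq'.1.le
  have hq0 : (0 : ℝ) < q := by linarith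
  have hq2Q : (q : ℝ) ≤ 2 * Q := by exact_mod_cast hq'.2
  have hQNR : (Q : ℝ) ≤ N := by exact_mod_cast hQN
  have hτ0 : 0 ≤ τ := by rw [hτdef]; positivity
  have hτ1 : 1 ≤ τ := by
    rw [hτdef]
    have : 0 < q.divisors.card := card_pos.2 (Nat.nonempty_divisors.2 (by omega))
    exact_mod_cast this
  have hH0 : (0 : ℝ) < H := lt_of_lt_of_le (by positivity) hH1
  have hHn : 0 < H := by exact_mod_cast hH0
  have hR1R : 8 * (H : ℝ) * N ≤ Q * R := by exact_mod_cast hR1
  have hR8H : 8 * (H : ℝ) ≤ R := by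
    have h1 : (Q : ℝ) * (8 * H) ≤ Q * R := by
      calc (Q : ℝ) * (8 * H) ≤ N * (8 * H) := by gcongr
        _ = 8 * H * N := by ring
        _ ≤ Q * R := hR1R
    exact le_of_mul_le_mul_left h1 hQ0
  have hR0' : (0 : ℝ) < R := by linarith
  have hRn : 0 < R := by exact_mod_cast hR0'
  have hHR : 2 * H ≤ R := by
    have : 8 * H ≤ R := by exact_mod_cast hR8H
    omega
  have hgu : g ≤ u / 2 := by linarith
  have hPu : (N : ℝ) ≤ 2 * (P * u) := by
    have hP0 : 0 ≤ P := by rw [hPdef]; positivity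
    have : P * g ≤ P * (u / 2) := mul_le_mul_of_nonneg_left hgu hP0
    linarith
  have hP0 : 0 < P := by
    by_contra hcon
    have h1 : P = 0 := le_antisymm (not_lt.1 hcon) (by rw [hPdef]; positivity)
    rw [h1] at hPu
    linarith
  have hPN : P ≤ N := by
    rw [hPdef]
    unfold Pr
    have : ((Icc 1 N).filter Nat.Prime).card ≤ N := by
      calc ((Icc 1 N).filter Nat.Prime).card ≤ (Icc 1 N).card := card_filter_le _ _
        _ = N := by simp
    exact_mod_cast this
  have hr0 : 0 ≤ r := by rw [hrdef]; positivity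
  have hru : 2 * u ≤ r := by
    have h1 : r * g ≤ r * (u / 2) := mul_le_mul_of_nonneg_left hgu hr0
    have h2 : 8 * u ^ 60 ≤ r * (u / 2) := by linarith
    have h3 : 2 * u * (u / 2) ≤ r * (u / 2) := by
      calc 2 * u * (u / 2) = u ^ 2 := by ring
        _ ≤ u ^ 60 := pow_le_pow_right₀ hu1 (by norm_num)
        _ ≤ 8 * u ^ 60 := by
            have : 0 < u ^ 60 := by positivity
            linarith
        _ ≤ r * (u / 2) := h2
    exact le_of_mul_le_mul_right h3 (by positivity)
  have hS'S : S ≤ 2 * S' := by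
    have h1 := Sq_card q H R (by omega)
    rw [← hrdef, ← hτdef, ← hS'def] at h1
    have h2 : r / 2 ≤ r - τ := by linarith
    have h3 := mul_le_mul_of_nonneg_left h2 hH0.le
    rw [hSr]
    linarith
  have hr00 : 0 < r := by linarith
  have hS0 : 0 < S := by rw [hSr]; positivity
  have hS'0 : 0 < S' := by linarith
  -- P is large compared with R
  have hPR : 128 * (R : ℝ) ≤ P := by
    have h1 : (R : ℝ) * u ^ 2 ≤ v := by
      refine le_trans ?_ hRv
      gcongr
      norm_num
    have h2 : 256 * (R : ℝ) * u ≤ 2 * (P * u) := by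
      refine le_trans ?_ hPu
      rw [← hv3]
      calc 256 * (R : ℝ) * u = (R * u) * 256 := by ring
        _ ≤ (R * u) * u := by gcongr; linarith
        _ = R * u ^ 2 := by ring
        _ = 1 * (R * u ^ 2) := by ring
        _ ≤ 9 * v := by gcongr; norm_num
        _ ≤ v ^ 2 * v := by
            gcongr
            have h3 : u ^ 150 ≤ v := by
              have h4 : v ^ 2 * u ^ 150 ≤ v ^ 2 * v := by
                calc v ^ 2 * u ^ 150 ≤ Q := hQv
                  _ ≤ N := hQNR
                  _ = v ^ 2 * v := by rw [← hv3]; ring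
              exact le_of_mul_le_mul_left h4 (by positivity)
            have h5 : u ≤ v := by
              calc u = u ^ 1 := by ring
                _ ≤ u ^ 150 := pow_le_pow_right₀ hu1 (by norm_num)
                _ ≤ v := h3
            nlinarith
        _ = v ^ 3 := by ring
    have h3 : (128 * (R : ℝ)) * (2 * u) ≤ P * (2 * u) := by linarith
    exact le_of_mul_le_mul_right h3 (by positivity)
  have hR1' : (1 : ℝ) ≤ R := by exact_mod_cast hRn
  have hP2 : 2 ≤ P := by linarith
  -- the constant c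
  obtain ⟨c, hc⟩ : ∃ c : ℝ, c = P / Nat.totient q := ⟨_, rfl⟩
  rw [← hc]
  have hφ : (q : ℝ) / τ ≤ Nat.totient q := totient_ge q τ (by omega) (by linarith) (by rw [hτdef])
  have hφ0 : (0 : ℝ) < Nat.totient q := lt_of_lt_of_le (by positivity) hφ
  have hc0 : 0 ≤ c := by rw [hc]; positivity
  have hcq : c * q ≤ P * τ := by
    rw [hc, div_mul_eq_mul_div, div_le_iff₀ hφ0]
    rw [div_le_iff₀ (by linarith)] at hφ
    calc P * q ≤ P * (Nat.totient q * τ) := by gcongr
      _ = P * τ * Nat.totient q := by ring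
  have hcR : c * (τ * H) * (128 * R) ≤ P := by
    have h1 : c * (τ * H) * (128 * R) * q ≤ P * q := by
      calc c * (τ * H) * (128 * R) * q = (c * q) * (τ * H * (128 * R)) := by ring
        _ ≤ (P * τ) * (τ * H * (128 * R)) := by gcongr
        _ ≤ (P * u) * (u * u ^ 60 * (128 * R)) := by gcongr
        _ = P * (128 * (u ^ 62 * R)) := by ring
        _ ≤ P * (u * (u ^ 62 * R)) := by gcongr; linarith
        _ = P * (R * u ^ 63) := by ring
        _ ≤ P * (R * u ^ 89) := by
            gcongr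
            norm_num
        _ ≤ P * v := by gcongr
        _ = P * (v * 1) := by ring
        _ ≤ P * (v * (v * u ^ 150)) := by
            gcongr
            calc (1 : ℝ) = 1 * 1 := by ring
              _ ≤ v * u ^ 150 := by
                  gcongr
                  exact one_le_pow₀ hu1
        _ = P * (v ^ 2 * u ^ 150) := by ring
        _ ≤ P * q := by
            gcongr
            linarith
    exact le_of_mul_le_mul_right h1 hq0
  -- the correlation
  have hcorr := corr N Q q H R hQn hq hHR hRn hR1 (by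
    have h1 : (1 : ℝ) ≤ ((Pr N).card : ℝ) := by rw [← hPdef]; linarith
    exact_mod_cast h1) (N / u ^ 10) (by positivity) hM c hc0
  rw [← hPdef, ← hS'def, ← hτdef] at hcorr
  refine le_trans ?_ hcorr
  have e1 : P / (32 * R) ≤ (P - 1) / (16 * R) := by
    rw [div_le_div_iff₀ (by positivity) (by positivity)]
    nlinarith
  have e2 : 1 ≤ P / (128 * R) := by
    rw [le_div_iff₀ (by positivity)]
    linarith
  have e3 : c * (τ * H) ≤ P / (128 * R) := by
    rw [le_div_iff₀ (by positivity)]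
    exact hcR
  have e4 : 2 * (H : ℝ) * (N / u ^ 10) ≤ S' * (P / (128 * R)) := by
    -- S' g ≥ H R
    have h1 : (H : ℝ) * R ≤ S' * g := by
      have h2 : (H : ℝ) * (2 * R) ≤ S * g := by
        rw [hSr]
        calc (H : ℝ) * (2 * R) ≤ H * (r * g) := by gcongr
          _ = H * r * g := by ring
      nlinarith
    have h2 : (H : ℝ) * R * (N / 4) ≤ (S' * g) * (P * g) := by gcongr
    have h3 : (S' * g) * (P * g) ≤ S' * P * (u / 2) ^ 2 := by
      calc (S' * g) * (P * g) = S' * P * g ^ 2 := by ring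
        _ ≤ S' * P * (u / 2) ^ 2 := by gcongr
    have h4 : (H : ℝ) * R * N ≤ S' * P * u ^ 2 := by
      have : S' * P * (u / 2) ^ 2 = S' * P * u ^ 2 / 4 := by ring
      linarith
    rw [← mul_div_assoc, ← mul_div_assoc, div_le_div_iff₀ (by positivity) (by positivity)]
    calc 2 * (H : ℝ) * N * (128 * R) = 256 * (H * R * N) := by ring
      _ ≤ 256 * (S' * P * u ^ 2) := by gcongr
      _ = S' * P * (256 * u ^ 2) := by ring
      _ ≤ S' * P * (u * u ^ 2) := by gcongr; linarith
      _ = S' * P * u ^ 3 := by ring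
      _ ≤ S' * P * u ^ 10 := by
          gcongr
          norm_num
  have e5 : P / (32 * R) = 4 * (P / (128 * R)) := by
    field_simp
    ring
  have e6 : 2 * (P / (128 * R)) ≤ (P - 1) / (16 * R) - 1 - c * (τ * H) := by linarith
  have e7 := mul_le_mul_of_nonneg_left e6 hS'0.le
  have e8 : S * P / (256 * R) ≤ S' * (P / (128 * R)) := by
    have : S * P / (256 * R) = S / 2 * (P / (128 * R)) := by
      field_simp
      ring
    rw [this]
    gcongr
    linarith
  linarith

end

end Pool.Agent.H52.LO
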