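import Mathlib
import Pool.Agent.H52.LO.B3

/-!
The lower bound for the mean absolute error for every modulus: the final estimate.
-/

set_option autoImplicit false

open Finset Filter

namespace Pool.Agent.H52.LO

open Pool.Agent.H52

noncomputable section

/-- the mean value of the prime sums over the conductors between `R` and `8 R` -/
lemma mean_RP (N R : ℕ) (u v : ℝ) (hN1 : 1 ≤ N) (hu : 2 ^ 32 ≤ u) (hv3 : v ^ 3 = N) (hv1 : 1 ≤ v)
    (hlog32 : 2 ^ 32 ≤ Real.log N) (hlogu : 2 * Real.log N ≤ u)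
    (hdiv : ∀ n : ℕ, 0 < n → n ≤ 2 * N → (n.divisors.card : ℝ) ≤ u)
    (hRu : u ^ 60 ≤ R) (hRv : (R : ℝ) * u ^ 89 ≤ v) :
    ∀ y ≤ N, ∑ f ∈ Ioc R (8 * R), Real.sqrt f * Mn f (fun ψ => ‖PS y f ψ‖) ≤ N / u ^ 10 := by
  obtain ⟨g, hg⟩ : ∃ g, g = Real.log N := ⟨_, rfl⟩
  rw [← hg] at hlog32 hlogu
  have hu0 : 0 < u := lt_of_lt_of_le (by norm_num) hu
  have hu1 : 1 ≤ u := le_trans (by norm_num) hu
  have hv0 : 0 < v := by linarith
  set U : ℕ := ⌊v⌋₊ with hUdef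
  set L : ℕ := Nat.log 2 N + 1 with hLdef
  have hR0' : (0 : ℝ) < R := lt_of_lt_of_le (by positivity) hRu
  have hvN : v ≤ N := by
    rw [← hv3]
    calc v = v * 1 := by ring
      _ ≤ v * v ^ 2 := by gcongr; exact one_le_pow₀ hv1
      _ = v ^ 3 := by ring
  have h8Rv : 8 * (R : ℝ) ≤ v := by
    calc 8 * (R : ℝ) = R * 8 := by ring
      _ ≤ R * u ^ 89 := by
          gcongr
          calc (8 : ℝ) ≤ u := by linarith
            _ = u ^ 1 := by ring
            _ ≤ u ^ 89 := pow_le_pow_right₀ hu1 (by norm_num)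
      _ ≤ v := hRv
  have h8RN : 8 * R ≤ N := by
    have : 8 * (R : ℝ) ≤ N := h8Rv.trans hvN
    exact_mod_cast this
  have hUv : (U : ℝ) ≤ v := Nat.floor_le hv0.le
  have hU1 : 1 ≤ U := by
    rw [hUdef]
    exact Nat.le_floor (by simpa using hv1)
  have hvU : v ≤ 2 * U := by
    have e1 : v < U + 1 := Nat.lt_floor_add_one _
    have e2 : (1 : ℝ) ≤ U := by exact_mod_cast hU1
    linarith
  have hUN : U * U * U ≤ N := by
    have e1 : (U : ℝ) * U * U ≤ N := by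
      rw [← hv3]
      calc (U : ℝ) * U * U = (U : ℝ) ^ 3 := by ring
        _ ≤ v ^ 3 := pow_le_pow_left₀ (by positivity) hUv 3
    exact_mod_cast e1
  have hNL : N < 2 ^ L := Nat.lt_pow_succ_log_self (by norm_num) _
  have hl2 : 0.6931471803 < Real.log 2 := Real.log_two_gt_d9
  have hl2' : Real.log 2 < 0.6931471808 := Real.log_two_lt_d9
  have hLu : (L : ℝ) ≤ u := by
    have e1 : (Nat.log 2 N : ℝ) * Real.log 2 ≤ g := by
      have h1 : 2 ^ Nat.log 2 N ≤ N := Nat.pow_log_le_self 2 (by omega)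
      have h2 : (2 : ℝ) ^ Nat.log 2 N ≤ N := by exact_mod_cast h1
      have h3 := Real.log_le_log (by positivity) h2
      rwa [Real.log_pow, ← hg] at h3
    have e2 : (0 : ℝ) ≤ Nat.log 2 N := by positivity
    have e3 : (L : ℝ) = Nat.log 2 N + 1 := by rw [hLdef]; push_cast; ring
    rw [e3]
    have e4 := mul_le_mul_of_nonneg_left hl2.le e2
    linarith only [e1, e4, hlogu, hlog32]
  have hM1 : ∀ F : ℕ, R ≤ F → F ≤ 8 * R →
      Real.sqrt (2 * F) * (2 * (BB N U L F u + (F + 1) * (2 * Real.sqrt N * Real.log N))) ≤ N / u ^ 11 := by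
    intro F hF1 hF2
    have hFR : (F : ℝ) ≤ 8 * R := by exact_mod_cast hF2
    have hRF : (R : ℝ) ≤ F := by exact_mod_cast hF1
    have hFN : F ≤ N := hF2.trans h8RN
    have hFpos : (0 : ℝ) < F := by linarith
    apply block_size N U L F u u v (by linarith) hv3 hv1 hUv hvU hLu le_rfl hu0.le (by rw [← hg]; linarith)
    · have e1 : Real.log (2 * F) ≤ Real.log 2 + Real.log N := by
        rw [Real.log_mul (by norm_num) hFpos.ne']
        have := Real.log_le_log hFpos (by exact_mod_cast hFN : (F : ℝ) ≤ N)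
        linarith
      rw [← hg] at e1
      linarith
    · have e1 : u ^ 40 ≤ u ^ 60 := pow_le_pow_right₀ hu1 (by norm_num)
      linarith
    · rw [le_div_iff₀ (by positivity)]
      calc (F : ℝ) * u ^ 40 ≤ (8 * R) * u ^ 40 := by gcongr
        _ = (R * u ^ 40) * 8 := by ring
        _ ≤ (R * u ^ 40) * u := by gcongr; linarith
        _ = (R * u ^ 41) := by ring
        _ ≤ (R * u ^ 89) := by
            gcongr
            norm_num
        _ ≤ 2 * v := by linarith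
  have hR2n : 2 ≤ R := by
    have : (2 : ℝ) ≤ R := by
      calc (2 : ℝ) ≤ u := by linarith
        _ = u ^ 1 := by ring
        _ ≤ u ^ 60 := pow_le_pow_right₀ hu1 (by norm_num)
        _ ≤ R := hRu
    exact_mod_cast this
  intro y hy
  have h1 := mean_blocks N U L R (8 * R) hU1 hUN hNL hR2n h8RN u hu1
    (fun m hm => by
      rw [mem_Icc] at hm
      exact hdiv m (by omega) (by omega)) (by rw [← hg]; linarith) (N / u ^ 11) (by positivity) hM1 y hy
  refine h1.trans ?_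
  calc (L : ℝ) * (N / u ^ 11) ≤ u * (N / u ^ 11) := by gcongr
    _ = N / u ^ 10 := by field_simp

/-- the algebra -/
lemma alg (k : ℕ) (hk : 1 ≤ k) (N Q q H R S P g X κ : ℝ) (hN : 0 < N) (hQ : 0 < Q) (hq : 0 < q) (hH : 0 < H)
    (hR : 0 < R) (hS : 0 < S) (hP : 0 < P) (hg : 0 < g) (hX : 0 ≤ X)
    (h : (S * P / (256 * R)) ^ (2 * k) ≤ X ^ (2 * k - 1) * (3 * g * N / q * (q * ((2 * k : ℝ) ^ (2 * k) * (g * S) ^ k))))
    (hS1 : 2 * H * R ≤ S * g) (hP1 : N / 4 ≤ P * g) (hQR : Q * R ≤ κ * H * N) (hκ : 0 < κ) (hqQ : q ≤ 2 * Q) :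
    q ^ k * N ^ (k - 1) ≤ (2 ^ k * κ ^ k * 3 * (2 * k : ℝ) ^ (2 * k) * 1024 ^ (2 * k)) * g ^ (4 * k + 1) * X ^ (2 * k - 1) := by
  obtain ⟨Y, hY⟩ : ∃ Y, Y = X ^ (2 * k - 1) := ⟨_, rfl⟩
  have hY0 : 0 ≤ Y := by rw [hY]; positivity
  obtain ⟨D, hD⟩ : ∃ D, D = (2 * k : ℝ) ^ (2 * k) := ⟨_, rfl⟩
  have hD0 : 0 < D := by rw [hD]; positivity
  rw [← hY, ← hD] at h ⊢
  -- step 1
  have h1 : S ^ k * P ^ (2 * k) ≤ Y * (3 * N * D * g ^ (k + 1) * (256 * R) ^ (2 * k)) := by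
    have e1 : S ^ k * (S ^ k * P ^ (2 * k)) ≤ S ^ k * (Y * (3 * N * D * g ^ (k + 1) * (256 * R) ^ (2 * k))) := by
      have e2 : (S * P / (256 * R)) ^ (2 * k) * (256 * R) ^ (2 * k) = S ^ k * (S ^ k * P ^ (2 * k)) := by
        rw [← mul_pow, div_mul_cancel₀ _ (by positivity), mul_pow, two_mul, pow_add S]
        ring
      rw [← e2]
      calc (S * P / (256 * R)) ^ (2 * k) * (256 * R) ^ (2 * k) ≤
            (Y * (3 * g * N / q * (q * (D * (g * S) ^ k)))) * (256 * R) ^ (2 * k) := by gcongr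
        _ = S ^ k * (Y * (3 * N * D * g ^ (k + 1) * (256 * R) ^ (2 * k))) := by
            rw [mul_pow g S k]
            field_simp
            ring
    exact le_of_mul_le_mul_left e1 (by positivity)
  -- step 2
  have h2 : (H * R) ^ k * N ^ (2 * k) ≤ (S ^ k * P ^ (2 * k)) * (4 ^ (2 * k) * g ^ (3 * k)) := by
    have e1 : (H * R) ^ k ≤ (S * g) ^ k := by
      apply pow_le_pow_left₀ (by positivity)
      have : 0 < H * R := by positivity
      linarith
    have e2 : N ^ (2 * k) ≤ (4 * (P * g)) ^ (2 * k) := by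
      apply pow_le_pow_left₀ hN.le
      linarith
    calc (H * R) ^ k * N ^ (2 * k) ≤ (S * g) ^ k * (4 * (P * g)) ^ (2 * k) := by gcongr
      _ = (S ^ k * P ^ (2 * k)) * (4 ^ (2 * k) * g ^ (3 * k)) := by
          rw [mul_pow, mul_pow, mul_pow, show 3 * k = k + 2 * k by ring, pow_add g k]
          ring
  -- step 3
  have h3 : H ^ k * N ^ (2 * k) ≤ Y * (3 * N * D * g ^ (4 * k + 1) * 1024 ^ (2 * k)) * R ^ k := by
    have e1 : (H ^ k * N ^ (2 * k)) * R ^ k ≤ (Y * (3 * N * D * g ^ (4 * k + 1) * 1024 ^ (2 * k)) * R ^ k) * R ^ k := by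
      calc (H ^ k * N ^ (2 * k)) * R ^ k = (H * R) ^ k * N ^ (2 * k) := by rw [mul_pow]; ring
        _ ≤ (S ^ k * P ^ (2 * k)) * (4 ^ (2 * k) * g ^ (3 * k)) := h2
        _ ≤ (Y * (3 * N * D * g ^ (k + 1) * (256 * R) ^ (2 * k))) * (4 ^ (2 * k) * g ^ (3 * k)) := by gcongr
        _ = Y * (3 * N * D * (g ^ (k + 1) * g ^ (3 * k)) * ((256 * R) ^ (2 * k) * 4 ^ (2 * k))) := by ring
        _ = (Y * (3 * N * D * g ^ (4 * k + 1) * 1024 ^ (2 * k)) * R ^ k) * R ^ k := by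
            rw [← pow_add, ← mul_pow, show k + 1 + 3 * k = 4 * k + 1 by ring,
              show (256 * R * 4) = 1024 * R by ring, mul_pow, two_mul, pow_add R]
            ring
    exact le_of_mul_le_mul_right e1 (by positivity)
  -- step 4
  have h4 : Q ^ k * N ^ (k - 1) ≤ Y * (3 * D * g ^ (4 * k + 1) * 1024 ^ (2 * k)) * κ ^ k := by
    have e0 : N ^ (2 * k) = N ^ (k - 1) * (N * N ^ k) := by
      rw [← pow_succ', ← pow_add]
      congr 1
      omega
    have e1 : (H ^ k * (N * N ^ k)) * (Q ^ k * N ^ (k - 1)) ≤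
        (H ^ k * (N * N ^ k)) * (Y * (3 * D * g ^ (4 * k + 1) * 1024 ^ (2 * k)) * κ ^ k) := by
      calc (H ^ k * (N * N ^ k)) * (Q ^ k * N ^ (k - 1)) = Q ^ k * (H ^ k * N ^ (2 * k)) := by rw [e0]; ring
        _ ≤ Q ^ k * (Y * (3 * N * D * g ^ (4 * k + 1) * 1024 ^ (2 * k)) * R ^ k) := by gcongr
        _ = (Y * (3 * N * D * g ^ (4 * k + 1) * 1024 ^ (2 * k))) * (Q * R) ^ k := by rw [mul_pow]; ring
        _ ≤ (Y * (3 * N * D * g ^ (4 * k + 1) * 1024 ^ (2 * k))) * (κ * H * N) ^ k := by gcongr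
        _ = _ := by rw [mul_pow, mul_pow]; ring
    exact le_of_mul_le_mul_left e1 (by positivity)
  calc q ^ k * N ^ (k - 1) ≤ (2 * Q) ^ k * N ^ (k - 1) := by gcongr
    _ = 2 ^ k * (Q ^ k * N ^ (k - 1)) := by rw [mul_pow]; ring
    _ ≤ 2 ^ k * (Y * (3 * D * g ^ (4 * k + 1) * 1024 ^ (2 * k)) * κ ^ k) := by gcongr
    _ = _ := by ring

theorem every_k (k : ℕ) (hk : 2 ≤ k) (δ : ℝ) (hδ : 0 < δ) (hδ2 : δ ≤ 1 / (2 * k)) : ∃ x0 : ℕ, ∀ N : ℕ, x0 ≤ N →
    ∀ q : ℕ, (N : ℝ) ^ (1 - 1 / (2 * k) + δ) ≤ q → q ≤ N →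
    0 < q ∧ 1 ≤ Real.log N ∧
    3 * ((q * ((N : ℝ) / q) ^ (((k : ℝ) - 1) / (2 * k - 1))) / (Real.log N) ^ 4) ≤
      L1 N q (((Pr N).card : ℝ) / Nat.totient q) ∧
    (q.divisors.card : ℝ) ≤ (q * ((N : ℝ) / q) ^ (((k : ℝ) - 1) / (2 * k - 1))) / (Real.log N) ^ 4 := by
  obtain ⟨YR, hYR⟩ := count_RP
  obtain ⟨YP, hYP⟩ := count_P
  obtain ⟨κ, hκ⟩ : ∃ κ : ℝ, κ = 8 * k + 1 := ⟨_, rfl⟩
  obtain ⟨C, hC⟩ : ∃ C : ℝ, C = 4 ^ (2 * k - 1) * (2 ^ k * κ ^ k * 3 * (2 * k : ℝ) ^ (2 * k) * 1024 ^ (2 * k)) := ⟨_, rfl⟩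
  obtain ⟨x1, hx1⟩ := ev_u (2 * δ / 5) (by positivity) (max (max (2 ^ 32) YR) (max C (100 * κ)))
  refine ⟨x1 + YP + 300, fun N hN q hq1 hq2 => ?_⟩
  obtain ⟨hN1, hu, hlogu, hlog, hdiv⟩ := hx1 N (by omega)
  have hP := hYP N (by omega)
  have hNR : (0 : ℝ) < N := by exact_mod_cast (by omega : 0 < N)
  have hN1R : (1 : ℝ) ≤ N := by exact_mod_cast hN1
  have hk2 : (2 : ℝ) ≤ k := by exact_mod_cast hk
  have hk0 : (0 : ℝ) < k := by linarith
  have hκ0 : 0 < κ := by rw [hκ]; positivity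
  set u : ℝ := (N : ℝ) ^ (2 * δ / 5 / 64) with hudef
  have hu32 : 2 ^ 32 ≤ u := le_trans (le_trans (le_max_left _ _) (le_max_left _ _)) hu
  have huY : (YR : ℝ) ≤ u := le_trans (le_trans (le_max_right _ _) (le_max_left _ _)) hu
  have huκ : 100 * κ ≤ u := le_trans (le_trans (le_max_right _ _) (le_max_right _ _)) hu
  have hlog32 : 2 ^ 32 ≤ Real.log N := le_trans (le_trans (le_max_left _ _) (le_max_left _ _)) hlog
  have hlogC : C ≤ Real.log N := le_trans (le_trans (le_max_left _ _) (le_max_right _ _)) hlog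
  have hu0 : 0 < u := lt_of_lt_of_le (by norm_num) hu32
  have hu1 : 1 ≤ u := le_trans (by norm_num) hu32
  -- powers
  obtain ⟨v, hvdef⟩ : ∃ v : ℝ, v = (N : ℝ) ^ (1 / 3 : ℝ) := ⟨_, rfl⟩
  have hv0 : 0 < v := by rw [hvdef]; positivity
  have hv3 : v ^ 3 = N := by
    rw [hvdef, ← Real.rpow_natCast, ← Real.rpow_mul hNR.le]
    norm_num
  obtain ⟨z, hzdef⟩ : ∃ z : ℝ, z = (N : ℝ) ^ (1 / (2 * k) : ℝ) := ⟨_, rfl⟩
  have hz0 : 0 < z := by rw [hzdef]; positivity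
  have hz2k : z ^ (2 * k - 1) * z = N := by
    rw [← pow_succ, show 2 * k - 1 + 1 = 2 * k by omega, hzdef, ← Real.rpow_natCast, ← Real.rpow_mul hNR.le]
    have : 1 / (2 * (k : ℝ)) * ((2 * k : ℕ) : ℝ) = 1 := by
      push_cast
      field_simp
    rw [this, Real.rpow_one]
  have hu160 : u ^ 160 = (N : ℝ) ^ δ := by
    rw [hudef, ← Real.rpow_natCast, ← Real.rpow_mul hNR.le]
    congr 1
    push_cast
    ring
  have h2k : 1 / (2 * (k : ℝ)) ≤ 1 / 4 := by
    apply one_div_le_one_div_of_le (by norm_num)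
    linarith
  have huv : u ^ 160 ≤ v := by
    rw [hu160, hvdef]
    exact Real.rpow_le_rpow_of_exponent_le hN1R (by linarith)
  have hv1 : 1 ≤ v := le_trans (one_le_pow₀ hu1) huv
  have hz1 : 1 ≤ z := by
    rw [hzdef]
    exact Real.one_le_rpow hN1R (by positivity)
  have hzq : z ^ (2 * k - 1) * u ^ 160 ≤ q := by
    have h1 : z ^ (2 * k - 1) * u ^ 160 = (N : ℝ) ^ (1 - 1 / (2 * k) + δ) := by
      rw [hu160, Real.rpow_add hNR]
      congr 1
      rw [hzdef, ← Real.rpow_natCast, ← Real.rpow_mul hNR.le]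
      congr 1
      have : ((2 * k - 1 : ℕ) : ℝ) = 2 * k - 1 := by
        rw [Nat.cast_sub (by omega)]
        push_cast
        ring
      rw [this]
      field_simp
    rw [h1]
    exact hq1
  have hvz : v ^ 2 ≤ z ^ (2 * k - 1) := by
    have e1 : z ^ (2 * k - 1) = (N : ℝ) ^ (1 - 1 / (2 * k) : ℝ) := by
      rw [hzdef, ← Real.rpow_natCast, ← Real.rpow_mul hNR.le]
      congr 1
      have : ((2 * k - 1 : ℕ) : ℝ) = 2 * k - 1 := by
        rw [Nat.cast_sub (by omega)]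
        push_cast
        ring
      rw [this]
      field_simp
    have e2 : v ^ 2 = (N : ℝ) ^ (2 / 3 : ℝ) := by
      rw [hvdef, ← Real.rpow_natCast, ← Real.rpow_mul hNR.le]
      norm_num
    rw [e1, e2]
    exact Real.rpow_le_rpow_of_exponent_le hN1R (by linarith)
  have hvq : v ^ 2 * u ^ 160 ≤ q := by
    calc v ^ 2 * u ^ 160 ≤ z ^ (2 * k - 1) * u ^ 160 := by gcongr
      _ ≤ (q : ℝ) := hzq
  have hq0 : (0 : ℝ) < q := lt_of_lt_of_le (by positivity) hvq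
  have hqn : 0 < q := by exact_mod_cast hq0
  have hqN : (q : ℝ) ≤ N := by exact_mod_cast hq2
  have hu160_2 : (2 : ℝ) ≤ u ^ 160 := by
    calc (2 : ℝ) ≤ u := by linarith
      _ = u ^ 1 := by ring
      _ ≤ u ^ 160 := pow_le_pow_right₀ hu1 (by norm_num)
  have hq2' : (2 : ℝ) ≤ q := by
    calc (2 : ℝ) ≤ u ^ 160 := hu160_2
      _ = 1 * u ^ 160 := by ring
      _ ≤ v ^ 2 * u ^ 160 := by gcongr; exact one_le_pow₀ hv1
      _ ≤ q := hvq
  have hqN2 : 2 ≤ q := by exact_mod_cast hq2'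
  set Q : ℕ := q - 1 with hQdef
  have hQcast : (Q : ℝ) = q - 1 := by
    rw [hQdef, Nat.cast_sub (by omega)]
    simp
  have hQhalf : (q : ℝ) / 2 ≤ Q := by rw [hQcast]; linarith
  have hQ0 : (0 : ℝ) < Q := by linarith
  have hQn : 0 < Q := by exact_mod_cast hQ0
  have hQN : (Q : ℝ) ≤ N := by rw [hQcast]; linarith
  have hQNn : Q ≤ N := by omega
  have hQv : v ^ 2 * u ^ 150 ≤ Q := by
    have h1 : v ^ 2 * u ^ 150 * 2 ≤ q := by
      calc v ^ 2 * u ^ 150 * 2 ≤ v ^ 2 * u ^ 150 * u := by gcongr; linarith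
        _ = v ^ 2 * u ^ 151 := by ring
        _ ≤ v ^ 2 * u ^ 160 := by
            gcongr
            norm_num
        _ ≤ q := hvq
    linarith
  obtain ⟨g, hg⟩ : ∃ g, g = Real.log N := ⟨_, rfl⟩
  have hg0 : 0 < g := by rw [hg]; exact lt_of_lt_of_le (by norm_num) hlog32
  have hg1 : 1 ≤ g := by rw [hg]; exact le_trans (by norm_num) hlog32
  -- parameters
  set H : ℕ := ⌊u ^ 60⌋₊ with hHdef
  set R : ℕ := 8 * k * H * N / Q + 1 with hRdef
  have hH2 : (H : ℝ) ≤ u ^ 60 := Nat.floor_le (by positivity)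
  have hu60 : 1 ≤ u ^ 60 := one_le_pow₀ hu1
  have hHn : 1 ≤ H := Nat.le_floor (by simpa using hu60)
  have hH1R : (1 : ℝ) ≤ H := by exact_mod_cast hHn
  have hH1 : u ^ 60 / 2 ≤ H := by
    have e1 : u ^ 60 < H + 1 := Nat.lt_floor_add_one _
    linarith
  have hR1 : 8 * k * H * N ≤ Q * R := by
    have h1 : 8 * k * H * N < Q * (8 * k * H * N / Q + 1) := Nat.lt_mul_div_succ _ hQn
    exact h1.le
  have hR2 : Q * R ≤ (8 * k + 1) * H * N := by
    have h1 : Q * (8 * k * H * N / Q) ≤ 8 * k * H * N := Nat.mul_div_le _ _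
    have h2 : N ≤ H * N := Nat.le_mul_of_pos_left N hHn
    calc Q * R = Q * (8 * k * H * N / Q) + Q := by rw [hRdef]; ring
      _ ≤ 8 * k * H * N + H * N := by omega
      _ = (8 * k + 1) * H * N := by ring
  have hR1R : 8 * (k : ℝ) * (H : ℝ) * N ≤ Q * R := by exact_mod_cast hR1
  have hR2R : (Q : ℝ) * R ≤ κ * H * N := by
    rw [hκ]
    exact_mod_cast hR2
  have hR8H : 8 * (k : ℝ) * (H : ℝ) ≤ R := by
    have h1 : (Q : ℝ) * (8 * k * H) ≤ Q * R := by
      calc (Q : ℝ) * (8 * k * H) ≤ N * (8 * k * H) := by gcongr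
        _ = 8 * k * H * N := by ring
        _ ≤ Q * R := hR1R
    exact le_of_mul_le_mul_left h1 hQ0
  have hR8Hn : 8 * k * H ≤ R := by exact_mod_cast hR8H
  have hkH : (H : ℝ) ≤ k * H := by nlinarith
  have hR0' : (0 : ℝ) < R := by linarith
  have hRu : u ^ 60 ≤ R := by linarith
  have hκu : 2 * κ ≤ u := by linarith
  -- R u^100 ≤ 2 κ z, 2 κ v
  have hRz : (R : ℝ) * u ^ 100 ≤ 2 * κ * z := by
    have h1 : (z ^ (2 * k - 1) * u ^ 60) * ((R : ℝ) * u ^ 100) ≤ (z ^ (2 * k - 1) * u ^ 60) * (2 * κ * z) := by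
      calc (z ^ (2 * k - 1) * u ^ 60) * ((R : ℝ) * u ^ 100) = (z ^ (2 * k - 1) * u ^ 160) * (R : ℝ) := by ring
        _ ≤ (q : ℝ) * R := by gcongr
        _ ≤ (2 * Q) * R := by gcongr; linarith
        _ = 2 * ((Q : ℝ) * R) := by ring
        _ ≤ 2 * (κ * (H : ℝ) * N) := by gcongr
        _ ≤ 2 * (κ * u ^ 60 * N) := by gcongr
        _ = (z ^ (2 * k - 1) * u ^ 60) * (2 * κ * z) := by rw [← hz2k]; ring
    exact le_of_mul_le_mul_left h1 (by positivity)
  have hRv0 : (R : ℝ) * u ^ 100 ≤ 2 * κ * v := by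
    have h1 : (v ^ 2 * u ^ 60) * ((R : ℝ) * u ^ 100) ≤ (v ^ 2 * u ^ 60) * (2 * κ * v) := by
      calc (v ^ 2 * u ^ 60) * ((R : ℝ) * u ^ 100) = (v ^ 2 * u ^ 160) * (R : ℝ) := by ring
        _ ≤ (q : ℝ) * R := by gcongr
        _ ≤ (2 * Q) * R := by gcongr; linarith
        _ = 2 * ((Q : ℝ) * R) := by ring
        _ ≤ 2 * (κ * (H : ℝ) * N) := by gcongr
        _ ≤ 2 * (κ * u ^ 60 * N) := by gcongr
        _ = (v ^ 2 * u ^ 60) * (2 * κ * v) := by rw [← hv3]; ring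
    exact le_of_mul_le_mul_left h1 (by positivity)
  have hRv : (R : ℝ) * u ^ 89 ≤ v := by
    have h1 : ((R : ℝ) * u ^ 89) * u ^ 11 ≤ v * u ^ 11 := by
      calc ((R : ℝ) * u ^ 89) * u ^ 11 = R * u ^ 100 := by ring
        _ ≤ 2 * κ * v := hRv0
        _ ≤ u * v := by gcongr
        _ = v * u ^ 1 := by ring
        _ ≤ v * u ^ 11 := by
            gcongr
            norm_num
    exact le_of_mul_le_mul_right h1 (by positivity)
  have h8Rz : 8 * (R : ℝ) ≤ z := by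
    have h1 : (8 * (R : ℝ)) * u ^ 100 ≤ z * u ^ 100 := by
      calc (8 * (R : ℝ)) * u ^ 100 = 8 * (R * u ^ 100) := by ring
        _ ≤ 8 * (2 * κ * z) := by gcongr
        _ = z * (16 * κ) := by ring
        _ ≤ z * u ^ 1 := by gcongr; linarith
        _ ≤ z * u ^ 100 := by
            gcongr
            norm_num
    exact le_of_mul_le_mul_right h1 (by positivity)
  have hM := mean_RP N R u v hN1 hu32 hv3 hv1 hlog32 hlogu hdiv hRu hRv
  have hvN : v ≤ N := by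
    rw [← hv3]
    calc v = v * 1 := by ring
      _ ≤ v * v ^ 2 := by gcongr; exact one_le_pow₀ hv1
      _ = v ^ 3 := by ring
  have h8RN : 8 * R ≤ N := by
    have h8Rv : 8 * (R : ℝ) ≤ v := by
      calc 8 * (R : ℝ) = R * 8 := by ring
        _ ≤ R * u ^ 89 := by
            gcongr
            calc (8 : ℝ) ≤ u := by linarith
              _ = u ^ 1 := by ring
              _ ≤ u ^ 89 := pow_le_pow_right₀ hu1 (by norm_num)
        _ ≤ v := hRv
    have : 8 * (R : ℝ) ≤ N := h8Rv.trans hvN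
    exact_mod_cast this
  have hRP := hYR R N (by
    have h1 : (YR : ℝ) ≤ R := by
      calc (YR : ℝ) ≤ u := huY
        _ = u ^ 1 := by ring
        _ ≤ u ^ 60 := pow_le_pow_right₀ hu1 (by norm_num)
        _ ≤ R := hRu
    exact_mod_cast h1) h8RN
  have hqmem : q ∈ Ioc Q (2 * Q) := by
    rw [mem_Ioc]
    omega
  have hR18 : 8 * H * N ≤ Q * R := by
    refine le_trans ?_ hR1
    calc 8 * H * N = 8 * 1 * H * N := by ring
      _ ≤ 8 * k * H * N := by gcongr; omega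
  have hcorr := corr_one N Q q H R u v (by linarith) hv3 hv1 (by linarith) hlogu hQv hQNn hqmem hH1 hH2
    hR18 hRv (hdiv q hqn (by omega)) hM hRP hP
  rw [← hg] at hRP hP hlogu hlogC hlog32 ⊢
  obtain ⟨P, hPdef⟩ : ∃ P : ℝ, P = ((Pr N).card : ℝ) := ⟨_, rfl⟩
  obtain ⟨S, hSdef⟩ : ∃ S : ℝ, S = ((SS H R).card : ℝ) := ⟨_, rfl⟩
  obtain ⟨r, hrdef⟩ : ∃ r : ℝ, r = ((RP R).card : ℝ) := ⟨_, rfl⟩
  have hSr : S = H * r := by rw [hSdef, hrdef, SS_card]
  have hr0 : 0 < r := by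
    rw [hrdef]
    by_contra hcon
    have h1 : ((RP R).card : ℝ) = 0 := le_antisymm (not_lt.1 hcon) (by positivity)
    rw [h1] at hRP
    linarith
  have hS0 : 0 < S := by rw [hSr]; positivity
  have hP0 : 0 < P := by
    rw [hPdef]
    by_contra hcon
    have h1 : ((Pr N).card : ℝ) = 0 := le_antisymm (not_lt.1 hcon) (by positivity)
    rw [h1] at hP
    linarith
  -- the energy
  have hEk := Ek_le k q H R (by omega) (by
      calc (k + k) * H = 2 * k * H := by ring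
        _ ≤ 8 * k * H := by gcongr; norm_num
        _ ≤ R := hR8Hn) (by
      have h1 : (((k + k) * H * (8 * R) ^ (k + k - 1) : ℕ) : ℝ) < q := by
        push_cast
        have h2 : k + k - 1 = 2 * k - 1 := by omega
        rw [h2]
        have hku : (k : ℝ) + k ≤ u := by linarith
        calc ((k : ℝ) + k) * H * (8 * R) ^ (2 * k - 1) ≤ u * u ^ 60 * z ^ (2 * k - 1) := by gcongr
          _ = z ^ (2 * k - 1) * u ^ 61 := by ring
          _ < z ^ (2 * k - 1) * u ^ 160 := by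
              apply mul_lt_mul_of_pos_left _ (by positivity)
              apply pow_lt_pow_right₀ _ (by norm_num)
              linarith
          _ ≤ q := hzq
      exact_mod_cast h1) (r * g) (by rw [← hrdef]; nlinarith) (by
      rw [← hrdef] at hRP
      linarith)
  have hEk' : Ek k q H R ≤ (2 * k : ℝ) ^ (2 * k) * (g * S) ^ k := by
    refine hEk.trans (le_of_eq ?_)
    have e1 : ((k + k : ℕ) : ℝ) = 2 * k := by push_cast; ring
    have e2 : k + k = 2 * k := by ring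
    rw [e1, e2, hSr]
    congr 2
    ring
  -- Hölder
  have hsup : ∀ b ∈ range q, ‖Dc N q (((Pr N).card : ℝ) / Nat.totient q) b‖ ≤ 3 * g * N / q := fun b _ =>
    Dc_sup N q hqn hq2 g hg (by linarith) b
  have hhol := holder_sup k q H R N (((Pr N).card : ℝ) / Nat.totient q) (3 * g * N / q) _ hqn (by positivity) (by omega)
    hsup hcorr
  obtain ⟨X, hX⟩ : ∃ X : ℝ, X = ∑ b ∈ range q, ‖Dc N q (((Pr N).card : ℝ) / Nat.totient q) b‖ := ⟨_, rfl⟩
  rw [← hX, ← hSdef, ← hPdef] at hhol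
  have hX0 : 0 ≤ X := by rw [hX]; exact sum_nonneg fun _ _ => norm_nonneg _
  have hh : (S * P / (256 * R)) ^ (2 * k) ≤
      X ^ (2 * k - 1) * (3 * g * N / q * (q * ((2 * k : ℝ) ^ (2 * k) * (g * S) ^ k))) := by
    refine hhol.trans ?_
    gcongr
  have halg := alg k (by omega) N Q q H R S P g X κ hNR hQ0 hq0 (by linarith) hR0' hS0 hP0 hg0 hX0 hh
    (by rw [hSr]
        rw [← hrdef] at hRP
        calc 2 * (H : ℝ) * R = H * (2 * R) := by ring
          _ ≤ H * (r * g) := by gcongr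
          _ = H * r * g := by ring) (by rw [hPdef]; exact hP) hR2R hκ0 (by linarith)
  -- conclusion
  obtain ⟨Z, hZ⟩ : ∃ Z : ℝ, Z = q * ((N : ℝ) / q) ^ (((k : ℝ) - 1) / (2 * k - 1)) := ⟨_, rfl⟩
  rw [← hZ]
  have hNq1 : 1 ≤ (N : ℝ) / q := by rw [le_div_iff₀ hq0]; linarith
  have hexp0 : 0 ≤ ((k : ℝ) - 1) / (2 * k - 1) := by
    apply div_nonneg <;> linarith
  have hZq : (q : ℝ) ≤ Z := by
    rw [hZ]
    have := Real.one_le_rpow hNq1 hexp0
    nlinarith
  have hZ0 : 0 < Z := by linarith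
  have hZpow : Z ^ (2 * k - 1) = q ^ k * N ^ (k - 1) := by
    rw [hZ, mul_pow, ← Real.rpow_natCast (((N : ℝ) / q) ^ (((k : ℝ) - 1) / (2 * k - 1))), ← Real.rpow_mul (by positivity)]
    have e1 : ((k : ℝ) - 1) / (2 * k - 1) * ((2 * k - 1 : ℕ) : ℝ) = ((k - 1 : ℕ) : ℝ) := by
      rw [Nat.cast_sub (by omega), Nat.cast_sub (by omega)]
      push_cast
      have : (2 : ℝ) * k - 1 ≠ 0 := by
        have : 0 < (2 : ℝ) * k - 1 := by linarith
        exact this.ne'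
      exact div_mul_cancel₀ _ this
    rw [e1, Real.rpow_natCast, div_pow]
    have e2 : (q : ℝ) ^ (2 * k - 1) = q ^ k * q ^ (k - 1) := by
      rw [← pow_add]
      congr 1
      omega
    rw [e2]
    field_simp
  have hfin : 4 * Z / g ^ 4 ≤ X := by
    have h1 : (4 * Z / g ^ 4) ^ (2 * k - 1) ≤ X ^ (2 * k - 1) := by
      rw [div_pow, div_le_iff₀ (by positivity), mul_pow, hZpow]
      calc (4 : ℝ) ^ (2 * k - 1) * (q ^ k * N ^ (k - 1)) ≤
            4 ^ (2 * k - 1) * ((2 ^ k * κ ^ k * 3 * (2 * k : ℝ) ^ (2 * k) * 1024 ^ (2 * k)) * g ^ (4 * k + 1) * X ^ (2 * k - 1)) := by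
            gcongr
        _ = C * g ^ (4 * k + 1) * X ^ (2 * k - 1) := by rw [hC]; ring
        _ ≤ g * g ^ (4 * k + 1) * X ^ (2 * k - 1) := by gcongr
        _ = X ^ (2 * k - 1) * g ^ (4 * k + 2) := by ring
        _ ≤ X ^ (2 * k - 1) * (g ^ 4) ^ (2 * k - 1) := by
            rw [← pow_mul]
            gcongr
            omega
    exact le_of_pow_le_pow_left₀ (by omega) hX0 h1
  have hτ : (q.divisors.card : ℝ) ≤ Z / g ^ 4 := by
    rw [le_div_iff₀ (by positivity)]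
    have hgu : g ≤ u := by linarith
    calc (q.divisors.card : ℝ) * g ^ 4 ≤ u * u ^ 4 := by
          gcongr
          exact hdiv q hqn (by omega)
      _ = 1 * u ^ 5 := by ring
      _ ≤ v ^ 2 * u ^ 160 := by
          gcongr
          · exact one_le_pow₀ hv1
          · norm_num
      _ ≤ q := hvq
      _ ≤ Z := hZq
  have hL := Dc_L1 N q hqn (((Pr N).card : ℝ) / Nat.totient q)
  rw [← hX] at hL
  refine ⟨hqn, hg1, ?_, hτ⟩
  have e1 : 4 * Z / g ^ 4 = 4 * (Z / g ^ 4) := by ring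
  rw [e1] at hfin
  linarith

end

end Pool.Agent.H52.LO
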