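import Mathlib
import Pool.Agent.H52.LO.B3

/-!
The energy of the fractions `h / r` modulo a single `q`.
-/

set_option autoImplicit false

open Finset

namespace Pool.Agent.H52.LO

open Pool.Agent.H52

noncomputable section

/-- the factorisation of the determinant -/
lemma ZI_factor (a b c d : ℕ × ℕ) :
    (((a.1 * b.2 + b.1 * a.2 : ℕ) : ℤ) * c.2 - ((a.2 * b.2 : ℕ) : ℤ) * c.1) *
      (((a.1 * b.2 + b.1 * a.2 : ℕ) : ℤ) * d.2 - ((a.2 * b.2 : ℕ) : ℤ) * d.1) =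
      ((a.1 * b.2 + b.1 * a.2 : ℕ) : ℤ) * ZI a b c d + ((a.2 * b.2 : ℕ) : ℤ) ^ 2 * (c.1 * d.1) := by
  unfold ZI
  push_cast
  ring

lemma not_dvd_aux (q : ℕ) (a b c : ℕ × ℕ) (m : ℕ) (ha : a.2.Coprime q) (hb : b.2.Coprime q) (hc : c.2.Coprime q)
    (hm0 : 0 < m) (hm : m < q) : ¬ ((q : ℤ) ∣ ((a.2 * b.2 * c.2 * m : ℕ) : ℤ)) := by
  intro h
  have h1 : q ∣ a.2 * b.2 * c.2 * m := by exact_mod_cast h
  have h2 : (a.2 * b.2 * c.2).Coprime q := Nat.Coprime.mul_left (Nat.Coprime.mul_left ha hb) hc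
  have h3 : q ∣ m := (Nat.Coprime.symm h2).dvd_of_dvd_mul_left h1
  have := Nat.le_of_dvd hm0 h3
  omega

/-- the energy for one modulus -/
theorem En_one (q H R : ℕ) (hq : 1 < q) (hHR : 2 * H ≤ R) (hHq : H < q) (D : ℝ) (hD0 : 0 ≤ D)
    (hD : ∀ m : ℕ, 0 < m → m ≤ 16384 * H ^ 2 * R ^ 4 → (m.divisors.card : ℝ) ≤ D) :
    En q H R ≤ 2 * ((SS H R).card : ℝ) ^ 2 + (SS H R).card * (H : ℝ) ^ 2 +
      2 * D * (((SS H R).card : ℝ) ^ 2 * (H : ℝ) ^ 2 * (2 * (1024 * H * R ^ 3 / q) + 1)) := by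
  classical
  set F := (((Sq q H R ×ˢ Sq q H R) ×ˢ (Sq q H R ×ˢ Sq q H R)).filter
    (fun x => fr q x.1.1 + fr q x.1.2 ≡ fr q x.2.1 + fr q x.2.2 [MOD q])) with hF
  have hFdata : ∀ a b c d : ℕ × ℕ, ((a, b), (c, d)) ∈ F →
      (a ∈ SS H R ∧ b ∈ SS H R ∧ c ∈ SS H R ∧ d ∈ SS H R) ∧
      (a.2.Coprime q ∧ b.2.Coprime q ∧ c.2.Coprime q ∧ d.2.Coprime q) ∧ (q : ℤ) ∣ ZI a b c d := by
    intro a b c d hx
    rw [hF, mem_filter, mem_product, mem_product, mem_product] at hx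
    obtain ⟨⟨⟨ha, hb⟩, ⟨hc, hd⟩⟩, h0⟩ := hx
    simp only at ha hb hc hd h0
    refine ⟨⟨Sq_sub q H R ha, Sq_sub q H R hb, Sq_sub q H R hc, Sq_sub q H R hd⟩, ?_⟩
    unfold Sq at ha hb hc hd
    rw [mem_product, mem_filter] at ha hb hc hd
    exact ⟨⟨ha.2.2, hb.2.2, hc.2.2, hd.2.2⟩, cong_dvd q hq a b c d ha.2.2 hb.2.2 hc.2.2 hd.2.2 h0⟩
  set F0 := F.filter (fun x => ZI x.1.1 x.1.2 x.2.1 x.2.2 = 0) with hF0
  set F1 := F.filter (fun x => ¬ (ZI x.1.1 x.1.2 x.2.1 x.2.2 = 0)) with hF1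
  have hsplit : F0.card + F1.card = F.card := card_filter_add_card_filter_not _
  have h0 : (F0.card : ℝ) ≤ 2 * ((SS H R).card : ℝ) ^ 2 + (SS H R).card * (H : ℝ) ^ 2 := by
    refine le_trans ?_ (zero_count H R hHR)
    apply Nat.cast_le.2
    apply card_le_card
    rintro ⟨⟨a, b⟩, ⟨c, d⟩⟩ hx
    rw [hF0, mem_filter] at hx
    obtain ⟨⟨ha, hb, hc, hd⟩, _, _⟩ := hFdata a b c d hx.1
    rw [mem_filter, mem_product, mem_product, mem_product]
    exact ⟨⟨⟨ha, hb⟩, ⟨hc, hd⟩⟩, hx.2⟩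
  -- the key
  set key : ((ℕ × ℕ) × (ℕ × ℕ)) × ((ℕ × ℕ) × (ℕ × ℕ)) → ((ℕ × ℕ) × (ℕ × ℕ)) × ((ℕ × ℕ) × ℤ) :=
    fun x => ((x.1.1, x.1.2), ((x.2.1.1, x.2.2.1), ZI x.1.1 x.1.2 x.2.1 x.2.2 / q)) with hkey
  set M : ℕ := 1024 * H * R ^ 3 / q with hM
  set T := (SS H R ×ˢ SS H R) ×ˢ ((Icc 1 H ×ˢ Icc 1 H) ×ˢ (Icc (-(M : ℤ)) M)) with hT
  have himage : F1.image key ⊆ T := by
    intro y hy
    rw [mem_image] at hy
    obtain ⟨⟨⟨a, b⟩, ⟨c, d⟩⟩, hx, rfl⟩ := hy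
    rw [hF1, mem_filter] at hx
    obtain ⟨⟨ha, hb, hc, hd⟩, _, hdvd⟩ := hFdata a b c d hx.1
    obtain ⟨a1, a2, a3, a4, a5⟩ := SS_facts H R a ha
    obtain ⟨b1, b2, b3, b4, b5⟩ := SS_facts H R b hb
    obtain ⟨c1, c2, c3, c4, c5⟩ := SS_facts H R c hc
    obtain ⟨d1, d2, d3, d4, d5⟩ := SS_facts H R d hd
    have hbound : (ZI a b c d).natAbs ≤ 1024 * H * R ^ 3 := by
      have t : ∀ x y z w : ℕ, x ≤ H → y ≤ 8 * R → z ≤ 8 * R → w ≤ 8 * R →
          x * y * z * w ≤ 512 * H * R ^ 3 := by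
        intro x y z w hx hy hz hw
        calc x * y * z * w ≤ H * (8 * R) * (8 * R) * (8 * R) := by gcongr
          _ = 512 * H * R ^ 3 := by ring
      have t1 := t a.1 b.2 c.2 d.2 a2 b4 c4 d4
      have t2 := t b.1 a.2 c.2 d.2 b2 a4 c4 d4
      have t3 := t c.1 a.2 b.2 d.2 c2 a4 b4 d4
      have t4 := t d.1 a.2 b.2 c.2 d2 a4 b4 c4
      have e : ZI a b c d = ((a.1 * b.2 * c.2 * d.2 + b.1 * a.2 * c.2 * d.2 : ℕ) : ℤ) -
          ((c.1 * a.2 * b.2 * d.2 + d.1 * a.2 * b.2 * c.2 : ℕ) : ℤ) := by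
        unfold ZI
        push_cast
        ring
      rw [e]
      have e2 : 1024 * H * R ^ 3 = 512 * H * R ^ 3 + 512 * H * R ^ 3 := by ring
      rw [e2]
      generalize 512 * H * R ^ 3 = X0 at *
      generalize a.1 * b.2 * c.2 * d.2 = X1 at *
      generalize b.1 * a.2 * c.2 * d.2 = X2 at *
      generalize c.1 * a.2 * b.2 * d.2 = X3 at *
      generalize d.1 * a.2 * b.2 * c.2 = X4 at *
      omega
    obtain ⟨m, hm⟩ := hdvd
    have hq0 : (q : ℤ) ≠ 0 := by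
      have : q ≠ 0 := by omega
      exact_mod_cast this
    have hmdiv : ZI a b c d / q = m := by
      rw [hm]
      exact Int.mul_ediv_cancel_left m hq0
    have hmM : m.natAbs ≤ M := by
      rw [hM, Nat.le_div_iff_mul_le (by omega)]
      rw [hm, Int.natAbs_mul, Int.natAbs_natCast] at hbound
      calc m.natAbs * q = q * m.natAbs := mul_comm _ _
        _ ≤ _ := hbound
    rw [hT, mem_product, mem_product, mem_product, mem_product, mem_Icc, mem_Icc, mem_Icc, hkey]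
    simp only
    refine ⟨⟨ha, hb⟩, ⟨⟨c1, c2⟩, ⟨d1, d2⟩⟩, ?_, ?_⟩
    · rw [hmdiv]; omega
    · rw [hmdiv]; omega
  have hfiber : ∀ y ∈ F1.image key, (F1.filter (fun x => key x = y)).card ≤ 2 * ⌊D⌋₊ := by
    intro y hy
    rw [mem_image] at hy
    obtain ⟨⟨⟨a, b⟩, ⟨c, d⟩⟩, hx, rfl⟩ := hy
    set A : ℤ := ((a.1 * b.2 + b.1 * a.2 : ℕ) : ℤ) with hA
    set B : ℤ := ((a.2 * b.2 : ℕ) : ℤ) with hB
    rw [hF1, mem_filter] at hx
    obtain ⟨⟨ha, hb, hc, hd⟩, ⟨hac, hbc, hcc, hdc⟩, hdvd⟩ := hFdata a b c d hx.1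
    obtain ⟨a1, a2, a3, a4, a5⟩ := SS_facts H R a ha
    obtain ⟨b1, b2, b3, b4, b5⟩ := SS_facts H R b hb
    obtain ⟨c1, c2, c3, c4, c5⟩ := SS_facts H R c hc
    obtain ⟨d1, d2, d3, d4, d5⟩ := SS_facts H R d hd
    have hApos : 0 < A := by
      rw [hA]
      have : 0 < a.1 * b.2 + b.1 * a.2 := by
        have : 0 < a.1 * b.2 := Nat.mul_pos (by omega) (by omega)
        omega
      exact_mod_cast this
    set W : ℤ := A * ZI a b c d + B ^ 2 * (c.1 * d.1) with hW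
    have hfac : (A * c.2 - B * c.1) * (A * d.2 - B * d.1) = W := ZI_factor a b c d
    -- the factors do not vanish
    have hne1 : A * c.2 - B * c.1 ≠ 0 := by
      intro h
      have e1 : ZI a b c d = (A * c.2 - B * c.1) * d.2 - B * d.1 * c.2 := by
        rw [hA, hB]
        unfold ZI
        push_cast
        ring
      rw [h, zero_mul, zero_sub] at e1
      rw [e1, dvd_neg] at hdvd
      apply not_dvd_aux q a b c d.1 hac hbc hcc (by omega) (by omega)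
      have e2 : ((a.2 * b.2 * c.2 * d.1 : ℕ) : ℤ) = B * d.1 * c.2 := by
        rw [hB]
        push_cast
        ring
      rw [e2]
      exact hdvd
    have hne2 : A * d.2 - B * d.1 ≠ 0 := by
      intro h
      have e1 : ZI a b c d = (A * d.2 - B * d.1) * c.2 - B * c.1 * d.2 := by
        rw [hA, hB]
        unfold ZI
        push_cast
        ring
      rw [h, zero_mul, zero_sub] at e1
      rw [e1, dvd_neg] at hdvd
      apply not_dvd_aux q a b d c.1 hac hbc hdc (by omega) (by omega)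
      have e2 : ((a.2 * b.2 * d.2 * c.1 : ℕ) : ℤ) = B * c.1 * d.2 := by
        rw [hB]
        push_cast
        ring
      rw [e2]
      exact hdvd
    have hWne : W ≠ 0 := by
      rw [← hfac]
      exact mul_ne_zero hne1 hne2
    -- the size of W
    have hsize : ∀ e : ℕ × ℕ, 1 ≤ e.1 → e.1 ≤ H → e.2 ≤ 8 * R → (A * e.2 - B * e.1).natAbs ≤ 128 * H * R ^ 2 := by
      intro e he1 he2 he3
      have t1 : (a.1 * b.2 + b.1 * a.2) * e.2 ≤ 128 * H * R ^ 2 := by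
        calc (a.1 * b.2 + b.1 * a.2) * e.2 ≤ (H * (8 * R) + H * (8 * R)) * (8 * R) := by gcongr
          _ = 128 * H * R ^ 2 := by ring
      have t2 : (a.2 * b.2) * e.1 ≤ 128 * H * R ^ 2 := by
        calc (a.2 * b.2) * e.1 ≤ (8 * R * (8 * R)) * H := by gcongr
          _ = 64 * H * R ^ 2 := by ring
          _ ≤ 128 * H * R ^ 2 := by gcongr; norm_num
      have e1 : A * e.2 - B * e.1 = (((a.1 * b.2 + b.1 * a.2) * e.2 : ℕ) : ℤ) - (((a.2 * b.2) * e.1 : ℕ) : ℤ) := by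
        rw [hA, hB]
        push_cast
        ring
      rw [e1]
      omega
    have hWsize : W.natAbs ≤ 16384 * H ^ 2 * R ^ 4 := by
      rw [← hfac, Int.natAbs_mul]
      calc (A * c.2 - B * c.1).natAbs * (A * d.2 - B * d.1).natAbs ≤ (128 * H * R ^ 2) * (128 * H * R ^ 2) :=
            Nat.mul_le_mul (hsize c c1 c2 c4) (hsize d d1 d2 d4)
        _ = 16384 * H ^ 2 * R ^ 4 := by ring
    have hDW : W.natAbs.divisors.card ≤ ⌊D⌋₊ := Nat.le_floor (hD W.natAbs (Int.natAbs_pos.2 hWne) hWsize)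
    have htarget : (W.natAbs.divisors ×ˢ (univ : Finset Bool)).card ≤ 2 * ⌊D⌋₊ := by
      rw [card_product]
      simp only [Finset.card_univ, Fintype.card_bool]
      omega
    refine le_trans ?_ htarget
    apply card_le_card_of_injOn (fun x => ((A * x.2.1.2 - B * x.2.1.1).natAbs, decide (0 ≤ A * (x.2.1.2 : ℤ) - B * x.2.1.1)))
    · rintro ⟨⟨a', b'⟩, ⟨c', d'⟩⟩ hx'
      rw [mem_coe, mem_filter, hF1, mem_filter] at hx'
      obtain ⟨⟨hxF, hxne⟩, hk⟩ := hx'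
      rw [hkey] at hk
      simp only [Prod.mk.injEq] at hk hxne
      obtain ⟨⟨rfl, rfl⟩, ⟨hk1, hk2⟩, hk3⟩ := hk
      obtain ⟨_, _, hdvd'⟩ := hFdata a' b' c' d' hxF
      have hZI : ZI a' b' c' d' = ZI a' b' c d := by
        rw [← Int.ediv_mul_cancel hdvd', ← Int.ediv_mul_cancel hdvd, hk3]
      have hfac' : (A * c'.2 - B * c'.1) * (A * d'.2 - B * d'.1) = W := by
        have := ZI_factor a' b' c' d'
        rw [hW, ← hZI, ← hk1, ← hk2]
        exact this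
      rw [mem_coe, mem_product, Nat.mem_divisors]
      simp only
      refine ⟨⟨?_, ?_⟩, mem_univ _⟩
      · rw [Int.natAbs_dvd_natAbs, ← hfac']
        exact Dvd.intro _ rfl
      · exact Int.natAbs_ne_zero.2 hWne
    · rintro ⟨⟨a', b'⟩, ⟨c', d'⟩⟩ hx' ⟨⟨a'', b''⟩, ⟨c'', d''⟩⟩ hx'' heq
      rw [mem_coe, mem_filter, hF1, mem_filter] at hx' hx''
      obtain ⟨⟨hxF, hxne⟩, hk⟩ := hx'
      obtain ⟨⟨hxF', hxne'⟩, hk'⟩ := hx''
      rw [hkey] at hk hk'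
      simp only [Prod.mk.injEq] at hk hk' hxne hxne' heq
      obtain ⟨⟨rfl, rfl⟩, ⟨hk1, hk2⟩, hk3⟩ := hk
      obtain ⟨⟨rfl, rfl⟩, ⟨hk1', hk2'⟩, hk3'⟩ := hk'
      obtain ⟨_, _, hdvd'⟩ := hFdata a'' b'' c' d' hxF
      obtain ⟨_, _, hdvd''⟩ := hFdata a'' b'' c'' d'' hxF'
      have hZI : ZI a'' b'' c' d' = ZI a'' b'' c d := by
        rw [← Int.ediv_mul_cancel hdvd', ← Int.ediv_mul_cancel hdvd, hk3]
      have hZI' : ZI a'' b'' c'' d'' = ZI a'' b'' c d := by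
        rw [← Int.ediv_mul_cancel hdvd'', ← Int.ediv_mul_cancel hdvd, hk3']
      have hfac' : (A * c'.2 - B * c'.1) * (A * d'.2 - B * d'.1) = W := by
        have := ZI_factor a'' b'' c' d'
        rw [hW, ← hZI, ← hk1, ← hk2]
        exact this
      have hfac'' : (A * c''.2 - B * c''.1) * (A * d''.2 - B * d''.1) = W := by
        have := ZI_factor a'' b'' c'' d''
        rw [hW, ← hZI', ← hk1', ← hk2']
        exact this
      obtain ⟨hn, hs⟩ := heq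
      have hEq : A * (c'.2 : ℤ) - B * c'.1 = A * (c''.2 : ℤ) - B * c''.1 := by
        rw [decide_eq_decide] at hs
        omega
      have hc1 : c'.1 = c''.1 := hk1.trans hk1'.symm
      have hd1 : d'.1 = d''.1 := hk2.trans hk2'.symm
      have hc2 : c'.2 = c''.2 := by
        rw [hc1] at hEq
        have h1 : A * (c'.2 : ℤ) = A * (c''.2 : ℤ) := by linarith
        have h2 := mul_left_cancel₀ hApos.ne' h1
        exact_mod_cast h2
      have hne1' : A * c'.2 - B * c'.1 ≠ 0 := by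
        intro h
        rw [h, zero_mul] at hfac'
        exact hWne hfac'.symm
      have hd2 : d'.2 = d''.2 := by
        have h1 : (A * (c'.2 : ℤ) - B * c'.1) * (A * d'.2 - B * d'.1) = (A * (c'.2 : ℤ) - B * c'.1) * (A * d''.2 - B * d''.1) := by
          rw [hfac', hEq, hfac'']
        have h2 := mul_left_cancel₀ hne1' h1
        rw [hd1] at h2
        have h3 : A * (d'.2 : ℤ) = A * (d''.2 : ℤ) := by linarith
        have h4 := mul_left_cancel₀ hApos.ne' h3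
        exact_mod_cast h4
      have hc : c' = c'' := Prod.ext hc1 hc2
      have hd : d' = d'' := Prod.ext hd1 hd2
      rw [hc, hd]
  have hcardT : (T.card : ℝ) = ((SS H R).card : ℝ) ^ 2 * (H : ℝ) ^ 2 * (2 * M + 1) := by
    rw [hT, card_product, card_product, card_product, card_product, Nat.card_Icc, Int.card_Icc]
    have e1 : ((M : ℤ) + 1 - -(M : ℤ)).toNat = 2 * M + 1 := by omega
    rw [e1, Nat.add_sub_cancel]
    push_cast
    ring
  have h1 : (F1.card : ℝ) ≤ 2 * D * (((SS H R).card : ℝ) ^ 2 * (H : ℝ) ^ 2 * (2 * (1024 * H * R ^ 3 / q) + 1)) := by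
    have h2 := card_le_mul_card_image F1 (2 * ⌊D⌋₊) hfiber
    have h3 : F1.card ≤ 2 * ⌊D⌋₊ * T.card := h2.trans (Nat.mul_le_mul_left _ (card_le_card himage))
    calc (F1.card : ℝ) ≤ ((2 * ⌊D⌋₊ * T.card : ℕ) : ℝ) := by exact_mod_cast h3
      _ = 2 * (⌊D⌋₊ : ℝ) * (((SS H R).card : ℝ) ^ 2 * (H : ℝ) ^ 2 * (2 * M + 1)) := by
          push_cast
          rw [hcardT]
      _ ≤ 2 * D * (((SS H R).card : ℝ) ^ 2 * (H : ℝ) ^ 2 * (2 * (1024 * H * R ^ 3 / q) + 1)) := by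
          have h4 : (⌊D⌋₊ : ℝ) ≤ D := Nat.floor_le hD0
          have h5 : (M : ℝ) ≤ 1024 * H * R ^ 3 / q := by
            rw [hM]
            refine Nat.cast_div_le.trans (le_of_eq ?_)
            push_cast
            ring
          gcongr
  unfold En
  rw [← hF]
  have h2 : (F.card : ℝ) = F0.card + F1.card := by exact_mod_cast hsplit.symm
  rw [h2]
  linarith

end

end Pool.Agent.H52.LO
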