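import Mathlib
import Pool.Agent.H52.LO.B4
import Pool.Agent.H52.LO.B5

/-!
The lower bound for the mean absolute error for every modulus above the two thirds power.
-/

set_option autoImplicit false

open Finset Filter

namespace Pool.Agent.H52.LO

open Pool.Agent.H52

noncomputable section

lemma ev_div2 (δ : ℝ) (hδ : 0 < δ) : ∃ x0 : ℕ, ∀ N : ℕ, x0 ≤ N →
    ∀ n : ℕ, 0 < n → n ≤ N ^ 2 → (n.divisors.card : ℝ) ≤ (N : ℝ) ^ (δ / 64) := by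
  obtain ⟨C, hC0, hC⟩ := divisor_bound (δ / 256) (by positivity)
  have h4 : ∀ᶠ x : ℝ in atTop, C ≤ x ^ (δ / 128) :=
    (tendsto_rpow_atTop (by positivity)).eventually_ge_atTop _
  obtain ⟨x0, hx0⟩ := (h4.and (eventually_ge_atTop (1 : ℝ))).exists_forall_of_atTop
  refine ⟨⌈x0⌉₊ + 1, fun N hN n hn hn2 => ?_⟩
  have hNx : x0 ≤ N := by
    have := Nat.le_ceil x0
    have h2 : ((⌈x0⌉₊ : ℕ) : ℝ) ≤ N := by exact_mod_cast (by omega : ⌈x0⌉₊ ≤ N)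
    linarith
  obtain ⟨e4, e5⟩ := hx0 N hNx
  have hN0 : (0 : ℝ) < N := by linarith
  refine (hC n hn).trans ?_
  have e6 : (n : ℝ) ^ (δ / 256) ≤ ((N : ℝ) ^ (2 : ℝ)) ^ (δ / 256) := by
    apply Real.rpow_le_rpow (by positivity) _ (by positivity)
    rw [Real.rpow_two]
    exact_mod_cast hn2
  rw [← Real.rpow_mul hN0.le] at e6
  calc C * (n : ℝ) ^ (δ / 256) ≤ C * (N : ℝ) ^ (2 * (δ / 256)) := by gcongr
    _ ≤ (N : ℝ) ^ (δ / 128) * (N : ℝ) ^ (2 * (δ / 256)) := by gcongr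
    _ = (N : ℝ) ^ (δ / 64) := by
        rw [← Real.rpow_add hN0]
        congr 1
        ring

/-- Hölder's inequality with the energy of four fractions -/
theorem holder_sup4 (q H R N : ℕ) (c K A : ℝ) (hq : 0 < q) (hA : 0 ≤ A)
    (hK : ∀ b ∈ range q, ‖Dc N q c b‖ ≤ K) (h : A ≤ ‖∑ b ∈ range q, Dc N q c b * WT q H R b‖) :
    A ^ 4 ≤ (∑ b ∈ range q, ‖Dc N q c b‖) ^ 3 * (K * (q * En q H R)) := by
  have h1 : A ≤ ∑ b ∈ range q, ‖Dc N q c b‖ * ‖WT q H R b‖ := by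
    refine h.trans ((norm_sum_le _ _).trans (le_of_eq ?_))
    exact sum_congr rfl fun b _ => norm_mul _ _
  have h2 := jensen (range q) (fun b => ‖Dc N q c b‖) (fun b => ‖WT q H R b‖) (fun b _ => norm_nonneg _)
    (fun b _ => norm_nonneg _) 3
  refine (pow_le_pow_left₀ hA h1 _).trans (h2.trans ?_)
  apply mul_le_mul_of_nonneg_left _ (by positivity)
  have h4 : ∑ b ∈ range q, ‖WT q H R b‖ ^ 4 = q * En q H R := fourth q hq (Sq q H R) (fr q)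
  rw [← h4, mul_sum]
  apply sum_le_sum
  intro b hb
  exact mul_le_mul_of_nonneg_right (hK b hb) (by positivity)

/-- the algebra -/
lemma alg4 (N q H R S P g X u ρ E : ℝ) (hN : 0 < N) (hq : 0 < q) (hH : 0 < H)
    (hR : 0 < R) (hS : 0 < S) (hg : 0 < g) (hX : 0 ≤ X) (hu : 2 ^ 32 ≤ u) (hgu : g ≤ u)
    (hρ : 0 < ρ) (hE : E ≤ 2 ^ 26 * u ^ 361 * ρ * S ^ 2)
    (h : (S * P / (256 * R)) ^ 4 ≤ X ^ 3 * (3 * g * N / q * (q * E)))
    (hS1 : 2 * H * R ≤ S * g) (hP1 : N / 4 ≤ P * g) (hqR : q * R ≤ 18 * H * N) :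
    q ^ 2 * N ≤ X ^ 3 * u ^ 371 * ρ := by
  have hu0 : 0 < u := lt_of_lt_of_le (by norm_num) hu
  obtain ⟨Y, hY⟩ : ∃ Y, Y = X ^ 3 := ⟨_, rfl⟩
  have hY0 : 0 ≤ Y := by rw [hY]; positivity
  rw [← hY] at h ⊢
  have hNg : 0 ≤ P * g := by linarith
  -- step 1
  have h1 : S ^ 2 * P ^ 4 ≤ Y * (3 * g * N * (2 ^ 26 * u ^ 361 * ρ)) * (256 * R) ^ 4 := by
    have e1 : S ^ 2 * (S ^ 2 * P ^ 4) ≤ S ^ 2 * (Y * (3 * g * N * (2 ^ 26 * u ^ 361 * ρ)) * (256 * R) ^ 4) := by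
      have e2 : (S * P / (256 * R)) ^ 4 * (256 * R) ^ 4 = S ^ 2 * (S ^ 2 * P ^ 4) := by
        field_simp
      rw [← e2]
      calc (S * P / (256 * R)) ^ 4 * (256 * R) ^ 4 ≤ (Y * (3 * g * N / q * (q * E))) * (256 * R) ^ 4 := by gcongr
        _ = (Y * (3 * g * N * E)) * (256 * R) ^ 4 := by field_simp
        _ ≤ (Y * (3 * g * N * (2 ^ 26 * u ^ 361 * ρ * S ^ 2))) * (256 * R) ^ 4 := by gcongr
        _ = _ := by ring
    exact le_of_mul_le_mul_left e1 (by positivity)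
  -- step 2
  have h2 : (H * R) ^ 2 * N ^ 4 ≤ (S ^ 2 * P ^ 4) * (256 * g ^ 6) := by
    have e1 : (H * R) ^ 2 ≤ (S * g) ^ 2 := by
      apply pow_le_pow_left₀ (by positivity)
      have : 0 < H * R := by positivity
      linarith
    have e2 : N ^ 4 ≤ (4 * (P * g)) ^ 4 := by
      apply pow_le_pow_left₀ hN.le
      linarith
    calc (H * R) ^ 2 * N ^ 4 ≤ (S * g) ^ 2 * (4 * (P * g)) ^ 4 := by gcongr
      _ = (S ^ 2 * P ^ 4) * (256 * g ^ 6) := by ring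
  -- step 3
  have h3 : H ^ 2 * N ^ 3 ≤ Y * (3 * 2 ^ 66 * g ^ 7 * u ^ 361 * ρ) * R ^ 2 := by
    have e1 : (N * R ^ 2) * (H ^ 2 * N ^ 3) ≤ (N * R ^ 2) * (Y * (3 * 2 ^ 66 * g ^ 7 * u ^ 361 * ρ) * R ^ 2) := by
      calc (N * R ^ 2) * (H ^ 2 * N ^ 3) = (H * R) ^ 2 * N ^ 4 := by ring
        _ ≤ (S ^ 2 * P ^ 4) * (256 * g ^ 6) := h2
        _ ≤ (Y * (3 * g * N * (2 ^ 26 * u ^ 361 * ρ)) * (256 * R) ^ 4) * (256 * g ^ 6) := by gcongr
        _ = (N * R ^ 2) * (Y * (3 * 2 ^ 66 * g ^ 7 * u ^ 361 * ρ) * R ^ 2) := by ring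
    exact le_of_mul_le_mul_left e1 (by positivity)
  -- step 4
  have h4 : q ^ 2 * N ≤ Y * (972 * 2 ^ 66 * g ^ 7 * u ^ 361 * ρ) := by
    have e1 : (H ^ 2 * N ^ 2) * (q ^ 2 * N) ≤ (H ^ 2 * N ^ 2) * (Y * (972 * 2 ^ 66 * g ^ 7 * u ^ 361 * ρ)) := by
      calc (H ^ 2 * N ^ 2) * (q ^ 2 * N) = q ^ 2 * (H ^ 2 * N ^ 3) := by ring
        _ ≤ q ^ 2 * (Y * (3 * 2 ^ 66 * g ^ 7 * u ^ 361 * ρ) * R ^ 2) := by gcongr
        _ = (Y * (3 * 2 ^ 66 * g ^ 7 * u ^ 361 * ρ)) * (q * R) ^ 2 := by ring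
        _ ≤ (Y * (3 * 2 ^ 66 * g ^ 7 * u ^ 361 * ρ)) * (18 * H * N) ^ 2 := by gcongr
        _ = _ := by ring
    exact le_of_mul_le_mul_left e1 (by positivity)
  calc q ^ 2 * N ≤ Y * (972 * 2 ^ 66 * g ^ 7 * u ^ 361 * ρ) := h4
    _ ≤ Y * ((2 ^ 32) ^ 3 * g ^ 7 * u ^ 361 * ρ) := by
        gcongr
        norm_num
    _ ≤ Y * (u ^ 3 * u ^ 7 * u ^ 361 * ρ) := by gcongr
    _ = Y * u ^ 371 * ρ := by ring

theorem every_q2 (δ : ℝ) (hδ : 0 < δ) (hδ2 : δ ≤ 1 / 3) : ∃ x0 : ℕ, ∀ N : ℕ, x0 ≤ N →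
    ∀ q : ℕ, (N : ℝ) ^ (2 / 3 + δ) ≤ q → q ≤ N →
    0 < q ∧
    3 * (min (q * ((N : ℝ) / q) ^ (1 / 3 : ℝ)) ((q : ℝ) ^ 2 / (N : ℝ) ^ (2 / 3 : ℝ)) / (N : ℝ) ^ δ) ≤
      L1 N q (((Pr N).card : ℝ) / Nat.totient q) ∧
    (q.divisors.card : ℝ) ≤
      min (q * ((N : ℝ) / q) ^ (1 / 3 : ℝ)) ((q : ℝ) ^ 2 / (N : ℝ) ^ (2 / 3 : ℝ)) / (N : ℝ) ^ δ := by
  obtain ⟨YR, hYR⟩ := count_RP
  obtain ⟨YP, hYP⟩ := count_P
  obtain ⟨x1, hx1⟩ := ev_u (2 * δ / 5) (by positivity) (max (2 ^ 32) YR)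
  obtain ⟨x2, hx2⟩ := ev_div2 (2 * δ / 5) (by positivity)
  refine ⟨x1 + x2 + YP + 300, fun N hN q hq1 hq2 => ?_⟩
  obtain ⟨hN1, hu, hlogu, hlog, hdiv⟩ := hx1 N (by omega)
  have hdiv2 := hx2 N (by omega)
  have hP := hYP N (by omega)
  have hNR : (0 : ℝ) < N := by exact_mod_cast (by omega : 0 < N)
  have hN1R : (1 : ℝ) ≤ N := by exact_mod_cast hN1
  set u : ℝ := (N : ℝ) ^ (2 * δ / 5 / 64) with hudef
  have hu32 : 2 ^ 32 ≤ u := le_trans (le_max_left _ _) hu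
  have huY : (YR : ℝ) ≤ u := le_trans (le_max_right _ _) hu
  have hlog32 : 2 ^ 32 ≤ Real.log N := le_trans (le_max_left _ _) hlog
  have hu0 : 0 < u := lt_of_lt_of_le (by norm_num) hu32
  have hu1 : 1 ≤ u := le_trans (by norm_num) hu32
  -- powers
  obtain ⟨v, hvdef⟩ : ∃ v : ℝ, v = (N : ℝ) ^ (1 / 3 : ℝ) := ⟨_, rfl⟩
  have hv0 : 0 < v := by rw [hvdef]; positivity
  have hv3 : v ^ 3 = N := by
    rw [hvdef, ← Real.rpow_natCast, ← Real.rpow_mul hNR.le]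
    norm_num
  have hv2 : (N : ℝ) ^ (2 / 3 : ℝ) = v ^ 2 := by
    rw [hvdef, ← Real.rpow_natCast, ← Real.rpow_mul hNR.le]
    norm_num
  have hu160 : u ^ 160 = (N : ℝ) ^ δ := by
    rw [hudef, ← Real.rpow_natCast, ← Real.rpow_mul hNR.le]
    congr 1
    push_cast
    ring
  have huv : u ^ 160 ≤ v := by
    rw [hu160, hvdef]
    exact Real.rpow_le_rpow_of_exponent_le hN1R (by linarith)
  have hv1 : 1 ≤ v := le_trans (one_le_pow₀ hu1) huv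
  have hvq : v ^ 2 * u ^ 160 ≤ q := by
    have h1 : v ^ 2 * u ^ 160 = (N : ℝ) ^ (2 / 3 + δ) := by
      rw [hu160, ← hv2, ← Real.rpow_add hNR]
    rw [h1]
    exact hq1
  have hq0 : (0 : ℝ) < q := lt_of_lt_of_le (by positivity) hvq
  have hqn : 0 < q := by exact_mod_cast hq0
  have hqN : (q : ℝ) ≤ N := by exact_mod_cast hq2
  have hu160_2 : (2 : ℝ) ≤ u ^ 160 := by
    calc (2 : ℝ) ≤ u := by linarith
      _ = u ^ 1 := by ring
      _ ≤ u ^ 160 := pow_le_pow_right₀ hu1 (by norm_num)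
  have hq2' : (2 : ℝ) ≤ q := by
    calc (2 : ℝ) ≤ u ^ 160 := hu160_2
      _ = 1 * u ^ 160 := by ring
      _ ≤ v ^ 2 * u ^ 160 := by gcongr; exact one_le_pow₀ hv1
      _ ≤ q := hvq
  have hqN2 : 2 ≤ q := by exact_mod_cast hq2'
  set Q : ℕ := q - 1 with hQdef
  have hQcast : (Q : ℝ) = q - 1 := by
    rw [hQdef, Nat.cast_sub (by omega)]
    simp
  have hQhalf : (q : ℝ) / 2 ≤ Q := by rw [hQcast]; linarith
  have hQ0 : (0 : ℝ) < Q := by linarith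
  have hQn : 0 < Q := by exact_mod_cast hQ0
  have hQN : (Q : ℝ) ≤ N := by rw [hQcast]; linarith
  have hQNn : Q ≤ N := by omega
  have hQv : v ^ 2 * u ^ 150 ≤ Q := by
    have h1 : v ^ 2 * u ^ 150 * 2 ≤ q := by
      calc v ^ 2 * u ^ 150 * 2 ≤ v ^ 2 * u ^ 150 * u := by gcongr; linarith
        _ = v ^ 2 * u ^ 151 := by ring
        _ ≤ v ^ 2 * u ^ 160 := by
            gcongr
            norm_num
        _ ≤ q := hvq
    linarith
  obtain ⟨g, hg⟩ : ∃ g, g = Real.log N := ⟨_, rfl⟩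
  have hg0 : 0 < g := by rw [hg]; exact lt_of_lt_of_le (by norm_num) hlog32
  have hg1 : 1 ≤ g := by rw [hg]; exact le_trans (by norm_num) hlog32
  -- parameters
  set H : ℕ := ⌊u ^ 60⌋₊ with hHdef
  set R : ℕ := 8 * H * N / Q + 1 with hRdef
  have hH2 : (H : ℝ) ≤ u ^ 60 := Nat.floor_le (by positivity)
  have hu60 : 1 ≤ u ^ 60 := one_le_pow₀ hu1
  have hHn : 1 ≤ H := Nat.le_floor (by simpa using hu60)
  have hH1R : (1 : ℝ) ≤ H := by exact_mod_cast hHn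
  have hH1 : u ^ 60 / 2 ≤ H := by
    have e1 : u ^ 60 < H + 1 := Nat.lt_floor_add_one _
    linarith
  have hR1 : 8 * H * N ≤ Q * R := by
    have h1 : 8 * H * N < Q * (8 * H * N / Q + 1) := Nat.lt_mul_div_succ _ hQn
    exact h1.le
  have hR2 : Q * R ≤ 9 * H * N := by
    have h1 : Q * (8 * H * N / Q) ≤ 8 * H * N := Nat.mul_div_le _ _
    have h2 : N ≤ H * N := Nat.le_mul_of_pos_left N hHn
    calc Q * R = Q * (8 * H * N / Q) + Q := by rw [hRdef]; ring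
      _ ≤ 8 * H * N + H * N := by omega
      _ = 9 * H * N := by ring
  have hR1R : 8 * (H : ℝ) * N ≤ Q * R := by exact_mod_cast hR1
  have hR2R : (Q : ℝ) * R ≤ 9 * H * N := by exact_mod_cast hR2
  have hR8H : 8 * (H : ℝ) ≤ R := by
    have h1 : (Q : ℝ) * (8 * H) ≤ Q * R := by
      calc (Q : ℝ) * (8 * H) ≤ N * (8 * H) := by gcongr
        _ = 8 * H * N := by ring
        _ ≤ Q * R := hR1R
    exact le_of_mul_le_mul_left h1 hQ0
  have hR8Hn : 8 * H ≤ R := by exact_mod_cast hR8H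
  have hR0' : (0 : ℝ) < R := by linarith
  have hRu : u ^ 60 ≤ R := by linarith
  have hRv0 : (R : ℝ) * u ^ 100 ≤ 18 * v := by
    have h1 : (v ^ 2 * u ^ 60) * ((R : ℝ) * u ^ 100) ≤ (v ^ 2 * u ^ 60) * (18 * v) := by
      calc (v ^ 2 * u ^ 60) * ((R : ℝ) * u ^ 100) = (v ^ 2 * u ^ 160) * (R : ℝ) := by ring
        _ ≤ (q : ℝ) * R := by gcongr
        _ ≤ (2 * Q) * R := by gcongr; linarith
        _ = 2 * ((Q : ℝ) * R) := by ring
        _ ≤ 2 * (9 * (H : ℝ) * N) := by gcongr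
        _ ≤ 2 * (9 * u ^ 60 * N) := by gcongr
        _ = (v ^ 2 * u ^ 60) * (18 * v) := by rw [← hv3]; ring
    exact le_of_mul_le_mul_left h1 (by positivity)
  have hRv : (R : ℝ) * u ^ 89 ≤ v := by
    have h1 : ((R : ℝ) * u ^ 89) * u ^ 11 ≤ v * u ^ 11 := by
      calc ((R : ℝ) * u ^ 89) * u ^ 11 = R * u ^ 100 := by ring
        _ ≤ 18 * v := hRv0
        _ ≤ u * v := by gcongr; linarith
        _ = v * u ^ 1 := by ring
        _ ≤ v * u ^ 11 := by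
            gcongr
            norm_num
    exact le_of_mul_le_mul_right h1 (by positivity)
  have hM := mean_RP N R u v hN1 hu32 hv3 hv1 hlog32 hlogu hdiv hRu hRv
  have hvN : v ≤ N := by
    rw [← hv3]
    calc v = v * 1 := by ring
      _ ≤ v * v ^ 2 := by gcongr; exact one_le_pow₀ hv1
      _ = v ^ 3 := by ring
  have h8RN : 8 * R ≤ N := by
    have h8Rv : 8 * (R : ℝ) ≤ v := by
      calc 8 * (R : ℝ) = R * 8 := by ring
        _ ≤ R * u ^ 89 := by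
            gcongr
            calc (8 : ℝ) ≤ u := by linarith
              _ = u ^ 1 := by ring
              _ ≤ u ^ 89 := pow_le_pow_right₀ hu1 (by norm_num)
        _ ≤ v := hRv
    have : 8 * (R : ℝ) ≤ N := h8Rv.trans hvN
    exact_mod_cast this
  have hRP := hYR R N (by
    have h1 : (YR : ℝ) ≤ R := by
      calc (YR : ℝ) ≤ u := huY
        _ = u ^ 1 := by ring
        _ ≤ u ^ 60 := pow_le_pow_right₀ hu1 (by norm_num)
        _ ≤ R := hRu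
    exact_mod_cast h1) h8RN
  have hqmem : q ∈ Ioc Q (2 * Q) := by
    rw [mem_Ioc]
    omega
  have hcorr := corr_one N Q q H R u v (by linarith) hv3 hv1 (by linarith) hlogu hQv hQNn hqmem hH1 hH2
    hR1 hRv (hdiv q hqn (by omega)) hM hRP hP
  rw [← hg] at hRP hP hlogu hlog32
  obtain ⟨P, hPdef⟩ : ∃ P : ℝ, P = ((Pr N).card : ℝ) := ⟨_, rfl⟩
  obtain ⟨S, hSdef⟩ : ∃ S : ℝ, S = ((SS H R).card : ℝ) := ⟨_, rfl⟩
  obtain ⟨r, hrdef⟩ : ∃ r : ℝ, r = ((RP R).card : ℝ) := ⟨_, rfl⟩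
  have hSr : S = H * r := by rw [hSdef, hrdef, SS_card]
  have hr0 : 0 < r := by
    rw [hrdef]
    by_contra hcon
    have h1 : ((RP R).card : ℝ) = 0 := le_antisymm (not_lt.1 hcon) (by positivity)
    rw [h1] at hRP
    linarith
  have hS0 : 0 < S := by rw [hSr]; positivity
  rw [← hrdef] at hRP
  have hS1 : 2 * (H : ℝ) * R ≤ S * g := by
    rw [hSr]
    calc 2 * (H : ℝ) * R = H * (2 * R) := by ring
      _ ≤ H * (r * g) := by gcongr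
      _ = H * r * g := by ring
  have hgu : g ≤ u := by linarith
  -- the energy
  have hHq : H < q := by
    have h1 : (H : ℝ) < q := by
      calc (H : ℝ) ≤ u ^ 60 := hH2
        _ < u ^ 160 := by
            apply pow_lt_pow_right₀ _ (by norm_num)
            linarith
        _ = 1 * u ^ 160 := by ring
        _ ≤ v ^ 2 * u ^ 160 := by gcongr; exact one_le_pow₀ hv1
        _ ≤ q := hvq
    exact_mod_cast h1
  have hDb : ∀ m : ℕ, 0 < m → m ≤ 16384 * H ^ 2 * R ^ 4 → (m.divisors.card : ℝ) ≤ u := by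
    intro m hm1 hm2
    refine hdiv2 m hm1 (hm2.trans ?_)
    have h1 : (16384 : ℝ) * (H : ℝ) ^ 2 * (R : ℝ) ^ 4 ≤ (N : ℝ) ^ 2 := by
      have h2 : (16384 * (H : ℝ) ^ 2 * (R : ℝ) ^ 4) * u ^ 400 ≤ (N : ℝ) ^ 2 * u ^ 400 := by
        calc (16384 * (H : ℝ) ^ 2 * (R : ℝ) ^ 4) * u ^ 400 = 16384 * (H : ℝ) ^ 2 * (R * u ^ 100) ^ 4 := by ring
          _ ≤ 16384 * (u ^ 60) ^ 2 * (18 * v) ^ 4 := by gcongr
          _ = (v ^ 4 * u ^ 120) * 1719926784 := by ring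
          _ ≤ (v ^ 4 * u ^ 120) * u := by gcongr; linarith
          _ = v ^ 4 * u ^ 121 := by ring
          _ ≤ v ^ 6 * u ^ 400 := by
              gcongr
              · norm_num
              · norm_num
          _ = (N : ℝ) ^ 2 * u ^ 400 := by rw [← hv3]; ring
      exact le_of_mul_le_mul_right h2 (by positivity)
    exact_mod_cast h1
  have hEn := En_one q H R (by omega) (by omega) hHq u hu0.le hDb
  rw [← hSdef] at hEn
  have hqR : (q : ℝ) * R ≤ 18 * H * N := by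
    calc (q : ℝ) * R ≤ (2 * Q) * R := by gcongr; linarith
      _ = 2 * ((Q : ℝ) * R) := by ring
      _ ≤ 2 * (9 * (H : ℝ) * N) := by gcongr
      _ = 18 * H * N := by ring
  obtain ⟨ρ, hρ⟩ : ∃ ρ : ℝ, ρ = max 1 ((N : ℝ) ^ 3 / (q : ℝ) ^ 4) := ⟨_, rfl⟩
  have hρ1 : 1 ≤ ρ := by rw [hρ]; exact le_max_left _ _
  have hρ2 : (N : ℝ) ^ 3 / (q : ℝ) ^ 4 ≤ ρ := by rw [hρ]; exact le_max_right _ _
  have hR3q : (R : ℝ) ^ 3 / q ≤ 5832 * (H : ℝ) ^ 3 * ρ := by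
    calc (R : ℝ) ^ 3 / q = (q * R) ^ 3 / (q : ℝ) ^ 4 := by field_simp
      _ ≤ (18 * H * N) ^ 3 / (q : ℝ) ^ 4 := by gcongr
      _ = 5832 * (H : ℝ) ^ 3 * ((N : ℝ) ^ 3 / (q : ℝ) ^ 4) := by ring
      _ ≤ 5832 * (H : ℝ) ^ 3 * ρ := by gcongr
  have hE : En q H R ≤ 2 ^ 26 * u ^ 361 * ρ * S ^ 2 := by
    refine hEn.trans ?_
    have e1 : S * (H : ℝ) ^ 2 ≤ S ^ 2 * g := by
      have : (H : ℝ) ^ 2 ≤ S * g := by
        calc (H : ℝ) ^ 2 = H * H := by ring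
          _ ≤ H * (2 * R) := by gcongr; linarith
          _ = 2 * H * R := by ring
          _ ≤ S * g := hS1
      calc S * (H : ℝ) ^ 2 ≤ S * (S * g) := by gcongr
        _ = S ^ 2 * g := by ring
    have e2 : 2 * (1024 * (H : ℝ) * R ^ 3 / q) + 1 ≤ 2 ^ 24 * (H : ℝ) ^ 4 * ρ := by
      have e3 : 1024 * (H : ℝ) * R ^ 3 / q = 1024 * H * ((R : ℝ) ^ 3 / q) := by ring
      rw [e3]
      have e4 : 1 ≤ (H : ℝ) ^ 4 * ρ := by
        calc (1 : ℝ) = 1 * 1 := by ring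
          _ ≤ (H : ℝ) ^ 4 * ρ := by
              gcongr
              exact one_le_pow₀ hH1R
      calc 2 * (1024 * (H : ℝ) * ((R : ℝ) ^ 3 / q)) + 1 ≤ 2 * (1024 * (H : ℝ) * (5832 * (H : ℝ) ^ 3 * ρ)) + (H : ℝ) ^ 4 * ρ := by
            gcongr
        _ = 11943937 * ((H : ℝ) ^ 4 * ρ) := by ring
        _ ≤ 2 ^ 24 * ((H : ℝ) ^ 4 * ρ) := by gcongr; norm_num
        _ = _ := by ring
    have e5 : 2 * u * (S ^ 2 * (H : ℝ) ^ 2 * (2 * (1024 * (H : ℝ) * R ^ 3 / q) + 1)) ≤ 2 ^ 25 * u ^ 361 * ρ * S ^ 2 := by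
      calc 2 * u * (S ^ 2 * (H : ℝ) ^ 2 * (2 * (1024 * (H : ℝ) * R ^ 3 / q) + 1)) ≤
            2 * u * (S ^ 2 * (u ^ 60) ^ 2 * (2 ^ 24 * (u ^ 60) ^ 4 * ρ)) := by
            have : 2 * (1024 * (H : ℝ) * R ^ 3 / q) + 1 ≤ 2 ^ 24 * (u ^ 60) ^ 4 * ρ := by
              refine e2.trans ?_
              gcongr
            gcongr
        _ = 2 ^ 25 * u ^ 361 * ρ * S ^ 2 := by ring
    have e6 : 2 * S ^ 2 + S ^ 2 * g ≤ 2 ^ 25 * u ^ 361 * ρ * S ^ 2 := by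
      have e7 : 2 + g ≤ 2 ^ 25 * u ^ 361 * ρ := by
        calc 2 + g ≤ 2 ^ 25 * u := by linarith
          _ = 2 ^ 25 * u ^ 1 * 1 := by ring
          _ ≤ 2 ^ 25 * u ^ 361 * ρ := by
              gcongr
              norm_num
      calc 2 * S ^ 2 + S ^ 2 * g = (2 + g) * S ^ 2 := by ring
        _ ≤ _ := by gcongr
    have e8 : 2 ^ 26 * u ^ 361 * ρ * S ^ 2 = 2 ^ 25 * u ^ 361 * ρ * S ^ 2 + 2 ^ 25 * u ^ 361 * ρ * S ^ 2 := by ring
    rw [e8]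
    linarith
  -- Hölder
  have hsup : ∀ b ∈ range q, ‖Dc N q (((Pr N).card : ℝ) / Nat.totient q) b‖ ≤ 3 * g * N / q := fun b _ =>
    Dc_sup N q hqn hq2 g hg (by linarith) b
  have hhol := holder_sup4 q H R N (((Pr N).card : ℝ) / Nat.totient q) (3 * g * N / q) _ hqn (by positivity)
    hsup hcorr
  obtain ⟨X, hX⟩ : ∃ X : ℝ, X = ∑ b ∈ range q, ‖Dc N q (((Pr N).card : ℝ) / Nat.totient q) b‖ := ⟨_, rfl⟩
  rw [← hX, ← hSdef, ← hPdef] at hhol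
  have hX0 : 0 ≤ X := by rw [hX]; exact sum_nonneg fun _ _ => norm_nonneg _
  have halg := alg4 N q H R S P g X u ρ (En q H R) hNR hq0 (by linarith) hR0' hS0 hg0 hX0 hu32 hgu (by linarith) hE hhol
    hS1 (by rw [hPdef]; exact hP) hqR
  -- conclusion
  obtain ⟨Z1, hZ1⟩ : ∃ Z1 : ℝ, Z1 = q * ((N : ℝ) / q) ^ (1 / 3 : ℝ) := ⟨_, rfl⟩
  obtain ⟨Z2, hZ2⟩ : ∃ Z2 : ℝ, Z2 = (q : ℝ) ^ 2 / (N : ℝ) ^ (2 / 3 : ℝ) := ⟨_, rfl⟩
  obtain ⟨μ, hμ⟩ : ∃ μ : ℝ, μ = min Z1 Z2 := ⟨_, rfl⟩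
  rw [← hZ1, ← hZ2, ← hμ, ← hu160]
  have hNq1 : 1 ≤ (N : ℝ) / q := by rw [le_div_iff₀ hq0]; linarith
  have hZ1q : (q : ℝ) ≤ Z1 := by
    rw [hZ1]
    have := Real.one_le_rpow hNq1 (by norm_num : (0 : ℝ) ≤ 1 / 3)
    nlinarith
  have hv2q : v ^ 2 ≤ q := by
    calc v ^ 2 = v ^ 2 * 1 := by ring
      _ ≤ v ^ 2 * u ^ 160 := by gcongr; exact one_le_pow₀ hu1
      _ ≤ q := hvq
  have hZ2q : (q : ℝ) ≤ Z2 := by
    rw [hZ2, hv2, le_div_iff₀ (by positivity), sq (q : ℝ)]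
    exact mul_le_mul_of_nonneg_left hv2q hq0.le
  have hμq : (q : ℝ) ≤ μ := by rw [hμ]; exact le_min hZ1q hZ2q
  have hμ0 : 0 < μ := by linarith
  have hZ13 : Z1 ^ 3 = q ^ 2 * N := by
    rw [hZ1, mul_pow, ← Real.rpow_natCast (((N : ℝ) / q) ^ (1 / 3 : ℝ)), ← Real.rpow_mul (by positivity)]
    norm_num
    field_simp
  have hZ23 : Z2 ^ 3 * N ^ 2 = q ^ 6 := by
    rw [hZ2, hv2, ← hv3]
    field_simp
  have hμ3 : μ ^ 3 ≤ X ^ 3 * u ^ 371 := by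
    rcases le_or_gt ((N : ℝ) ^ 3) ((q : ℝ) ^ 4) with hc | hc
    · have e1 : ρ = 1 := by
        rw [hρ]
        apply max_eq_left
        rw [div_le_one (by positivity)]
        exact hc
      rw [e1, mul_one] at halg
      calc μ ^ 3 ≤ Z1 ^ 3 := by
            apply pow_le_pow_left₀ hμ0.le
            rw [hμ]
            exact min_le_left _ _
        _ = (q : ℝ) ^ 2 * N := hZ13
        _ ≤ _ := halg
    · have e1 : ρ = (N : ℝ) ^ 3 / (q : ℝ) ^ 4 := by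
        rw [hρ]
        apply max_eq_right
        rw [le_div_iff₀ (by positivity)]
        linarith
      rw [e1] at halg
      have e2 : μ ^ 3 * N ^ 2 ≤ q ^ 6 := by
        rw [← hZ23]
        gcongr
        rw [hμ]
        exact min_le_right _ _
      have e3 : (q : ℝ) ^ 6 * N ≤ (X ^ 3 * u ^ 371) * N ^ 3 := by
        have e4 := mul_le_mul_of_nonneg_right halg (by positivity : (0 : ℝ) ≤ q ^ 4)
        calc (q : ℝ) ^ 6 * N = q ^ 2 * N * q ^ 4 := by ring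
          _ ≤ X ^ 3 * u ^ 371 * (N ^ 3 / q ^ 4) * q ^ 4 := e4
          _ = _ := by field_simp
      have e5 : μ ^ 3 * (N ^ 3) ≤ (X ^ 3 * u ^ 371) * N ^ 3 := by
        calc μ ^ 3 * (N : ℝ) ^ 3 = (μ ^ 3 * N ^ 2) * N := by ring
          _ ≤ (q : ℝ) ^ 6 * N := by gcongr
          _ ≤ _ := e3
      exact le_of_mul_le_mul_right e5 (by positivity)
  have hfin : 4 * μ / u ^ 160 ≤ X := by
    have h1 : (4 * μ / u ^ 160) ^ 3 ≤ X ^ 3 := by
      rw [div_pow, div_le_iff₀ (by positivity)]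
      calc (4 * μ) ^ 3 = 64 * μ ^ 3 := by ring
        _ ≤ u * (X ^ 3 * u ^ 371) := by gcongr; linarith
        _ = X ^ 3 * u ^ 372 := by ring
        _ ≤ X ^ 3 * u ^ 480 := by
            gcongr
            norm_num
        _ = X ^ 3 * (u ^ 160) ^ 3 := by ring
    exact le_of_pow_le_pow_left₀ (by norm_num) hX0 h1
  have hτ : (q.divisors.card : ℝ) ≤ μ / u ^ 160 := by
    rw [le_div_iff₀ (by positivity)]
    calc (q.divisors.card : ℝ) * u ^ 160 ≤ u * u ^ 160 := by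
          gcongr
          exact hdiv q hqn (by omega)
      _ ≤ v ^ 2 * u ^ 160 := by
          gcongr
          calc u = 1 * u ^ 1 := by ring
            _ ≤ v * u ^ 160 := by
                gcongr
                norm_num
            _ ≤ v * v := by gcongr
            _ = v ^ 2 := by ring
      _ ≤ q := hvq
      _ ≤ μ := hμq
  have hL := Dc_L1 N q hqn (((Pr N).card : ℝ) / Nat.totient q)
  rw [← hX] at hL
  refine ⟨hqn, ?_, hτ⟩
  have e1 : 4 * μ / u ^ 160 = 4 * (μ / u ^ 160) := by ring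
  rw [e1] at hfin
  linarith

end

end Pool.Agent.H52.LO
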